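import Pool.Agent.Work.MP_a77660_ag.Defs

/-!
Log Calabi-Yau pairs over a field with a bound on the coefficients of all crepant pull-backs.
-/

namespace Pool.Agent.Work.MP_a77660_ag.Hedge

open AlgebraicGeometry CategoryTheory

/-- `(X, B) → Spec k` is a log Calabi-Yau fibration over `Y = Spec k` and the pair is `ε`-log
canonical: on every normal birational model all coefficients of the crepant pull-back are at most
`1 - ε`.  For `ε = 0` this is `IsLogCalabiYauOver`, for `ε > 0` the pair is klt.  The divisor `B`
is given by its coefficients at the points of codimension one. -/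
structure IsEpsLogCalabiYauOver {k : Type} [Field k] {X : Scheme.{0}} [IsIntegral X]
    [IsLocallyNoetherian X] (ε : ℚ) (f : X ⟶ Spec (CommRingCat.of k)) (B : X → ℚ) : Prop where
  normal : IsNormalScheme X
  projective : IsProjectiveOver f
  contraction : Function.Bijective f.appTop
  coeff_nonneg : ∀ x, 0 ≤ B x
  finite_support : (Function.support B).Finite
  support_codim_one : ∀ x, B x ≠ 0 → Order.coheight x = 1
  trivial_and_lc : ∃ (r : ℕ) (β : Module.Basis (Fin r) X.functionField Ω[X.functionField⁄ℤ])
    (m : ℕ) (g : X.functionField), 0 < m ∧ g ≠ 0 ∧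
    (∀ x : X, Order.coheight x = 1 → ∃ κ : ℤ,
      IsCanonicalCoeff β (RingHom.id X.functionField) x κ ∧
        (X.ord g x : ℚ) = m * (κ + B x)) ∧
    (∀ (W : Scheme.{0}) [IsIntegral W] [IsLocallyNoetherian W] (φ : W ⟶ X) [IsDominant φ],
      IsNormalScheme W → IsProper φ → Function.Bijective (pullbackRat φ) →
      ∀ w : W, Order.coheight w = 1 → ∃ κ : ℤ,
        IsCanonicalCoeff β (pullbackRat φ) w κ ∧
          (W.ord (pullbackRat φ g) w : ℚ) / m - κ ≤ 1 - ε)

end Pool.Agent.Work.MP_a77660_ag.Hedge
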