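import Pool.Agent.Work.MP_a77660_ag.ValBridge
import Mathlib
import Pool.Agent.Work.MP_a77660_ag.Curve
import Pool.Agent.Work.MP_a77660_ag.Hedge.Defs

-- merged part: Pool.Agent.Work.MP_a77660_ag.Hedge.Gen
section
/-!
Derivations, Jacobians indexed by a finite type, and logarithmic forms.
-/

namespace Pool.Agent.Work.MP_a77660_ag.Hedge

open WithZero

section Exists

variable {p : ℕ} [Fact p.Prime] {F : Type} [Field F] [Algebra (ZMod p) F] {ι : Type}

theorem exists_derivation_p (t : ι → F) (hind : AlgebraicIndependent (ZMod p) t)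
    (hgen : Subfield.closure (Set.range t) = ⊤) (v : ι → F) :
    ∃ D : Derivation ℤ F F, ∀ i, D (t i) = v i := by
  let P := MvPolynomial ι (ZMod p)
  let φ : P →+* F := (MvPolynomial.aeval t : P →ₐ[ZMod p] F).toRingHom
  let _ : Algebra P F := φ.toAlgebra
  have hinj : Function.Injective (algebraMap P F) := hind
  have hrange : ∀ y ∈ Subring.closure (Set.range t), ∃ p : P, algebraMap P F p = y := by
    intro y hy
    have : Subring.closure (Set.range t) ≤ φ.range := by
      rw [Subring.closure_le]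
      rintro _ ⟨i, rfl⟩
      exact ⟨MvPolynomial.X i, MvPolynomial.aeval_X t i⟩
    exact this hy
  have : FaithfulSMul P F := (faithfulSMul_iff_algebraMap_injective P F).mpr hinj
  have : IsFractionRing P F := by
    refine IsFractionRing.of_field P F fun z => ?_
    have hz : z ∈ Subfield.closure (Set.range t) := hgen ▸ Subfield.mem_top z
    obtain ⟨a, ha, b, hb, rfl⟩ := Subfield.mem_closure_iff.mp hz
    obtain ⟨p, rfl⟩ := hrange a ha
    obtain ⟨q, rfl⟩ := hrange b hb
    exact ⟨p, q, rfl⟩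
  let τ₀ : P →+* TrivSqZeroExt F F :=
    MvPolynomial.eval₂Hom ((TrivSqZeroExt.inlHom F F).comp (algebraMap (ZMod p) F))
      (fun i => TrivSqZeroExt.inl (t i) + TrivSqZeroExt.inr (v i))
  have h0 : (TrivSqZeroExt.fstHom F F F).toRingHom.comp τ₀ = algebraMap P F := by
    apply MvPolynomial.ringHom_ext
    · intro r
      simp [τ₀, RingHom.algebraMap_toAlgebra, φ]
    · intro i
      simp [τ₀, RingHom.algebraMap_toAlgebra, φ]
  have hunit : ∀ y : nonZeroDivisors P, IsUnit (τ₀ y) := by
    intro y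
    rw [TrivSqZeroExt.isUnit_iff_isUnit_fst]
    have : (τ₀ y).fst = algebraMap P F y := congrArg (fun f : P →+* F => f y) h0
    rw [this]
    exact IsLocalization.map_units F y
  let τ : F →+* TrivSqZeroExt F F := IsLocalization.lift (M := nonZeroDivisors P) hunit
  have h1 : (TrivSqZeroExt.fstHom F F F).toRingHom.comp τ = RingHom.id F := by
    apply IsLocalization.ringHom_ext (nonZeroDivisors P)
    rw [RingHom.comp_assoc, IsLocalization.lift_comp, h0, RingHom.id_comp]
  have h2 : ∀ a, (τ a).fst = a := fun a => congrArg (fun f : F →+* F => f a) h1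
  let D₀ : F →+ F :=
    { toFun := fun a => (τ a).snd
      map_zero' := by simp
      map_add' := fun a b => by simp }
  refine ⟨Derivation.mk' D₀.toIntLinearMap fun a b => ?_, fun i => ?_⟩
  · change (τ (a * b)).snd = a • (τ b).snd + b • (τ a).snd
    rw [map_mul, TrivSqZeroExt.snd_mul, h2, h2]
    simp [mul_comm]
  · change (τ (t i)).snd = v i
    have : t i = algebraMap P F (MvPolynomial.X i) := (MvPolynomial.aeval_X t i).symm
    rw [this, IsLocalization.lift_eq]
    simp only [τ₀, P, MvPolynomial.eval₂Hom_X']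
    simp

end Exists

theorem der_pow_char {F M : Type} [CommRing F] (p : ℕ) [CharP F p] [AddCommGroup M] [Module F M]
    (D : Derivation ℤ F M) (a : F) : D (a ^ p) = 0 := by
  rw [Derivation.leibniz_pow, ← Nat.cast_smul_eq_nsmul F, CharP.cast_eq_zero, zero_smul]

/-- The elements killed by a derivation. -/
def kerD {F M : Type} [Field F] [AddCommGroup M] [Module F M] (D : Derivation ℤ F M)
    (N : Submodule F M) : Subfield F where
  carrier := {f | D f ∈ N}
  mul_mem' := fun {a b} ha hb => by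
    change D (a * b) ∈ N
    rw [Derivation.leibniz]
    exact add_mem (N.smul_mem _ hb) (N.smul_mem _ ha)
  one_mem' := by change D 1 ∈ N; simp
  add_mem' := fun {a b} ha hb => by
    change D (a + b) ∈ N
    rw [map_add]
    exact add_mem ha hb
  zero_mem' := by change D 0 ∈ N; simp
  neg_mem' := fun {a} ha => by
    change D (-a) ∈ N
    rw [map_neg]
    exact neg_mem ha
  inv_mem' := fun a ha => by
    change D a⁻¹ ∈ N
    rw [Derivation.leibniz_inv]
    exact N.smul_mem _ ha

theorem mem_kerD {F M : Type} [Field F] [AddCommGroup M] [Module F M] {D : Derivation ℤ F M}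
    {N : Submodule F M} {f : F} : f ∈ kerD D N ↔ D f ∈ N := Iff.rfl

section Key

variable {E : Type} [Field E] (p : ℕ) [Fact p.Prime] [CharP E p] (D : Derivation ℤ E E)
  (T : Subring E) (hT : ∀ t ∈ T, D t = 0) (γ : E) (hγ : D γ ≠ 0)

open Polynomial

include hT in
theorem der_aeval (q : T[X]) : D (aeval γ q) = aeval γ (derivative q) * D γ := by
  induction q using Polynomial.induction_on' with
  | add q q' hq hq' => simp only [map_add, hq, hq', add_mul]
  | monomial n a =>
    rw [derivative_monomial, aeval_monomial, aeval_monomial, Derivation.leibniz,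
      Derivation.leibniz_pow]
    have h : D (algebraMap T E a) = 0 := hT _ a.2
    rw [h, map_mul, map_natCast]
    simp only [smul_eq_mul, nsmul_eq_mul]
    ring

omit [Fact p.Prime] in
theorem eq_C_of_derivative {q : T[X]} (hq : q.natDegree < p) (h : derivative q = 0) :
    q = C (q.coeff 0) := by
  ext n
  rcases n with _ | n
  · simp
  · rw [coeff_C_succ]
    by_cases hn : n + 1 < p
    · have h1 := congrArg (fun q => coeff q n) h
      simp only [coeff_derivative, coeff_zero] at h1
      have h2 : ((n : T) + 1) ≠ 0 := by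
        have : ((n + 1 : ℕ) : T) ≠ 0 := by
          rw [Ne, CharP.cast_eq_zero_iff T p]
          exact Nat.not_dvd_of_pos_of_lt (Nat.succ_pos n) hn
        simpa using this
      rw [(mul_eq_zero.mp h1).resolve_right h2]
    · rw [coeff_eq_zero_of_natDegree_lt (by omega)]

include hT hγ in
omit [Fact p.Prime] in
theorem eq_zero_of_aeval (n : ℕ) (hn : n < p) :
    ∀ q : T[X], q.natDegree ≤ n → aeval γ q = 0 → q = 0 := by
  induction n with
  | zero =>
    intro q hq h
    rw [eq_C_of_natDegree_le_zero hq] at h ⊢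
    rw [aeval_C] at h
    rw [show q.coeff 0 = 0 from Subtype.ext h, map_zero]
  | succ n ih =>
    intro q hq h
    have h1 := der_aeval D T hT γ q
    rw [h, map_zero] at h1
    have h2 := ih (by omega) (derivative q)
      (by have := natDegree_derivative_le q; omega) ((mul_eq_zero.mp h1.symm).resolve_right hγ)
    rw [eq_C_of_derivative p T (by omega) h2] at h ⊢
    rw [aeval_C] at h
    rw [show q.coeff 0 = 0 from Subtype.ext h, map_zero]

include hT hγ in
theorem mem_of_der_eq_zero (hp : γ ^ p ∈ T) {f : E}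
    (hf : f ∈ Subring.closure (insert γ (T : Set E))) (h : D f = 0) : f ∈ T := by
  have h1 : Subring.closure (insert γ (T : Set E)) ≤ (aeval γ : T[X] →ₐ[T] E).toRingHom.range := by
    rw [Subring.closure_le]
    rintro x (rfl | hx)
    · exact ⟨X, aeval_X _⟩
    · exact ⟨C ⟨x, hx⟩, aeval_C _ _⟩
  obtain ⟨q, rfl⟩ := h1 hf
  have hp0 : p ≠ 0 := (Fact.out : p.Prime).ne_zero
  have hm : (X ^ p - C (⟨γ ^ p, hp⟩ : T)).Monic := monic_X_pow_sub_C _ hp0
  have h2 : aeval γ (X ^ p - C (⟨γ ^ p, hp⟩ : T)) = 0 := by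
    rw [map_sub, map_pow, aeval_X, aeval_C]
    exact sub_self _
  have h3 := aeval_modByMonic_eq_self_of_root (p := q) h2
  have h4 : (q %ₘ (X ^ p - C (⟨γ ^ p, hp⟩ : T))).natDegree < p := by
    have := natDegree_modByMonic_lt q hm (fun h => by
      have := congrArg natDegree h
      rw [natDegree_X_pow_sub_C, natDegree_one] at this
      exact hp0 this)
    rwa [natDegree_X_pow_sub_C] at this
  change aeval γ q ∈ T
  change D (aeval γ q) = 0 at h
  rw [← h3] at h ⊢
  generalize q %ₘ (X ^ p - C (⟨γ ^ p, hp⟩ : T)) = q' at h h4 ⊢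
  rw [der_aeval D T hT] at h
  have h5 := eq_zero_of_aeval p D T hT γ hγ (p - 1) (by omega) (derivative q')
    (by have := natDegree_derivative_le q'; omega) ((mul_eq_zero.mp h).resolve_right hγ)
  rw [eq_C_of_derivative p T h4 h5, aeval_C]
  exact (q'.coeff 0).2

end Key

section Jac

variable {F : Type} [Field F] {ι : Type} [Fintype ι] [DecidableEq ι]
  (δ : ι → Derivation ℤ F F)

/-- The gradient with respect to a family of derivations. -/
def gr (δ : ι → Derivation ℤ F F) : Derivation ℤ F (ι → F) :=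
  Derivation.mk' (LinearMap.pi fun j => (δ j : F →ₗ[ℤ] F)) fun a b => by
    ext j
    simp

omit [Fintype ι] [DecidableEq ι] in
@[simp] theorem gr_apply (a : F) (j : ι) : gr δ a j = δ j a := rfl

/-- The Jacobian determinant. -/
def JJ (a : ι → F) : F := (Matrix.of fun i j => δ j (a i)).det

theorem JJ_eq (a : ι → F) : JJ δ a = Matrix.detRowAlternating (fun i => gr δ (a i)) := rfl

theorem jac_eq_JJ {R : ℕ} (e : ι ≃ Fin R) (a : Fin R → F) :
    jac (fun j => δ (e.symm j)) a = JJ δ (fun i => a (e i)) := by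
  rw [jac, JJ, ← Matrix.det_submatrix_equiv_self e]
  congr 1
  ext i j
  simp

theorem JJ_of_matrix (t t' : ι → F) (M : Matrix ι ι F)
    (h : ∀ i, gr δ (t' i) = ∑ l, M i l • gr δ (t l)) : JJ δ t' = M.det * JJ δ t := by
  rw [JJ, JJ, ← Matrix.det_mul]
  congr 1
  ext i j
  have := congrFun (h i) j
  simpa [Matrix.mul_apply] using this

theorem JJ_tri (t t' c : ι → F) (ρ : ι → ℕ)
    (h : ∀ i, gr δ (t' i) - c i • gr δ (t i) ∈
      Submodule.span F (Set.range fun l : {l // ρ l < ρ i} => gr δ (t l))) :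
    JJ δ t' = (∏ i, c i) * JJ δ t := by
  have h1 := fun i => (Submodule.mem_span_range_iff_exists_fun F).mp (h i)
  choose w hw using h1
  let M : Matrix ι ι F := fun i l => if i = l then c i else if h : ρ l < ρ i then w i ⟨l, h⟩ else 0
  rw [JJ_of_matrix δ t t' M, det_of_rank M ρ]
  · simp [M]
  · intro i j hij
    by_contra h2
    rw [not_or] at h2
    exact hij (by simp [M, h2.1, h2.2])
  · intro i
    have h3 : ∀ l, M i l • gr δ (t l) = (if i = l then c i • gr δ (t i) else 0) +
        if h : ρ l < ρ i then w i ⟨l, h⟩ • gr δ (t l) else 0 := by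
      intro l
      by_cases h4 : i = l
      · subst h4
        simp [M]
      · simp only [M, if_neg h4]
        split_ifs <;> simp
    rw [Finset.sum_congr rfl fun l _ => h3 l, Finset.sum_add_distrib, Finset.sum_ite_eq,
      if_pos (Finset.mem_univ i), Finset.sum_dite, Finset.sum_const_zero, add_zero,
      ← sub_eq_iff_eq_add', ← hw]
    exact Fintype.sum_equiv (Equiv.subtypeEquivRight (by simp)) _ _ fun _ => rfl

theorem JJ_update (f : ι → F) (i : ι) (y : F) :
    JJ δ (Function.update f i y) =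
      Matrix.detRowAlternating (Function.update (fun l => gr δ (f l)) i (gr δ y)) := by
  rw [JJ_eq]
  congr 1
  funext l
  exact Function.apply_update (fun _ => gr δ) f i y l

theorem JJ_update_unit (f : ι → F) (i : ι) (u π : F) (hπ : π ≠ 0) (ν : ℤ) :
    JJ δ (Function.update f i (u * π ^ ν)) = π ^ ν * JJ δ (Function.update f i u) +
      u * (ν * (π ^ ν * π⁻¹)) * JJ δ (Function.update f i π) := by
  have hz : gr δ (π ^ ν) = ((ν : F) * (π ^ ν * π⁻¹)) • gr δ π := by
    rw [Derivation.leibniz_zpow, zpow_sub_one₀ hπ, mul_smul (ν : F), Int.cast_smul_eq_zsmul]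
  simp only [JJ_update, Derivation.leibniz, hz, AlternatingMap.map_update_add,
    AlternatingMap.map_update_smul, smul_eq_mul]
  ring

variable {Γ : Type} [LinearOrderedCommGroupWithZero Γ]

theorem val_JJ_le (v : Valuation F Γ) (t a : ι → F)
    (h : ∀ i, gr δ (a i) ∈ Submodule.span v.integer (Set.range fun l => gr δ (t l))) :
    v (JJ δ a) ≤ v (JJ δ t) := by
  have h1 : ∀ i, ∃ c : ι → v.integer, ∑ l, c l • gr δ (t l) = gr δ (a i) := fun i =>
    (Submodule.mem_span_range_iff_exists_fun _).mp (h i)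
  choose c hc using h1
  rw [JJ_of_matrix δ t a (Matrix.of fun i l => (c i l : F)) fun i => (hc i).symm, map_mul]
  have h3 : v (Matrix.of fun i l => (c i l : F)).det ≤ 1 := by
    simpa using val_det_le v (Matrix.of fun i l => (c i l : F)) (fun _ => 1) fun i j => (c i j).2
  exact mul_le_of_le_one_left' h3

variable (v : Valuation F ℤᵐ⁰) {π : F} (hπ : v π = exp (-1 : ℤ)) {γ : ℤᵐ⁰}
  (hγ : ∀ a : ι → F, (∀ i, v (a i) ≤ 1) → v (JJ δ a) ≤ γ)

include hπ hγ in
theorem log_aux (i₀ : ι) (S : Finset ι) : i₀ ∉ S → ∀ f : ι → F, f i₀ = π →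
    (∀ i ∈ S, f i ≠ 0) → (∀ i ∉ S, v (f i) ≤ 1) → v (JJ δ f) ≤ γ * ∏ i ∈ S, v (f i) := by
  have hπ0 : π ≠ 0 := by
    rintro rfl
    rw [map_zero] at hπ
    exact exp_ne_zero hπ.symm
  induction S using Finset.induction_on with
  | empty => exact fun _ f _ _ h => by simpa using hγ f fun i => h i (by simp)
  | insert i S hi ih =>
    intro h0 f hf h1 h2
    have hi0 : i₀ ≠ i := fun h => h0 (h ▸ Finset.mem_insert_self i S)
    obtain ⟨u, ν, hu, h3⟩ := exists_unit_mul_zpow v hπ (h1 i (Finset.mem_insert_self i S))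
    have h4 : JJ δ (Function.update f i π) = 0 := by
      rw [JJ_eq]
      refine AlternatingMap.map_eq_zero_of_eq _ _ (i := i₀) (j := i) ?_ hi0
      simp [Function.update_of_ne hi0, hf]
    have h5 := ih (fun h => h0 (Finset.mem_insert_of_mem h)) (Function.update f i u)
      (by rw [Function.update_of_ne hi0, hf])
      (fun l hl => by
        rw [Function.update_of_ne (ne_of_mem_of_not_mem hl hi)]
        exact h1 l (Finset.mem_insert_of_mem hl))
      (fun l hl => by
        by_cases h : l = i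
        · rw [h, Function.update_self, hu]
        · rw [Function.update_of_ne h]
          exact h2 l (by simp [h, hl]))
    have hC : ∏ l ∈ S, v (Function.update f i u l) = ∏ l ∈ S, v (f l) :=
      Finset.prod_congr rfl fun l hl => by rw [Function.update_of_ne (ne_of_mem_of_not_mem hl hi)]
    rw [hC] at h5
    have h7 := JJ_update_unit δ f i u π hπ0 ν
    rw [← h3, Function.update_eq_self] at h7
    rw [h7, h4, mul_zero, add_zero, Finset.prod_insert hi, h3, map_mul, map_mul, hu, one_mul,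
      mul_left_comm]
    exact mul_le_mul_right h5 _

include hπ hγ in
theorem log_main (S : Finset ι) : ∀ f : ι → F, (∀ i ∈ S, f i ≠ 0) → (∀ i ∉ S, v (f i) ≤ 1) →
    v π * v (JJ δ f) ≤ γ * ∏ i ∈ S, v (f i) := by
  have hπ0 : π ≠ 0 := by
    rintro rfl
    rw [map_zero] at hπ
    exact exp_ne_zero hπ.symm
  have hπ1 : v π ≤ 1 := by rw [hπ, ← exp_zero, exp_le_exp]; norm_num
  induction S using Finset.induction_on with
  | empty =>
    intro f _ h
    simpa using (mul_le_of_le_one_left' hπ1).trans (hγ f fun i => h i (by simp))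
  | insert i S hi ih =>
    intro f h1 h2
    obtain ⟨u, ν, hu, h3⟩ := exists_unit_mul_zpow v hπ (h1 i (Finset.mem_insert_self i S))
    have hA : ∀ y, ∀ l ∈ S, Function.update f i y l ≠ 0 := fun y l hl => by
      rw [Function.update_of_ne (ne_of_mem_of_not_mem hl hi)]
      exact h1 l (Finset.mem_insert_of_mem hl)
    have hB : ∀ y, v y ≤ 1 → ∀ l ∉ S, v (Function.update f i y l) ≤ 1 := fun y hy l hl => by
      by_cases h : l = i
      · rw [h, Function.update_self]; exact hy
      · rw [Function.update_of_ne h]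
        exact h2 l (by simp [h, hl])
    have hC : ∀ y, ∏ l ∈ S, v (Function.update f i y l) = ∏ l ∈ S, v (f l) := fun y =>
      Finset.prod_congr rfl fun l hl => by rw [Function.update_of_ne (ne_of_mem_of_not_mem hl hi)]
    have h5 := ih (Function.update f i u) (hA u) (hB u hu.le)
    have h6 := log_aux δ v hπ hγ i S hi (Function.update f i π) (by simp) (hA π) (hB π hπ1)
    rw [hC] at h5 h6
    have hν : v (ν : F) ≤ 1 := (ν : v.integer).2.trans_eq' (by simp)
    have h7 := JJ_update_unit δ f i u π hπ0 ν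
    rw [← h3, Function.update_eq_self] at h7
    rw [h7, Finset.prod_insert hi, h3, ← map_mul, mul_add]
    refine v.map_add_le ?_ ?_
    · rw [mul_left_comm π, map_mul, map_mul, map_mul, hu, one_mul, mul_left_comm γ]
      exact mul_le_mul_right h5 _
    · have : π * (u * (ν * (π ^ ν * π⁻¹)) * JJ δ (Function.update f i π)) =
          (ν : F) * (u * π ^ ν * JJ δ (Function.update f i π)) := by
        field_simp
      rw [this, map_mul, map_mul, mul_left_comm γ]
      exact (mul_le_of_le_one_left' hν).trans (mul_le_mul_right h6 _)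

end Jac

end Pool.Agent.Work.MP_a77660_ag.Hedge
end

-- merged part: Pool.Agent.Work.MP_a77660_ag.Hedge.Lam
section
/-!
A power series whose logarithmic derivative is additive up to a given order.
-/

namespace Pool.Agent.Work.MP_a77660_ag.Hedge

open PowerSeries

section Base

variable (p : ℕ) [hp : Fact p.Prime]

open Classical in
/-- The additive series `X + X ^ p + X ^ (p ^ 2) + ...`. -/
noncomputable def psi : PowerSeries (ZMod p) := mk fun n => if ∃ j, n = p ^ j then 1 else 0

variable {p}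

/-- The operator `X d/dX`. -/
noncomputable def th (f : PowerSeries (ZMod p)) : PowerSeries (ZMod p) :=
  X * derivative (ZMod p) f

theorem coeff_th (f : PowerSeries (ZMod p)) (n : ℕ) : coeff n (th f) = n * coeff n f := by
  rcases n with _ | n
  · simp [th]
  · rw [th, coeff_succ_X_mul, coeff_derivative]
    push_cast
    ring

theorem th_mul (f g : PowerSeries (ZMod p)) : th (f * g) = f * th g + g * th f := by
  simp only [th, Derivation.leibniz, smul_eq_mul]
  ring

theorem th_psi : th (psi p) = X := by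
  ext n
  rw [coeff_th, psi, coeff_mk, coeff_X]
  split_ifs with h1 h2 h2
  · rw [h2]; simp
  · obtain ⟨j, rfl⟩ := h1
    rcases j with _ | j
    · simp at h2
    · simp [pow_succ]
  · exact absurd ⟨0, by simpa using h2⟩ h1
  · simp

/-- Logarithmic derivatives of series with constant term one. -/
def IsLog (l : PowerSeries (ZMod p)) : Prop := ∃ f, constantCoeff f = 1 ∧ th f = l * f

theorem IsLog.add {l l' : PowerSeries (ZMod p)} (h : IsLog l) (h' : IsLog l') : IsLog (l + l') := by
  obtain ⟨f, h1, h2⟩ := h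
  obtain ⟨g, h3, h4⟩ := h'
  exact ⟨f * g, by rw [map_mul, h1, h3, mul_one], by rw [th_mul, h2, h4]; ring⟩

theorem isLog_zero : IsLog (0 : PowerSeries (ZMod p)) := ⟨1, map_one _, by simp [th]⟩

theorem IsLog.smul {l : PowerSeries (ZMod p)} (h : IsLog l) (c : ZMod p) : IsLog (C c * l) := by
  obtain ⟨k, rfl⟩ := ZMod.natCast_zmod_surjective c
  induction k with
  | zero => simpa using isLog_zero
  | succ k ih =>
    rw [Nat.cast_succ, map_add, add_mul, map_one, one_mul]
    exact ih.add h

/-- The series `X ^ k / (1 - X ^ k)`. -/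
noncomputable def geo (p k : ℕ) : PowerSeries (ZMod p) :=
  mk fun n => if 0 < n ∧ k ∣ n then 1 else 0

theorem geo_mul {k : ℕ} (hk : 0 < k) : geo p k * (1 - X ^ k) = X ^ k := by
  ext n
  rw [mul_sub, mul_one, mul_comm, map_sub, coeff_X_pow_mul', coeff_X_pow]
  simp only [geo, coeff_mk]
  by_cases h1 : k ≤ n
  · obtain ⟨d, rfl⟩ := Nat.exists_eq_add_of_le h1
    rw [if_pos h1, Nat.add_sub_cancel_left]
    rcases Nat.eq_zero_or_pos d with rfl | hd
    · simp [hk]
    · have h2 : ¬ k + d = k := by omega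
      have h3 : 0 < k + d := by omega
      simp [h3, hd, hd.ne']
  · have h2 : ¬ (0 < n ∧ k ∣ n) := fun h => h1 (Nat.le_of_dvd h.1 h.2)
    have h3 : ¬ n = k := by omega
    simp [h1, h2, h3]

theorem isLog_geo {k : ℕ} (hk : ¬ p ∣ k) (c : ZMod p) : IsLog (C c * geo p k) := by
  have hk0 : 0 < k := Nat.pos_of_ne_zero fun h => hk (h ▸ dvd_zero p)
  have hk1 : (k : ZMod p) ≠ 0 := by rwa [Ne, ZMod.natCast_eq_zero_iff]
  have h1 : IsLog (C (-(k : ZMod p)) * geo p k) := by
    refine ⟨1 - X ^ k, by simp [hk0.ne'], ?_⟩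
    rw [mul_assoc, geo_mul hk0]
    ext n
    rw [coeff_th, coeff_C_mul, map_sub, coeff_X_pow, coeff_one]
    split_ifs with h1 h2 h2
    · omega
    · simp [h1]
    · simp [h2]
    · simp
  have h2 := h1.smul (c / (-(k : ZMod p)))
  rwa [← mul_assoc, ← map_mul, div_mul_cancel₀ _ (neg_ne_zero.mpr hk1)] at h2

theorem exists_log (N : ℕ) : ∃ l : PowerSeries (ZMod p), IsLog l ∧ coeff 0 l = 0 ∧
    (∀ n, coeff (p * n) l = coeff n l) ∧ ∀ n < N, coeff n l = coeff n (psi p) := by
  classical
  have hp1 := hp.out.one_lt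
  induction N with
  | zero => exact ⟨0, isLog_zero, by simp, by simp, by simp⟩
  | succ N ih =>
    obtain ⟨l, h1, h2, h3, h4⟩ := ih
    by_cases hN : p ∣ N
    · refine ⟨l, h1, h2, h3, fun n hn => ?_⟩
      rcases Nat.lt_succ_iff_lt_or_eq.mp hn with h | rfl
      · exact h4 n h
      obtain ⟨k, rfl⟩ := hN
      rcases Nat.eq_zero_or_pos k with rfl | hk
      · rw [mul_zero, h2, psi, coeff_mk, if_neg]
        rintro ⟨j, hj⟩
        exact pow_ne_zero j (by omega) hj.symm
      · rw [h3, h4 k (by nlinarith), psi, coeff_mk, coeff_mk]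
        refine if_congr ⟨?_, ?_⟩ rfl rfl
        · rintro ⟨j, rfl⟩
          exact ⟨j + 1, by ring⟩
        · rintro ⟨j, hj⟩
          rcases j with _ | j
          · rw [pow_zero] at hj
            exact absurd (Nat.eq_one_of_mul_eq_one_right hj) (by omega)
          · exact ⟨j, Nat.eq_of_mul_eq_mul_left hp.out.pos (by rw [hj]; ring)⟩
    · refine ⟨l + C (coeff N (psi p) - coeff N l) * geo p N, h1.add (isLog_geo hN _), ?_,
        fun n => ?_, fun n hn => ?_⟩
      · rw [map_add, h2, coeff_C_mul]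
        simp [geo]
      · rw [map_add, map_add, h3, coeff_C_mul, coeff_C_mul]
        congr 2
        simp only [geo, coeff_mk]
        refine if_congr (and_congr (by simp [hp.out.pos]) ?_) rfl rfl
        exact (((Nat.Prime.coprime_iff_not_dvd hp.out).mpr hN).symm).dvd_mul_left
      · have hN0 : 0 < N := Nat.pos_of_ne_zero fun h => hN (h ▸ dvd_zero p)
        rw [map_add, coeff_C_mul]
        rcases Nat.lt_succ_iff_lt_or_eq.mp hn with h | rfl
        · have : ¬ (0 < n ∧ N ∣ n) := fun h' => absurd (Nat.le_of_dvd h'.1 h'.2) (by omega)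
          simp [geo, this, h4 n h]
        · simp [geo, hN0]

theorem exists_lam (N : ℕ) : ∃ f : PowerSeries (ZMod p) × PowerSeries (ZMod p),
    f.1 * f.2 = 1 ∧ constantCoeff f.1 = 1 ∧ constantCoeff f.2 = 1 ∧
      X ^ N ∣ th f.1 - psi p * f.1 ∧ X ^ N ∣ th f.2 - (-psi p) * f.2 := by
  obtain ⟨l, ⟨f, h1, h2⟩, -, -, h3⟩ := exists_log (p := p) N
  have h4 : X ^ N ∣ l - psi p := X_pow_dvd_iff.mpr fun n hn => by rw [map_sub, h3 n hn, sub_self]
  have h5 : f * f⁻¹ = 1 := PowerSeries.mul_inv_cancel f (by rw [h1]; exact one_ne_zero)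
  refine ⟨(f, f⁻¹), h5, h1, by simp [h1], ?_, ?_⟩
  · rw [h2, ← sub_mul]
    exact h4.mul_right _
  · have h6 : th f⁻¹ = -l * f⁻¹ := by
      have h7 := th_mul f f⁻¹
      rw [h5, h2] at h7
      have h8 : th (1 : PowerSeries (ZMod p)) = 0 := by simp [th]
      rw [h8] at h7
      linear_combination (-f⁻¹) * h7 - (th f⁻¹ + l * f⁻¹) * h5
    rw [h6, show -l * f⁻¹ - -psi p * f⁻¹ = (l - psi p) * (-f⁻¹) by ring]
    exact h4.mul_right _

end Base

section Scale

variable {p : ℕ} [hp : Fact p.Prime] {B B' : Type} [CommRing B] [CharP B p] [CommRing B']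
  [CharP B' p]

/-- Substitution of `c X` for `X`. -/
noncomputable def sc (p : ℕ) [CharP B p] (c : B) : PowerSeries (ZMod p) →+* PowerSeries B :=
  (rescale c).comp (map (ZMod.castHom (dvd_refl p) B))

theorem coeff_sc (c : B) (f : PowerSeries (ZMod p)) (n : ℕ) :
    coeff n (sc p c f) = c ^ n * ZMod.castHom (dvd_refl p) B (coeff n f) := by
  simp only [sc, RingHom.comp_apply, coeff_rescale, coeff_map]

theorem map_sc (φ : B →+* B') (c : B) (f : PowerSeries (ZMod p)) :
    map φ (sc p c f) = sc p (φ c) f := by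
  ext n
  rw [coeff_map, coeff_sc, coeff_sc, map_mul, map_pow]
  congr 1
  exact congrArg (fun g : ZMod p →+* B' => g (coeff n f))
    (RingHom.ext_zmod (φ.comp (ZMod.castHom (dvd_refl p) B)) (ZMod.castHom (dvd_refl p) B'))

theorem constantCoeff_sc (c : B) {f : PowerSeries (ZMod p)} (h : constantCoeff f = 1) :
    constantCoeff (sc p c f) = 1 := by
  rw [← coeff_zero_eq_constantCoeff_apply, coeff_sc, coeff_zero_eq_constantCoeff_apply, h]
  simp

theorem sc_zero {f : PowerSeries (ZMod p)} (h : constantCoeff f = 1) : sc p (0 : B) f = 1 := by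
  ext n
  rw [coeff_sc, coeff_one]
  split_ifs with hn
  · rw [hn, coeff_zero_eq_constantCoeff_apply, h]; simp
  · rw [zero_pow hn, zero_mul]

theorem sc_X (c : B) : sc p c X = C c * X := by
  ext n
  rw [coeff_sc, coeff_C_mul, coeff_X, coeff_X]
  split_ifs with hn
  · simp [hn]
  · simp

theorem sc_psi_add (c c' : B) : sc p (c + c') (psi p) = sc p c (psi p) + sc p c' (psi p) := by
  ext n
  rw [map_add, coeff_sc, coeff_sc, coeff_sc, psi, coeff_mk]
  split_ifs with h
  · obtain ⟨j, rfl⟩ := h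
    rw [add_pow_char_pow, add_mul]
  · simp

/-- Series with coefficients in a subring. -/
def psSub (T : Subring B) : Subring (PowerSeries B) where
  carrier := {U | ∀ n, coeff n U ∈ T}
  mul_mem' := fun {a b} ha hb n => by
    rw [coeff_mul]
    exact sum_mem fun x _ => mul_mem (ha _) (hb _)
  one_mem' := fun n => by
    rw [coeff_one]
    split_ifs
    · exact one_mem _
    · exact zero_mem _
  add_mem' := fun {a b} ha hb n => by
    rw [map_add]
    exact add_mem (ha n) (hb n)
  zero_mem' := fun n => by simp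
  neg_mem' := fun {a} ha n => by
    rw [map_neg]
    exact neg_mem (ha n)

theorem sc_mem {T : Subring B} {c : B} (hc : c ∈ T) (f : PowerSeries (ZMod p)) :
    sc p c f ∈ psSub T := fun n => by
  rw [coeff_sc]
  obtain ⟨k, hk⟩ := ZMod.natCast_zmod_surjective (coeff n f)
  rw [← hk, map_natCast]
  exact mul_mem (pow_mem hc n) (natCast_mem T k)

/-- A derivation applied to all coefficients. -/
noncomputable def dPS (D : Derivation ℤ B B) (U : PowerSeries B) : PowerSeries B :=
  mk fun n => D (coeff n U)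

variable (D : Derivation ℤ B B)

theorem coeff_dPS (U : PowerSeries B) (n : ℕ) : coeff n (dPS D U) = D (coeff n U) := coeff_mk _ _

theorem dPS_mul (U V : PowerSeries B) : dPS D (U * V) = U * dPS D V + V * dPS D U := by
  ext n
  rw [coeff_dPS, map_add, mul_comm V, coeff_mul, coeff_mul, coeff_mul, map_sum,
    ← Finset.sum_add_distrib]
  refine Finset.sum_congr rfl fun x _ => ?_
  rw [Derivation.leibniz, coeff_dPS, coeff_dPS]
  simp only [smul_eq_mul]
  ring

theorem dPS_C (c : B) : dPS D (C c) = C (D c) := by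
  ext n
  rw [coeff_dPS, coeff_C, coeff_C]
  split_ifs <;> simp

theorem dPS_sc {c w : B} (h : D c = w * c) (f : PowerSeries (ZMod p)) :
    dPS D (sc p c f) = C w * sc p c (th f) := by
  ext n
  rw [coeff_dPS, coeff_C_mul, coeff_sc, coeff_sc, coeff_th,
    map_mul (ZMod.castHom (dvd_refl p) B), map_natCast]
  obtain ⟨k, hk⟩ := ZMod.natCast_zmod_surjective (coeff n f)
  rw [← hk, map_natCast, Derivation.leibniz, Derivation.map_natCast, Derivation.leibniz_pow, h]
  rcases n with _ | n
  · simp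
  · simp only [smul_eq_mul, nsmul_eq_mul, Nat.add_sub_cancel, pow_succ]
    ring

/-- `ρ` is the logarithmic derivative of `U` up to order `N`. -/
def LD (N : ℕ) (U ρ : PowerSeries B) : Prop := X ^ N ∣ dPS D U - ρ * U

variable {D} {N : ℕ}

theorem LD.mul {U V ρ σ : PowerSeries B} (h : LD D N U ρ) (h' : LD D N V σ) :
    LD D N (U * V) (ρ + σ) := by
  rw [LD, dPS_mul, show U * dPS D V + V * dPS D U - (ρ + σ) * (U * V) =
    U * (dPS D V - σ * V) + V * (dPS D U - ρ * U) by ring]
  exact dvd_add (Dvd.dvd.mul_left h' _) (Dvd.dvd.mul_left h _)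

theorem LD.pow {U ρ : PowerSeries B} (h : LD D N U ρ) (k : ℕ) : LD D N (U ^ k) (k * ρ) := by
  induction k with
  | zero =>
    have := dPS_C D 1
    rw [map_one, Derivation.map_one_eq_zero, map_zero] at this
    simp [LD, this]
  | succ k ih =>
    rw [pow_succ, Nat.cast_succ, add_mul, one_mul]
    exact ih.mul h

theorem LD.coeff_eq_zero {U : PowerSeries B} (h : LD D N U 0) {n : ℕ} (hn : n < N) :
    D (coeff n U) = 0 := by
  rw [LD, zero_mul, sub_zero, X_pow_dvd_iff] at h
  exact (coeff_dPS D U n).symm.trans (h n hn)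

theorem ld_sc {c w : B} (h : D c = w * c) {f l : PowerSeries (ZMod p)}
    (hf : X ^ N ∣ th f - l * f) : LD D N (sc p c f) (C w * sc p c l) := by
  rw [LD, dPS_sc D h, mul_assoc, ← mul_sub, ← map_mul, ← map_sub]
  obtain ⟨g, hg⟩ := hf
  rw [hg, map_mul, map_pow, sc_X, mul_pow]
  exact Dvd.dvd.mul_left (Dvd.dvd.mul_right (dvd_mul_left _ _) _) _

end Scale

end Pool.Agent.Work.MP_a77660_ag.Hedge
end

-- merged part: Pool.Agent.Work.MP_a77660_ag.Hedge.Field1
section
/-!
The fields of the example and the derivation.  The characteristic is `m + 2`.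
-/

namespace Pool.Agent.Work.MP_a77660_ag.Hedge

open MvPolynomial

/-- Indices of the generators of `L`. -/
abbrev IL (r : ℕ) : Type := Fin 2 ⊕ Fin (r + 1)
/-- Indices of the homogeneous coordinates. -/
abbrev IA (m : ℕ) : Type := Fin 2 ⊕ Fin m
/-- Indices of the generators of the function field. -/
abbrev IF (m r : ℕ) : Type := Fin 3 ⊕ Fin (r + 1) ⊕ Fin m

/-- Polynomials in the generators of `L`. -/
abbrev P0 (m r : ℕ) : Type := MvPolynomial (IL r) (ZMod (m + 2))
/-- The purely inseparable extension `L` of the base field. -/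
def LL (m r : ℕ) : Type := FractionRing (P0 m r)

variable (m r : ℕ) [hp : Fact (m + 2).Prime]

noncomputable instance : Field (LL m r) := inferInstanceAs (Field (FractionRing (P0 m r)))
noncomputable instance : Algebra (P0 m r) (LL m r) :=
  inferInstanceAs (Algebra (P0 m r) (FractionRing (P0 m r)))
instance : IsFractionRing (P0 m r) (LL m r) :=
  inferInstanceAs (IsFractionRing (P0 m r) (FractionRing (P0 m r)))
instance : CharP (LL m r) (m + 2) := inferInstanceAs (CharP (FractionRing (P0 m r)) (m + 2))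
noncomputable instance : Algebra (ZMod (m + 2)) (LL m r) := ZMod.algebra _ (m + 2)
instance : IsScalarTower (ZMod (m + 2)) (P0 m r) (LL m r) :=
  IsScalarTower.of_algebraMap_eq' (RingHom.ext_zmod _ _)

/-- The polynomial ring over `L`. -/
abbrev AA : Type := MvPolynomial (IA m) (LL m r)
/-- Its fraction field. -/
def EE : Type := FractionRing (AA m r)

noncomputable instance : Field (EE m r) := inferInstanceAs (Field (FractionRing (AA m r)))
noncomputable instance : Algebra (AA m r) (EE m r) :=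
  inferInstanceAs (Algebra (AA m r) (FractionRing (AA m r)))
instance : IsFractionRing (AA m r) (EE m r) :=
  inferInstanceAs (IsFractionRing (AA m r) (FractionRing (AA m r)))
instance : CharP (EE m r) (m + 2) := inferInstanceAs (CharP (FractionRing (AA m r)) (m + 2))
noncomputable instance : Algebra (ZMod (m + 2)) (EE m r) := ZMod.algebra _ (m + 2)
noncomputable instance : Algebra (LL m r) (EE m r) :=
  ((algebraMap (AA m r) (EE m r)).comp (algebraMap (LL m r) (AA m r))).toAlgebra
instance : IsScalarTower (LL m r) (AA m r) (EE m r) := IsScalarTower.of_algebraMap_eq' rfl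
instance : IsScalarTower (ZMod (m + 2)) (LL m r) (EE m r) :=
  IsScalarTower.of_algebraMap_eq' (RingHom.ext_zmod _ _)

/-- The inclusion of `L`. -/
noncomputable abbrev jL : LL m r →+* EE m r := algebraMap (LL m r) (EE m r)
/-- The inclusion of the polynomial ring. -/
noncomputable abbrev jA : AA m r →+* EE m r := algebraMap (AA m r) (EE m r)

/-- The generators of `L`. -/
noncomputable def gL (i : IL r) : LL m r := algebraMap (P0 m r) (LL m r) (X i)
/-- The generators of `L` in the big field. -/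
noncomputable def gE (i : IL r) : EE m r := jL m r (gL m r i)
/-- The homogeneous coordinates in the big field. -/
noncomputable def xv (j : IA m) : EE m r := jA m r (X j)

variable {m r}

theorem jA_inj : Function.Injective (jA m r) := IsFractionRing.injective _ _

theorem jA_X (i : IA m) : jA m r (X i) = xv m r i := rfl

theorem jA_C (l : LL m r) : jA m r (C l) = jL m r l :=
  (IsScalarTower.algebraMap_apply (LL m r) (AA m r) (EE m r) l).symm

theorem xv_ne_zero (j : IA m) : xv m r j ≠ 0 := by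
  rw [xv, map_ne_zero_iff _ jA_inj]
  exact X_ne_zero j

theorem xv_inj {i j : IA m} (h : xv m r i = xv m r j) : i = j := X_injective (jA_inj h)

theorem gL_ne_zero (i : IL r) : gL m r i ≠ 0 := by
  rw [gL, map_ne_zero_iff _ (IsFractionRing.injective (P0 m r) (LL m r))]
  exact X_ne_zero i

theorem gE_ne_zero (i : IL r) : gE m r i ≠ 0 := by
  rw [gE, map_ne_zero]
  exact gL_ne_zero i

theorem algInd_gens : AlgebraicIndependent (ZMod (m + 2)) (Sum.elim (xv m r) (gE m r)) := by
  have h1 : AlgebraicIndependent (ZMod (m + 2)) (gL m r) :=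
    (algebraicIndependent_X (IL r) (ZMod (m + 2))).map'
      (f := IsScalarTower.toAlgHom (ZMod (m + 2)) (P0 m r) (LL m r)) (IsFractionRing.injective _ _)
  have h2 : AlgebraicIndependent (LL m r) (xv m r) :=
    (algebraicIndependent_X (IA m) (LL m r)).map'
      (f := IsScalarTower.toAlgHom (LL m r) (AA m r) (EE m r)) (IsFractionRing.injective _ _)
  exact h1.sumElim_comp h2

theorem poly_mem_of_subring {S : Type} [CommRing S] (φ : P0 m r →+* S) (T : Subring S)
    (h : ∀ i, φ (X i) ∈ T) (q : P0 m r) : φ q ∈ T := by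
  induction q using MvPolynomial.induction_on with
  | C c =>
    obtain ⟨k, rfl⟩ := ZMod.natCast_zmod_surjective c
    rw [map_natCast, map_natCast]
    exact natCast_mem T k
  | add p q hp hq => rw [map_add]; exact add_mem hp hq
  | mul_X p i hp => rw [map_mul]; exact mul_mem hp (h i)

theorem mem_of_subfield_LL {S : Type} [Field S] (φ : LL m r →+* S) (T : Subfield S)
    (h : ∀ i, φ (gL m r i) ∈ T) (l : LL m r) : φ l ∈ T := by
  obtain ⟨p, q, -, rfl⟩ := IsFractionRing.div_surjective (A := P0 m r) l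
  rw [map_div₀]
  exact div_mem (poly_mem_of_subring (φ.comp (algebraMap _ _)) T.toSubring h p)
    (poly_mem_of_subring (φ.comp (algebraMap _ _)) T.toSubring h q)

theorem mem_of_subfield_EE (T : Subfield (EE m r)) (h : ∀ i, gE m r i ∈ T)
    (h' : ∀ j, xv m r j ∈ T) (g : EE m r) : g ∈ T := by
  have h1 : ∀ a : AA m r, jA m r a ∈ T := by
    intro a
    induction a using MvPolynomial.induction_on with
    | C l =>
      rw [jA_C]
      exact mem_of_subfield_LL _ T h l
    | add p q hp hq => rw [map_add]; exact add_mem hp hq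
    | mul_X p i hp => rw [map_mul]; exact mul_mem hp (h' i)
  obtain ⟨p, q, -, rfl⟩ := IsFractionRing.div_surjective (A := AA m r) g
  exact div_mem (h1 p) (h1 q)

theorem exists_der (vX : IA m → EE m r) (vG : IL r → EE m r) :
    ∃ D : Derivation ℤ (EE m r) (EE m r),
      (∀ j, D (xv m r j) = vX j) ∧ ∀ i, D (gE m r i) = vG i := by
  obtain ⟨D, hD⟩ := exists_derivation_p _ (algInd_gens (m := m) (r := r)) (by
    rw [eq_top_iff]
    intro g _
    exact mem_of_subfield_EE _
      (fun i => Subfield.subset_closure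
        (Set.mem_range_self (f := Sum.elim (xv m r) (gE m r)) (.inr i)))
      (fun j => Subfield.subset_closure
        (Set.mem_range_self (f := Sum.elim (xv m r) (gE m r)) (.inl j)))
      g) (Sum.elim vX vG)
  exact ⟨D, fun j => hD (Sum.inl j), fun i => hD (Sum.inr i)⟩

variable (m r)

/-- The first two coordinates. -/
noncomputable abbrev xx (i : Fin 2) : EE m r := xv m r (.inl i)
/-- The other coordinates. -/
noncomputable abbrev zz (j : Fin m) : EE m r := xv m r (.inr j)
/-- The first two generators of `L`. -/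
noncomputable abbrev gg (i : Fin 2) : EE m r := gE m r (.inl i)

/-- The generating series of the other generators of `L`. -/
noncomputable def alT : PowerSeries (EE m r) :=
  PowerSeries.mk fun n => if h : n < r + 1 then gE m r (.inr ⟨n, h⟩) else 0

/-- The additive series. -/
noncomputable def Psi (c : EE m r) : PowerSeries (EE m r) := sc (m + 2) c (psi (m + 2))

/-- The multiplier. -/
noncomputable def rhoT : PowerSeries (EE m r) :=
  PowerSeries.C (gg m r 0)⁻¹ * Psi m r (gg m r 0 * gg m r 1)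

/-- The derivation defining the foliation. -/
noncomputable def DD : Derivation ℤ (EE m r) (EE m r) :=
  (exists_der (Sum.elim 0 fun j => zz m r j ^ 2) (Sum.elim (xx m r)
    fun i => xx m r 0 * PowerSeries.coeff i (rhoT m r * alT m r))).choose

variable {m r}

theorem coeff_alT (i : Fin (r + 1)) : PowerSeries.coeff i (alT m r) = gE m r (.inr i) := by
  rw [alT, PowerSeries.coeff_mk, dif_pos i.2]

theorem alT_mem {T : Subring (EE m r)} (h : ∀ i, gE m r (.inr i) ∈ T) : alT m r ∈ psSub T := by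
  intro n
  rw [alT, PowerSeries.coeff_mk]
  split_ifs
  · exact h _
  · exact zero_mem _

theorem DD_xx (i : Fin 2) : DD m r (xx m r i) = 0 := (exists_der _ _).choose_spec.1 (.inl i)

theorem DD_zz (j : Fin m) : DD m r (zz m r j) = zz m r j ^ 2 :=
  (exists_der _ _).choose_spec.1 (.inr j)

theorem DD_gg (i : Fin 2) : DD m r (gg m r i) = xx m r i := (exists_der _ _).choose_spec.2 (.inl i)

theorem DD_al (i : Fin (r + 1)) :
    DD m r (gE m r (.inr i)) = xx m r 0 * PowerSeries.coeff i (rhoT m r * alT m r) :=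
  (exists_der _ _).choose_spec.2 (.inr i)

theorem ld_alT : LD (DD m r) (r + 1) (alT m r) (PowerSeries.C (xx m r 0) * rhoT m r) := by
  refine PowerSeries.X_pow_dvd_iff.mpr fun n hn => ?_
  rw [map_sub, coeff_dPS, mul_assoc, PowerSeries.coeff_C_mul]
  have := coeff_alT (m := m) ⟨n, hn⟩
  rw [show PowerSeries.coeff n (alT m r) = _ from this, DD_al, sub_self]

theorem DD_div_xx (i j : Fin 2) : DD m r (xx m r i / xx m r j) = 0 := by
  rw [Derivation.leibniz_div, DD_xx, DD_xx]
  simp

theorem DD_div_zz (i : Fin 2) (j : Fin m) : DD m r (xx m r i / zz m r j) = -xx m r i := by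
  have := xv_ne_zero (r := r) (.inr j : IA m)
  rw [Derivation.leibniz_div, DD_xx, DD_zz]
  simp only [smul_eq_mul]
  field_simp
  ring

/-- The two derivations of `L`. -/
theorem exists_ab : ∃ a b : Derivation ℤ (EE m r) (EE m r),
    (∀ l, DD m r (jL m r l) = 0 → a (jL m r l) = 0 ∧ b (jL m r l) = 0) ∧
    ∀ n < r + 1, b (a (PowerSeries.coeff n (alT m r))) =
      PowerSeries.coeff n (PowerSeries.X * alT m r) := by
  obtain ⟨a, -, ha⟩ := exists_der (m := m) (r := r) 0
    (Sum.elim ![1, 0] fun i => PowerSeries.coeff i (rhoT m r * alT m r))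
  obtain ⟨b, -, hb⟩ := exists_der (m := m) (r := r) 0 (Sum.elim ![0, 1] 0)
  have hb0 : b (gg m r 0) = 0 := hb _
  have hb1 : b (gg m r 1) = 1 := hb _
  have h0 := gE_ne_zero (m := m) (r := r) (.inl 0)
  have h1 := gE_ne_zero (m := m) (r := r) (.inl 1)
  refine ⟨a, b, fun l hl => ?_, fun n hn => ?_⟩
  · have hL : ∀ D : Derivation ℤ (EE m r) (EE m r), (∀ i, D (gE m r i) ∈ (jL m r).fieldRange) →
        ∀ l, D (jL m r l) ∈ (jL m r).fieldRange := by
      intro D hD l
      have hJ : ∀ x, jL m r x ∈ (jL m r).fieldRange := fun x => ⟨x, rfl⟩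
      let T : Subfield (LL m r) :=
        { carrier := {l | D (jL m r l) ∈ (jL m r).fieldRange}
          mul_mem' := fun {x y} hx hy => by
            change D (jL m r _) ∈ (jL m r).fieldRange
            rw [map_mul, Derivation.leibniz]
            exact add_mem (mul_mem (hJ x) hy) (mul_mem (hJ y) hx)
          one_mem' := by change D (jL m r _) ∈ (jL m r).fieldRange; simp
          add_mem' := fun {x y} hx hy => by
            change D (jL m r _) ∈ (jL m r).fieldRange
            rw [map_add, map_add]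
            exact add_mem hx hy
          zero_mem' := by change D (jL m r _) ∈ (jL m r).fieldRange; simp
          neg_mem' := fun {x} hx => by
            change D (jL m r _) ∈ (jL m r).fieldRange
            rw [map_neg, map_neg]
            exact neg_mem hx
          inv_mem' := fun x hx => by
            change D (jL m r _) ∈ (jL m r).fieldRange
            rw [map_inv₀, Derivation.leibniz_inv]
            exact mul_mem (neg_mem (pow_mem (inv_mem (hJ x)) 2)) hx }
      exact mem_of_subfield_LL (RingHom.id _) T hD l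
    have hG : ∀ i, gE m r i ∈ (jL m r).fieldRange := fun i => ⟨_, rfl⟩
    obtain ⟨u, hu⟩ := hL a (by
      rintro (i | i)
      · fin_cases i
        · rw [ha]; exact one_mem _
        · rw [ha]; exact zero_mem _
      · rw [ha]
        refine (mul_mem (mul_mem (fun n => ?_) (sc_mem (mul_mem (hG _) (hG _)) _))
          (alT_mem (T := (jL m r).fieldRange.toSubring) fun i => hG _)) i
        rw [PowerSeries.coeff_C]
        split_ifs
        · exact (jL m r).fieldRange.inv_mem (hG _)
        · exact zero_mem _) l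
    obtain ⟨w, hw⟩ := hL b (by
      rintro (i | i)
      · fin_cases i
        · rw [hb]; exact zero_mem _
        · rw [hb]; exact one_mem _
      · rw [hb]; exact zero_mem _) l
    have h2 : (DD m r - (xx m r 0 • a + xx m r 1 • b)) (jL m r l) ∈
        (⊥ : Submodule (EE m r) (EE m r)) := by
      refine mem_of_subfield_LL (jL m r) (kerD _ ⊥) (fun i => ?_) l
      change (DD m r - (xx m r 0 • a + xx m r 1 • b)) (gE m r i) = 0
      rcases i with i | i
      · fin_cases i <;> simp [ha, hb, DD_gg]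
      · simp [ha, hb, DD_al]
    simp only [Submodule.mem_bot, Derivation.sub_apply, Derivation.add_apply,
      Derivation.smul_apply, hl, ← hu, ← hw, smul_eq_mul, zero_sub, neg_eq_zero] at h2
    have h3 : (X (.inl 0) * C u + X (.inl 1) * C w : AA m r) = 0 :=
      jA_inj (by rw [map_add, map_mul, map_mul, jA_C, jA_C, map_zero]; exact h2)
    have h4 := congrArg (eval (Sum.elim ![1, 0] 0)) h3
    have h5 := congrArg (eval (Sum.elim ![0, 1] 0)) h3
    simp only [map_add, map_mul, eval_X, eval_C, map_zero] at h4 h5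
    rw [← hu, ← hw, show u = 0 by simpa using h4, show w = 0 by simpa using h5]
    simp
  · have h2 : dPS b (alT m r) = 0 := by
      ext k
      rw [coeff_dPS, alT, PowerSeries.coeff_mk]
      split_ifs
      · rw [hb]; rfl
      · simp
    have h3 : b (gg m r 0 * gg m r 1) = (gg m r 1)⁻¹ * (gg m r 0 * gg m r 1) := by
      rw [Derivation.leibniz, hb0, hb1]
      simp only [smul_eq_mul]
      field_simp
      ring
    have h4 : dPS b (rhoT m r) = PowerSeries.X := by
      rw [rhoT, dPS_mul, dPS_C, Psi, dPS_sc b h3, th_psi, sc_X, Derivation.leibniz_inv, hb0,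
        smul_zero, map_zero, mul_zero, add_zero, ← mul_assoc, ← mul_assoc, ← map_mul, ← map_mul]
      have : (gg m r 0)⁻¹ * (gg m r 1)⁻¹ * (gg m r 0 * gg m r 1) = 1 := by field_simp
      rw [this, map_one, one_mul]
    rw [show PowerSeries.coeff n (alT m r) = _ from coeff_alT (m := m) ⟨n, hn⟩, ha]
    change b (PowerSeries.coeff n (rhoT m r * alT m r)) = _
    rw [← coeff_dPS, dPS_mul, h2, h4, mul_zero, zero_add, mul_comm]

theorem linInd_aux (n : ℕ) (hn : n ≤ r + 1) : ∀ κ : ℕ → LL m r,
    (∀ i, DD m r (jL m r (κ i)) = 0) →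
    ∑ i ∈ Finset.range n, jL m r (κ i) * PowerSeries.coeff i (alT m r) = 0 →
      ∀ i < n, κ i = 0 := by
  obtain ⟨a, b, h1, h2⟩ := exists_ab (m := m) (r := r)
  induction n with
  | zero => exact fun _ _ _ i hi => absurd hi (Nat.not_lt_zero i)
  | succ n ih =>
    intro κ hκ h
    have h3 := congrArg (fun f => b (a f)) h
    simp only [map_sum, map_zero] at h3
    rw [Finset.sum_congr rfl (g := fun i =>
      jL m r (κ i) * PowerSeries.coeff i (PowerSeries.X * alT m r)) fun i hi => by
        rw [Derivation.leibniz, (h1 _ (hκ i)).1, smul_zero, add_zero, smul_eq_mul,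
          Derivation.leibniz, (h1 _ (hκ i)).2, smul_zero, add_zero, smul_eq_mul,
          h2 i (by have := Finset.mem_range.mp hi; omega)], Finset.sum_range_succ'] at h3
    simp only [PowerSeries.coeff_succ_X_mul, PowerSeries.coeff_zero_X_mul, mul_zero,
      add_zero] at h3
    have h4 := ih (by omega) (fun i => κ (i + 1)) (fun i => hκ _) h3
    rw [Finset.sum_range_succ', Finset.sum_eq_zero (fun i hi => by
      rw [h4 i (Finset.mem_range.mp hi), map_zero, zero_mul]), zero_add,
      show PowerSeries.coeff 0 (alT m r) = _ from coeff_alT (m := m) 0] at h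
    intro i hi
    rcases i with _ | i
    · simpa using (mul_eq_zero.mp h).resolve_right (gE_ne_zero _)
    · exact h4 i (by omega)

end Pool.Agent.Work.MP_a77660_ag.Hedge
end

-- merged part: Pool.Agent.Work.MP_a77660_ag.Hedge.Field2
section
/-!
The invariants of the derivation, and the function field of the quotient.
-/

namespace Pool.Agent.Work.MP_a77660_ag.Hedge

open PowerSeries

variable (m r : ℕ) [hp : Fact (m + 2).Prime]

/-- The series with additive logarithmic derivative, and its inverse. -/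
noncomputable def lam : PowerSeries (ZMod (m + 2)) × PowerSeries (ZMod (m + 2)) :=
  (exists_lam (p := m + 2) (r + 1)).choose

/-- The inverse of two. -/
def hh (m : ℕ) : ℕ := (m + 3) / 2

section Ring

variable {B B' : Type} [CommRing B] [CharP B (m + 2)] [CommRing B'] [CharP B' (m + 2)]

/-- The rescaled series. -/
noncomputable def La (c : B) : PowerSeries B := sc (m + 2) c (lam m r).1
/-- The rescaled inverse series. -/
noncomputable def Lb (c : B) : PowerSeries B := sc (m + 2) c (lam m r).2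

/-- The correction factor in the first chart. -/
noncomputable def U0 (γ β s : B) : PowerSeries B :=
  Lb m r (γ * (β - s * γ)) * Lb m r (s * γ ^ 2) ^ hh m
/-- Its inverse. -/
noncomputable def U0' (γ β s : B) : PowerSeries B :=
  La m r (γ * (β - s * γ)) * La m r (s * γ ^ 2) ^ hh m
/-- The correction factor in the second chart. -/
noncomputable def U1 (γ β t : B) : PowerSeries B :=
  Lb m r (γ * β) * La m r ((γ - t * β) * β) * La m r (t * β ^ 2) ^ hh m
/-- The correction factor in the other charts. -/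
noncomputable def U2 (γ β u v : B) : PowerSeries B :=
  La m r ((γ + u) * (β + v)) * Lb m r (γ * (β + v)) * La m r (γ * v) * Lb m r ((γ + u) * v) *
    La m r (u * v) ^ hh m

variable {m r}

theorem La_mul_Lb (c : B) : La m r c * Lb m r c = 1 := by
  rw [La, Lb, ← map_mul, lam, (exists_lam (p := m + 2) (r + 1)).choose_spec.1, map_one]

theorem cc_La (c : B) : constantCoeff (La m r c) = 1 :=
  constantCoeff_sc c (exists_lam (p := m + 2) (r + 1)).choose_spec.2.1

theorem cc_Lb (c : B) : constantCoeff (Lb m r c) = 1 :=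
  constantCoeff_sc c (exists_lam (p := m + 2) (r + 1)).choose_spec.2.2.1

theorem La_zero : La m r (0 : B) = 1 := sc_zero (exists_lam (p := m + 2) (r + 1)).choose_spec.2.1

theorem map_La (φ : B →+* B') (c : B) : map φ (La m r c) = La m r (φ c) := map_sc _ _ _

theorem map_Lb (φ : B →+* B') (c : B) : map φ (Lb m r c) = Lb m r (φ c) := map_sc _ _ _

theorem La_mem {T : Subring B} {c : B} (h : c ∈ T) : La m r c ∈ psSub T := sc_mem h _

theorem Lb_mem {T : Subring B} {c : B} (h : c ∈ T) : Lb m r c ∈ psSub T := sc_mem h _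

theorem U0_mul (γ β s : B) : U0' m r γ β s * U0 m r γ β s = 1 := by
  rw [U0, U0', mul_mul_mul_comm, ← mul_pow, La_mul_Lb, La_mul_Lb, one_pow, one_mul]

theorem U1_zero (γ β : B) : U1 m r γ β 0 = 1 := by
  rw [U1, zero_mul, zero_mul, sub_zero, La_zero, one_pow, mul_one, mul_comm, La_mul_Lb]

theorem U2_zero (γ β v : B) : U2 m r γ β 0 v = 1 := by
  rw [U2, add_zero, zero_mul, La_zero, one_pow, mul_one, La_mul_Lb, one_mul, La_mul_Lb]

theorem map_U1 (φ : B →+* B') (γ β t : B) :
    map φ (U1 m r γ β t) = U1 m r (φ γ) (φ β) (φ t) := by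
  simp only [U1, map_mul, map_pow, map_La, map_Lb, map_sub]

theorem map_U2 (φ : B →+* B') (γ β u v : B) :
    map φ (U2 m r γ β u v) = U2 m r (φ γ) (φ β) (φ u) (φ v) := by
  simp only [U2, map_mul, map_pow, map_La, map_Lb, map_add]

variable {T : Subring B} {γ β s u v : B}

theorem U0_mem (h1 : γ ∈ T) (h2 : β ∈ T) (h3 : s ∈ T) : U0 m r γ β s ∈ psSub T :=
  mul_mem (Lb_mem (mul_mem h1 (sub_mem h2 (mul_mem h3 h1))))
    (pow_mem (Lb_mem (mul_mem h3 (pow_mem h1 2))) _)

theorem U0'_mem (h1 : γ ∈ T) (h2 : β ∈ T) (h3 : s ∈ T) : U0' m r γ β s ∈ psSub T :=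
  mul_mem (La_mem (mul_mem h1 (sub_mem h2 (mul_mem h3 h1))))
    (pow_mem (La_mem (mul_mem h3 (pow_mem h1 2))) _)

theorem U1_mem (h1 : γ ∈ T) (h2 : β ∈ T) (h3 : s ∈ T) : U1 m r γ β s ∈ psSub T :=
  mul_mem (mul_mem (Lb_mem (mul_mem h1 h2)) (La_mem (mul_mem (sub_mem h1 (mul_mem h3 h2)) h2)))
    (pow_mem (La_mem (mul_mem h3 (pow_mem h2 2))) _)

theorem U2_mem (h1 : γ ∈ T) (h2 : β ∈ T) (h3 : u ∈ T) (h4 : v ∈ T) :
    U2 m r γ β u v ∈ psSub T :=
  mul_mem (mul_mem (mul_mem (mul_mem (La_mem (mul_mem (add_mem h1 h3) (add_mem h2 h4)))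
    (Lb_mem (mul_mem h1 (add_mem h2 h4)))) (La_mem (mul_mem h1 h4)))
    (Lb_mem (mul_mem (add_mem h1 h3) h4))) (pow_mem (La_mem (mul_mem h3 h4)) _)

end Ring

variable {m r}

theorem Psi_add (c c' : EE m r) : Psi m r (c + c') = Psi m r c + Psi m r c' := sc_psi_add c c'

theorem ld_La {c w : EE m r} (h : DD m r c = w * c) :
    LD (DD m r) (r + 1) (La m r c) (C w * Psi m r c) :=
  ld_sc h (exists_lam (p := m + 2) (r + 1)).choose_spec.2.2.2.1

theorem ld_Lb {c w : EE m r} (h : DD m r c = w * c) :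
    LD (DD m r) (r + 1) (Lb m r c) (-(C w * Psi m r c)) := by
  have := ld_sc h (exists_lam (p := m + 2) (r + 1)).choose_spec.2.2.2.2
  rwa [map_neg, mul_neg] at this

section Odd

variable [hm : NeZero m]

theorem hh_two : ((hh m : ℕ) : PowerSeries (EE m r)) * C 2 = 1 := by
  have h1 : Odd (m + 2) := hp.out.odd_of_ne_two (by have := hm.out; omega)
  have h2 : hh m * 2 = (m + 2) + 1 := by
    obtain ⟨k, hk⟩ := h1
    unfold hh
    omega
  rw [← map_natCast (C : EE m r →+* PowerSeries (EE m r)), ← map_mul,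
    show ((hh m : ℕ) : EE m r) * 2 = ((hh m * 2 : ℕ) : EE m r) by push_cast; rfl, h2,
    Nat.cast_succ, CharP.cast_eq_zero, zero_add, map_one]

theorem ld_La_half {c w : EE m r} (h : DD m r c = 2 * w * c) :
    LD (DD m r) (r + 1) (La m r c ^ hh m) (C w * Psi m r c) := by
  have := (ld_La h).pow (hh m)
  rwa [map_mul, mul_assoc, ← mul_assoc, hh_two, one_mul] at this

theorem ld_Lb_half {c w : EE m r} (h : DD m r c = 2 * w * c) :
    LD (DD m r) (r + 1) (Lb m r c ^ hh m) (-(C w * Psi m r c)) := by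
  have := (ld_Lb h).pow (hh m)
  rwa [map_mul, mul_neg, mul_assoc, ← mul_assoc, hh_two, one_mul] at this

omit hm in
theorem x_rho : C (xx m r 0) * rhoT m r =
    C (xx m r 0 / gg m r 0) * Psi m r (gg m r 0 * gg m r 1) := by
  rw [rhoT, ← mul_assoc, ← map_mul, div_eq_mul_inv]

omit hm in
theorem DD_b (i j : Fin 2) : DD m r (gg m r j - xx m r j / xx m r i * gg m r i) = 0 := by
  have := xv_ne_zero (r := r) (.inl i : IA m)
  rw [map_sub, Derivation.leibniz, DD_div_xx, DD_gg, DD_gg]
  simp only [smul_eq_mul]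
  field_simp
  ring

omit hm in
theorem DD_e (i : Fin 2) (j : Fin m) : DD m r (gg m r i + xx m r i / zz m r j) = 0 := by
  rw [map_add, DD_div_zz, DD_gg, add_neg_cancel]

omit hm in
theorem DD_lin (i j : Fin 2) : DD m r (gg m r i * (gg m r j - xx m r j / xx m r i * gg m r i)) =
    xx m r i / gg m r i * (gg m r i * (gg m r j - xx m r j / xx m r i * gg m r i)) := by
  have := gE_ne_zero (m := m) (r := r) (.inl i)
  rw [Derivation.leibniz, DD_b, DD_gg]
  simp only [smul_eq_mul]
  field_simp
  ring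

omit hm in
theorem DD_sq (i j : Fin 2) : DD m r (xx m r j / xx m r i * gg m r i ^ 2) =
    2 * (xx m r i / gg m r i) * (xx m r j / xx m r i * gg m r i ^ 2) := by
  have := gE_ne_zero (m := m) (r := r) (.inl i)
  rw [Derivation.leibniz, DD_div_xx, Derivation.leibniz_pow, DD_gg]
  simp only [smul_eq_mul, nsmul_eq_mul]
  field_simp
  push_cast
  ring

theorem ld_U0 : LD (DD m r) (r + 1) (U0 m r (gg m r 0) (gg m r 1) (xx m r 1 / xx m r 0))
    (-(C (xx m r 0) * rhoT m r)) := by
  have h := (ld_Lb (DD_lin (m := m) (r := r) 0 1)).mul (ld_Lb_half (DD_sq 0 1))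
  rw [← neg_add, ← mul_add, ← Psi_add] at h
  rw [x_rho, U0]
  convert h using 4
  ring

theorem ld_U0' : LD (DD m r) (r + 1) (U0' m r (gg m r 0) (gg m r 1) (xx m r 1 / xx m r 0))
    (C (xx m r 0) * rhoT m r) := by
  have h := (ld_La (DD_lin (m := m) (r := r) 0 1)).mul (ld_La_half (DD_sq 0 1))
  rw [← mul_add, ← Psi_add] at h
  rw [x_rho, U0']
  convert h using 3
  ring

theorem ld_U1 : LD (DD m r) (r + 1) (U1 m r (gg m r 0) (gg m r 1) (xx m r 0 / xx m r 1))
    (-(C (xx m r 0) * rhoT m r)) := by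
  have h0 := gE_ne_zero (m := m) (r := r) (.inl 0)
  have h1 := gE_ne_zero (m := m) (r := r) (.inl 1)
  have h2 : DD m r (gg m r 0 * gg m r 1) =
      (xx m r 0 / gg m r 0 + xx m r 1 / gg m r 1) * (gg m r 0 * gg m r 1) := by
    rw [Derivation.leibniz, DD_gg, DD_gg]
    simp only [smul_eq_mul]
    field_simp
    ring
  have h3 := DD_lin (m := m) (r := r) 1 0
  rw [mul_comm (gg m r 1)] at h3
  have h := ((ld_Lb h2).mul (ld_La h3)).mul (ld_La_half (DD_sq 1 0))
  have h4 : Psi m r (gg m r 0 * gg m r 1) =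
      Psi m r ((gg m r 0 - xx m r 0 / xx m r 1 * gg m r 1) * gg m r 1) +
        Psi m r (xx m r 0 / xx m r 1 * gg m r 1 ^ 2) := by
    rw [← Psi_add]
    congr 1
    ring
  rw [x_rho, U1]
  convert h using 1
  rw [h4, map_add]
  ring

theorem ld_U2 (j : Fin m) : LD (DD m r) (r + 1)
    (U2 m r (gg m r 0) (gg m r 1) (xx m r 0 / zz m r j) (xx m r 1 / zz m r j))
    (-(C (xx m r 0) * rhoT m r)) := by
  have h0 := gE_ne_zero (m := m) (r := r) (.inl 0)
  have hz := xv_ne_zero (r := r) (.inr j : IA m)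
  have e0 := DD_e (r := r) 0 j
  have e1 := DD_e (r := r) 1 j
  have d0 := DD_div_zz (r := r) 0 j
  have d1 := DD_div_zz (r := r) 1 j
  have g0 := DD_gg (m := m) (r := r) 0
  have hu : xx m r 0 = zz m r j * (xx m r 0 / zz m r j) := by field_simp
  have hv : xx m r 1 = zz m r j * (xx m r 1 / zz m r j) := by field_simp
  rw [x_rho]
  generalize xx m r 0 / zz m r j = u at *
  generalize xx m r 1 / zz m r j = v at *
  have k1 : DD m r ((gg m r 0 + u) * (gg m r 1 + v)) = 0 * ((gg m r 0 + u) * (gg m r 1 + v)) := by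
    rw [Derivation.leibniz, e0, e1]; simp
  have k2 : DD m r (gg m r 0 * (gg m r 1 + v)) =
      xx m r 0 / gg m r 0 * (gg m r 0 * (gg m r 1 + v)) := by
    rw [Derivation.leibniz, e1, g0]
    simp only [smul_eq_mul]
    field_simp
    ring
  have k3 : DD m r (gg m r 0 * v) = (xx m r 0 / gg m r 0 - zz m r j) * (gg m r 0 * v) := by
    rw [Derivation.leibniz, d1, g0, hv]
    simp only [smul_eq_mul]
    field_simp
    ring
  have k4 : DD m r ((gg m r 0 + u) * v) = -zz m r j * ((gg m r 0 + u) * v) := by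
    rw [Derivation.leibniz, d1, e0, hv]
    simp only [smul_eq_mul]
    ring
  have k5 : DD m r (u * v) = 2 * -zz m r j * (u * v) := by
    rw [Derivation.leibniz, d1, d0, hv, hu]
    simp only [smul_eq_mul]
    ring
  have h := ((((ld_La k1).mul (ld_Lb k2)).mul (ld_La k3)).mul (ld_Lb k4)).mul (ld_La_half k5)
  rw [U2]
  convert h using 1
  rw [mul_add (gg m r 0), add_mul (gg m r 0) u v, Psi_add, Psi_add, map_sub, map_neg, map_zero]
  ring

end Odd

variable (m r) in
/-- A coordinate system on the function field. -/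
structure Chart where
  i0 : Fin 2
  i1 : Fin 2
  hi : (i0 = 0 ∧ i1 = 1) ∨ (i0 = 1 ∧ i1 = 0)
  U : PowerSeries (EE m r)
  hU0 : constantCoeff U = 1
  hUmem : ∀ T : Subring (EE m r), (∀ i, gg m r i ∈ T) → xx m r i1 / xx m r i0 ∈ T → U ∈ psSub T
  hUD : LD (DD m r) (r + 1) U (-(C (xx m r 0) * rhoT m r))

namespace Chart

variable (ch : Chart m r)

/-- The coordinates. -/
noncomputable def tE : IF m r → EE m r :=
  Sum.elim ![gg m r ch.i0 ^ (m + 2), xx m r ch.i1 / xx m r ch.i0,
      gg m r ch.i1 - xx m r ch.i1 / xx m r ch.i0 * gg m r ch.i0]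
    (Sum.elim (fun i => coeff i (ch.U * alT m r)) fun j => gg m r ch.i0 + xx m r ch.i0 / zz m r j)

theorem tE_0 : ch.tE (.inl 0) = gg m r ch.i0 ^ (m + 2) := rfl
theorem tE_1 : ch.tE (.inl 1) = xx m r ch.i1 / xx m r ch.i0 := rfl
theorem tE_2 : ch.tE (.inl 2) = gg m r ch.i1 - xx m r ch.i1 / xx m r ch.i0 * gg m r ch.i0 := rfl
theorem tE_a (i : Fin (r + 1)) : ch.tE (.inr (.inl i)) = coeff i (ch.U * alT m r) := rfl
theorem tE_e (j : Fin m) : ch.tE (.inr (.inr j)) = gg m r ch.i0 + xx m r ch.i0 / zz m r j := rfl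

theorem DD_tE (l : IF m r) : DD m r (ch.tE l) = 0 := by
  rcases l with l | l | l
  · fin_cases l
    · exact der_pow_char (m + 2) _ _
    · exact DD_div_xx _ _
    · exact DD_b _ _
  · have := ch.hUD.mul ld_alT
    rw [neg_add_cancel] at this
    exact this.coeff_eq_zero l.2
  · exact DD_e _ _

theorem i_ne : ch.i1 ≠ ch.i0 := by
  rcases ch.hi with ⟨h, h'⟩ | ⟨h, h'⟩ <;> rw [h, h'] <;> decide

theorem cases_i (i : Fin 2) : i = ch.i0 ∨ i = ch.i1 := by
  rcases ch.hi with ⟨h, h'⟩ | ⟨h, h'⟩ <;> rw [h, h'] <;> fin_cases i <;> decide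

/-- The generators of `L` in terms of the coordinates. -/
theorem gE_mem (T : Subring (EE m r)) (h0 : gg m r ch.i0 ∈ T) (h1 : ch.tE (.inl 1) ∈ T)
    (h2 : ch.tE (.inl 2) ∈ T) (h3 : ∀ i, ch.tE (.inr (.inl i)) ∈ T) (i : IL r) : gE m r i ∈ T := by
  have hg : ∀ i, gg m r i ∈ T := fun i => by
    rcases ch.cases_i i with rfl | rfl
    · exact h0
    · have := add_mem h2 (mul_mem h1 h0)
      rwa [tE_2, tE_1, sub_add_cancel] at this
  rcases i with i | i
  · exact hg i
  have hU := ch.hUmem T hg h1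
  have key : ∀ n < r + 1, coeff n (alT m r) ∈ T := by
    intro n
    induction n using Nat.strong_induction_on with
    | _ n ih =>
      intro hn
      have h4 := h3 ⟨n, hn⟩
      rw [tE_a, coeff_mul, Finset.Nat.sum_antidiagonal_eq_sum_range_succ_mk,
        Finset.sum_range_succ'] at h4
      simp only [coeff_zero_eq_constantCoeff, ch.hU0, one_mul, Nat.sub_zero] at h4
      have h5 : ∑ k ∈ Finset.range n, coeff (k + 1) ch.U * coeff (n - (k + 1)) (alT m r) ∈ T :=
        sum_mem fun k hk => mul_mem (hU _)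
          (ih _ (by have := Finset.mem_range.mp hk; omega) (by omega))
      simpa using sub_mem h4 h5
  exact coeff_alT (m := m) i ▸ key i i.2

theorem tE_mem (T : Subring (EE m r)) (hg : ∀ i, gE m r i ∈ T)
    (h1 : xx m r ch.i1 / xx m r ch.i0 ∈ T) (l : IF m r)
    (h2 : ∀ j, l = .inr (.inr j) → xx m r ch.i0 / zz m r j ∈ T) : ch.tE l ∈ T := by
  rcases l with l | l | l
  · fin_cases l
    · exact pow_mem (hg _) _
    · exact h1
    · exact sub_mem (hg _) (mul_mem h1 (hg _))
  · exact mul_mem (ch.hUmem T (fun i => hg _) h1) (alT_mem fun i => hg _) l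
  · exact add_mem (hg _) (h2 l rfl)

end Chart

variable (m r) [hm : NeZero m]

/-- The first coordinate system. -/
noncomputable def chart0 : Chart m r where
  i0 := 0
  i1 := 1
  hi := Or.inl ⟨rfl, rfl⟩
  U := U0 m r (gg m r 0) (gg m r 1) (xx m r 1 / xx m r 0)
  hU0 := by simp [U0, cc_Lb]
  hUmem := fun _ h h' => U0_mem (h 0) (h 1) h'
  hUD := ld_U0

/-- The second coordinate system. -/
noncomputable def chart1 : Chart m r where
  i0 := 1
  i1 := 0
  hi := Or.inr ⟨rfl, rfl⟩
  U := U1 m r (gg m r 0) (gg m r 1) (xx m r 0 / xx m r 1)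
  hU0 := by simp [U1, cc_Lb, cc_La]
  hUmem := fun _ h h' => U1_mem (h 0) (h 1) h'
  hUD := ld_U1

/-- The function field of the quotient. -/
noncomputable def FF : Subfield (EE m r) := Subfield.closure (Set.range (chart0 m r).tE)

/-- The subring generated by the function field and the first generator of `L`. -/
noncomputable def KP : Subring (EE m r) :=
  Subring.closure (insert (gg m r 0) ((FF m r).toSubring : Set (EE m r)))

variable {m r}

theorem tt_mem (l : IF m r) : (chart0 m r).tE l ∈ FF m r := Subfield.subset_closure ⟨l, rfl⟩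

theorem DD_FF {f : EE m r} (hf : f ∈ FF m r) : DD m r f = 0 := by
  have : FF m r ≤ kerD (DD m r) ⊥ := by
    rw [FF, Subfield.closure_le]
    rintro _ ⟨l, rfl⟩
    exact (chart0 m r).DD_tE l
  exact this hf

theorem mem_FF {f : EE m r} (hf : f ∈ KP m r) (h : DD m r f = 0) : f ∈ FF m r :=
  mem_of_der_eq_zero (m + 2) (DD m r) (FF m r).toSubring (fun _ => DD_FF) (gg m r 0)
    (by rw [DD_gg]; exact xv_ne_zero _) (tt_mem (.inl 0)) hf h

theorem FF_le_KP {f : EE m r} (hf : f ∈ FF m r) : f ∈ KP m r :=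
  Subring.subset_closure (Or.inr hf)

theorem gE_mem_KP (i : IL r) : gE m r i ∈ KP m r :=
  (chart0 m r).gE_mem _ (Subring.subset_closure (Or.inl rfl)) (FF_le_KP (tt_mem _))
    (FF_le_KP (tt_mem _)) (fun _ => FF_le_KP (tt_mem _)) i

theorem xx_div_mem (i j : Fin 2) : xx m r i / xx m r j ∈ FF m r := by
  have h : xx m r 1 / xx m r 0 ∈ FF m r := tt_mem (.inl 1)
  fin_cases i <;> fin_cases j
  · rw [div_self (xv_ne_zero _)]; exact one_mem _
  · have := inv_mem h
    rwa [inv_div] at this
  · exact h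
  · rw [div_self (xv_ne_zero _)]; exact one_mem _

theorem xz_mem_KP (i : Fin 2) (j : Fin m) : xx m r i / zz m r j ∈ KP m r := by
  have h := sub_mem (FF_le_KP (tt_mem (.inr (.inr j)))) (gE_mem_KP (m := m) (r := r) (.inl 0))
  have h1 : xx m r 0 / zz m r j ∈ KP m r := by
    rwa [Chart.tE_e, show (chart0 m r).i0 = 0 from rfl, add_sub_cancel_left] at h
  have h2 := mul_mem (FF_le_KP (xx_div_mem i 0)) h1
  rwa [div_mul_div_cancel₀ (xv_ne_zero _)] at h2

theorem pow_mem_FF {f : EE m r} (hf : f ∈ KP m r) : f ^ (m + 2) ∈ FF m r :=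
  mem_FF (pow_mem hf _) (der_pow_char (m + 2) _ _)

theorem pow_LL_mem (l : LL m r) : jL m r l ^ (m + 2) ∈ FF m r :=
  mem_of_subfield_LL (jL m r) ((FF m r).comap (frobenius (EE m r) (m + 2)))
    (fun i => pow_mem_FF (gE_mem_KP i)) l

theorem Chart.tE_mem_FF (ch : Chart m r) (l : IF m r) : ch.tE l ∈ FF m r :=
  mem_FF (ch.tE_mem _ gE_mem_KP (FF_le_KP (xx_div_mem _ _)) l fun j _ => xz_mem_KP _ j)
    (ch.DD_tE l)

theorem algInd_tt : AlgebraicIndependent (ZMod (m + 2)) (chart0 m r).tE := by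
  let T : Option (IF m r) → EE m r := fun o => o.elim (xx m r 0) (chart0 m r).tE
  let S := Algebra.adjoin (ZMod (m + 2)) (Set.range T)
  let Z : Subfield (EE m r) :=
    { carrier := {g | IsAlgebraic S g}
      mul_mem' := fun ha hb => ha.mul hb
      one_mem' := isAlgebraic_one
      add_mem' := fun ha hb => ha.add hb
      zero_mem' := isAlgebraic_zero
      neg_mem' := fun ha => ha.neg
      inv_mem' := fun _ ha => ha.inv }
  have hT : ∀ i, T i ∈ Z := fun i =>
    isAlgebraic_algebraMap (⟨T i, Algebra.subset_adjoin ⟨i, rfl⟩⟩ : S)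
  have hF : FF m r ≤ Z := by
    rw [FF, Subfield.closure_le]
    rintro _ ⟨l, rfl⟩
    exact hT (some l)
  have hK : ∀ f ∈ KP m r, f ∈ Z := fun f hf =>
    IsAlgebraic.of_pow (Nat.succ_pos (m + 1)) (hF (pow_mem_FF hf))
  have hx : xx m r 0 ∈ Z := hT none
  have hX : ∀ j, xv m r j ∈ Z := by
    rintro (j | j)
    · have := mul_mem (hF (xx_div_mem j 0)) hx
      rwa [div_mul_cancel₀ _ (xv_ne_zero _)] at this
    · have := div_mem hx (hK _ (xz_mem_KP 0 j))
      rwa [div_div_cancel₀ (xv_ne_zero _)] at this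
  have halg : Algebra.IsAlgebraic S (EE m r) :=
    ⟨fun g => mem_of_subfield_EE Z (fun i => hK _ (gE_mem_KP i)) hX g⟩
  have hcard : Cardinal.mk (Option (IF m r)) ≤ Algebra.trdeg (ZMod (m + 2)) (EE m r) := by
    refine le_trans (le_of_eq ?_) (algInd_gens (m := m) (r := r)).cardinalMk_le_trdeg
    simp only [Cardinal.mk_fintype, Fintype.card_fin, Fintype.card_sum, Fintype.card_option]
    congr 1
    omega
  have hb := Algebra.IsAlgebraic.isTranscendenceBasis_of_le_trdeg_of_finite (ZMod (m + 2)) T hcard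
  exact hb.1.comp some (Option.some_injective _)

/-- The coordinates as elements of the function field. -/
noncomputable def Chart.t (ch : Chart m r) (l : IF m r) : FF m r := ⟨ch.tE l, ch.tE_mem_FF l⟩

theorem closure_t : Subfield.closure (Set.range (chart0 m r).t) = ⊤ := by
  rw [eq_top_iff]
  rintro ⟨f, hf⟩ -
  induction hf using Subfield.closure_induction with
  | mem x hx =>
    obtain ⟨l, rfl⟩ := hx
    exact Subfield.subset_closure ⟨l, rfl⟩
  | one => exact one_mem _
  | add x y _ _ hx hy => exact add_mem hx hy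
  | neg x _ hx => exact neg_mem hx
  | inv x _ hx => exact inv_mem hx
  | mul x y _ _ hx hy => exact mul_mem hx hy

theorem exists_delta : ∃ δ : IF m r → Derivation ℤ (FF m r) (FF m r),
    ∀ i j, δ j ((chart0 m r).t i) = if i = j then 1 else 0 := by
  let _ : Algebra (ZMod (m + 2)) (FF m r) := ZMod.algebra _ (m + 2)
  have hind : AlgebraicIndependent (ZMod (m + 2)) (chart0 m r).t :=
    AlgebraicIndependent.of_comp
      ({ (FF m r).subtype with
          commutes' := fun c => congrArg (fun f : ZMod (m + 2) →+* EE m r => f c)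
            (RingHom.ext_zmod ((FF m r).subtype.comp (algebraMap _ _)) (algebraMap _ _)) } :
        FF m r →ₐ[ZMod (m + 2)] EE m r) algInd_tt
  have h := fun j => exists_derivation_p (chart0 m r).t hind closure_t
    (fun i => if i = j then 1 else 0)
  choose δ hδ using h
  exact ⟨δ, fun i j => hδ j i⟩

variable (m r) in
/-- The derivations dual to the generators. -/
noncomputable def del : IF m r → Derivation ℤ (FF m r) (FF m r) := exists_delta.choose

theorem del_t (i j : IF m r) : del m r j ((chart0 m r).t i) = if i = j then 1 else 0 :=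
  exists_delta.choose_spec i j

end Pool.Agent.Work.MP_a77660_ag.Hedge
end

-- merged part: Pool.Agent.Work.MP_a77660_ag.Hedge.Chart
section
/-!
The base field, and Jacobian determinants of the coordinate systems.
-/

namespace Pool.Agent.Work.MP_a77660_ag.Hedge

open PowerSeries

variable {m r : ℕ} [hp : Fact (m + 2).Prime] [hm : NeZero m]

variable (m r) in
/-- The base field. -/
noncomputable def KK : Subfield (LL m r) := (FF m r).comap (jL m r)

theorem mem_KK {l : LL m r} : l ∈ KK m r ↔ jL m r l ∈ FF m r := Iff.rfl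

theorem pow_mem_KK (l : LL m r) : l ^ (m + 2) ∈ KK m r := by
  rw [mem_KK, map_pow]
  exact pow_LL_mem l

variable (m r) in
/-- The base field inside the function field. -/
noncomputable def kF : KK m r →+* FF m r :=
  ((jL m r).comp (KK m r).subtype).codRestrict (FF m r) fun κ => κ.2

theorem coe_kF (κ : KK m r) : (kF m r κ : EE m r) = jL m r κ := rfl

theorem linInd_al : LinearIndependent (KK m r) fun i : Fin (r + 1) => gL m r (.inr i) := by
  rw [Fintype.linearIndependent_iff]
  intro g hg j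
  have h := linInd_aux (m := m) (r + 1) le_rfl
    (fun i => if h : i < r + 1 then (g ⟨i, h⟩ : LL m r) else 0) (fun i => by
      split_ifs with h
      · exact DD_FF (g _).2
      · simp) (by
      rw [Finset.sum_range, ← map_zero (jL m r), ← hg, map_sum]
      refine Finset.sum_congr rfl fun i _ => ?_
      rw [dif_pos i.2, coeff_alT, gE, ← map_mul]
      rfl) j j.2
  rw [dif_pos j.2] at h
  exact Subtype.ext h

namespace Chart

variable (ch : Chart m r)

/-- The first coordinate. -/
noncomputable abbrev g : FF m r := ch.t (.inl 0)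
/-- The second coordinate. -/
noncomputable abbrev s : FF m r := ch.t (.inl 1)
/-- The third coordinate. -/
noncomputable abbrev b : FF m r := ch.t (.inl 2)
/-- The last coordinates. -/
noncomputable abbrev e (j : Fin m) : FF m r := ch.t (.inr (.inr j))
/-- The powers of the affine coordinates. -/
noncomputable def h (j : Fin m) : FF m r := ch.e j ^ (m + 2) - ch.g

theorem coe_t (l : IF m r) : (ch.t l : EE m r) = ch.tE l := rfl

theorem coe_h (j : Fin m) : (ch.h j : EE m r) = (xx m r ch.i0 / zz m r j) ^ (m + 2) := by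
  rw [h]
  push_cast
  rw [coe_t, coe_t, tE_e, tE_0, add_pow_char, add_sub_cancel_left]

theorem h_ne_zero (j : Fin m) : ch.h j ≠ 0 := fun h => by
  have := ch.coe_h j
  rw [h] at this
  exact pow_ne_zero _ (div_ne_zero (xv_ne_zero _) (xv_ne_zero _)) this.symm

theorem s_ne_zero : ch.s ≠ 0 := fun h =>
  div_ne_zero (xv_ne_zero _) (xv_ne_zero _) (congrArg Subtype.val h)

/-- The subring generated by a subring of the function field and a generator of `L`. -/
noncomputable def T2 (T : Subring (FF m r)) : Subring (EE m r) :=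
  Subring.closure (insert (gg m r ch.i0) (T.map (FF m r).subtype : Set (EE m r)))

theorem mem_T2 {T : Subring (FF m r)} {f : FF m r} (hf : f ∈ T) : (f : EE m r) ∈ ch.T2 T :=
  Subring.subset_closure (Or.inr ⟨f, hf, rfl⟩)

theorem gg_mem_T2 (T : Subring (FF m r)) : gg m r ch.i0 ∈ ch.T2 T :=
  Subring.subset_closure (Or.inl rfl)

theorem mem_of_T2 {T : Subring (FF m r)} (hg : ch.g ∈ T) {f : FF m r}
    (hf : (f : EE m r) ∈ ch.T2 T) : f ∈ T := by
  obtain ⟨f', hf', h⟩ := mem_of_der_eq_zero (m + 2) (DD m r) (T.map (FF m r).subtype)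
    (by rintro _ ⟨f, -, rfl⟩; exact DD_FF f.2) (gg m r ch.i0)
    (by rw [DD_gg]; exact xv_ne_zero _) ⟨_, hg, rfl⟩ hf (DD_FF f.2)
  rwa [← show f' = f from Subtype.ext h]

end Chart

theorem JJ_chart0 : JJ (del m r) (chart0 m r).t = 1 := by
  rw [JJ, ← Matrix.det_one (n := IF m r)]
  congr 1
  ext i j
  simp [del_t, Matrix.one_apply]

theorem chart1_s : (chart1 m r).s = (chart0 m r).s⁻¹ := Subtype.ext (inv_div _ _).symm

theorem chart1_h (j : Fin m) : (chart1 m r).h j = (chart0 m r).s ^ (m + 2) * (chart0 m r).h j := by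
  apply Subtype.ext
  push_cast
  rw [Chart.coe_h, Chart.coe_h, ← mul_pow]
  congr 1
  exact (div_mul_div_cancel₀ (xv_ne_zero _)).symm

theorem exists_W : ∃ W A : ℕ → FF m r, W 0 = 1 ∧
    (∀ N : Submodule (FF m r) (IF m r → FF m r),
      (∀ l, gr (del m r) ((chart0 m r).t (.inl l)) ∈ N) → ∀ k, gr (del m r) (W k) ∈ N) ∧
    (∀ i : Fin (r + 1), A i = (chart0 m r).t (.inr (.inl i))) ∧
    ∀ i : Fin (r + 1), (chart1 m r).t (.inr (.inl i)) =
      ∑ k ∈ Finset.range (i + 1), W k * A (i - k) := by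
  let V := (chart1 m r).U * U0' m r (gg m r 0) (gg m r 1) (xx m r 1 / xx m r 0)
  have h1 : ∀ T : Subring (EE m r), (∀ i, gg m r i ∈ T) → xx m r 0 / xx m r 1 ∈ T →
      xx m r 1 / xx m r 0 ∈ T → V ∈ psSub T := fun T h h' h'' =>
    mul_mem ((chart1 m r).hUmem T h h') (U0'_mem (h 0) (h 1) h'')
  have h2 : ∀ k < r + 1, DD m r (coeff k V) = 0 := fun k hk => by
    have := (chart1 m r).hUD.mul ld_U0'
    rw [neg_add_cancel] at this
    exact this.coeff_eq_zero hk
  have h3 : ∀ k < r + 1, coeff k V ∈ FF m r := fun k hk =>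
    mem_FF (h1 _ (fun i => gE_mem_KP _) (FF_le_KP (xx_div_mem _ _)) (FF_le_KP (xx_div_mem _ _)) k)
      (h2 k hk)
  refine ⟨fun k => if h : k < r + 1 then ⟨_, h3 k h⟩ else 0,
    fun k => if h : k < r + 1 then (chart0 m r).t (.inr (.inl ⟨k, h⟩)) else 0, ?_,
    fun N hN k => ?_, fun i => dif_pos i.2, fun i => ?_⟩
  · beta_reduce
    rw [dif_pos (Nat.succ_pos r)]
    apply Subtype.ext
    simp [V, (chart1 m r).hU0, U0', cc_La]
  · beta_reduce
    split_ifs with hk
    · have hs : (chart0 m r).s ∈ kerD (gr (del m r)) N := hN 1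
      refine (chart0 m r).mem_of_T2 (T := (kerD (gr (del m r)) N).toSubring) (hN 0)
        (h1 _ (fun i => ?_) ?_ ((chart0 m r).mem_T2 hs) k)
      · fin_cases i
        · exact (chart0 m r).gg_mem_T2 _
        · have := add_mem ((chart0 m r).mem_T2 (T := (kerD (gr (del m r)) N).toSubring) (hN 2))
            (mul_mem ((chart0 m r).mem_T2 hs) ((chart0 m r).gg_mem_T2 _))
          rwa [Chart.coe_t, Chart.coe_t, Chart.tE_2, Chart.tE_1, sub_add_cancel] at this
      · have := (chart0 m r).mem_T2 (T := (kerD (gr (del m r)) N).toSubring)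
          ((kerD (gr (del m r)) N).inv_mem hs)
        rwa [← chart1_s] at this
    · simp
  · apply Subtype.ext
    have h4 : (chart1 m r).U * alT m r = V * ((chart0 m r).U * alT m r) := by
      rw [mul_assoc, ← mul_assoc _ (chart0 m r).U]
      exact congrArg _ (by rw [show (chart0 m r).U = U0 m r _ _ _ from rfl, U0_mul, one_mul])
    rw [Chart.coe_t, Chart.tE_a, h4, coeff_mul, Finset.Nat.sum_antidiagonal_eq_sum_range_succ_mk]
    push_cast
    refine Finset.sum_congr rfl fun k hk => ?_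
    have h5 := Finset.mem_range.mp hk
    have h6 := i.2
    rw [dif_pos (by omega), dif_pos (by omega)]
    rfl

theorem JJ_chart1 : JJ (del m r) (chart1 m r).t = (chart0 m r).s ^ (m + 2) *
    (-(chart0 m r).s⁻¹ ^ 2) * (-(chart0 m r).s⁻¹) * (chart0 m r).s ^ m := by
  obtain ⟨W, A, hW0, hW, hA, hWA⟩ := exists_W (m := m) (r := r)
  have hx := xv_ne_zero (m := m) (r := r) (.inl 0)
  have hy := xv_ne_zero (m := m) (r := r) (.inl 1)
  rw [JJ_tri (del m r) (chart0 m r).t (chart1 m r).t
    (Sum.elim ![(chart0 m r).s ^ (m + 2), -(chart0 m r).s⁻¹ ^ 2, -(chart0 m r).s⁻¹]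
      (Sum.elim 1 fun _ => (chart0 m r).s))
    (Sum.elim ![0, 0, 1] (Sum.elim (fun i => 2 + i) fun _ => 2)), JJ_chart0]
  · simp [Fintype.prod_sum_type, Fin.prod_univ_three]
  rintro (l | l | l)
  · fin_cases l
    · have : (chart1 m r).g = (chart0 m r).b ^ (m + 2) +
          (chart0 m r).s ^ (m + 2) * (chart0 m r).g := by
        apply Subtype.ext
        push_cast
        rw [Chart.coe_t, Chart.coe_t, Chart.coe_t, Chart.coe_t, Chart.tE_0, Chart.tE_0, Chart.tE_1,
          Chart.tE_2, ← mul_pow, ← add_pow_char, sub_add_cancel]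
        rfl
      change gr (del m r) (chart1 m r).g - (chart0 m r).s ^ (m + 2) • gr (del m r) (chart0 m r).g ∈ _
      rw [this, map_add, Derivation.leibniz, der_pow_char (m + 2), der_pow_char (m + 2)]
      simp
    · change gr (del m r) (chart1 m r).s - (-(chart0 m r).s⁻¹ ^ 2) • gr (del m r) (chart0 m r).s ∈ _
      rw [chart1_s, Derivation.leibniz_inv]
      simp
    · have : (chart1 m r).b = -((chart0 m r).s⁻¹ * (chart0 m r).b) := by
        apply Subtype.ext
        push_cast
        rw [Chart.coe_t, Chart.coe_t, Chart.coe_t, Chart.tE_2, Chart.tE_1, Chart.tE_2]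
        change gg m r 0 - xx m r 0 / xx m r 1 * gg m r 1 =
          -((xx m r 1 / xx m r 0)⁻¹ * (gg m r 1 - xx m r 1 / xx m r 0 * gg m r 0))
        field_simp
        ring
      change gr (del m r) (chart1 m r).b - (-(chart0 m r).s⁻¹) • gr (del m r) (chart0 m r).b ∈ _
      rw [this, map_neg, Derivation.leibniz, Derivation.leibniz_inv, neg_smul (chart0 m r).s⁻¹,
        neg_add, sub_neg_eq_add, neg_add_cancel_comm]
      exact neg_mem (Submodule.smul_mem _ _ (Submodule.smul_mem _ _
        (Submodule.subset_span ⟨⟨.inl 1, by simp⟩, rfl⟩)))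
  · rw [hWA, Finset.sum_range_succ', hW0, one_mul, Nat.sub_zero, hA, map_add]
    change _ - (1 : FF m r) • _ ∈ _
    rw [one_smul, add_sub_cancel_right, map_sum]
    refine sum_mem fun k hk => ?_
    have h1 := Finset.mem_range.mp hk
    have h2 := l.2
    rw [Derivation.leibniz]
    refine add_mem (Submodule.smul_mem _ _ ?_) (Submodule.smul_mem _ _ (hW _ (fun i => ?_) _))
    · rw [show A (l - (k + 1)) = _ from hA ⟨l - (k + 1), by omega⟩]
      refine Submodule.subset_span ⟨⟨.inr (.inl ⟨l - (k + 1), by omega⟩), ?_⟩, rfl⟩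
      change 2 + ((l : ℕ) - (k + 1)) < 2 + (l : ℕ)
      omega
    · refine Submodule.subset_span ⟨⟨.inl i, ?_⟩, rfl⟩
      change ![0, 0, 1] i < 2 + (l : ℕ)
      have : ![0, 0, 1] i < 2 := by fin_cases i <;> decide
      omega
  · have : (chart1 m r).e l = (chart0 m r).b + (chart0 m r).s * (chart0 m r).e l := by
      apply Subtype.ext
      push_cast
      rw [Chart.coe_t, Chart.coe_t, Chart.coe_t, Chart.coe_t, Chart.tE_2, Chart.tE_1, Chart.tE_e,
        Chart.tE_e]
      change gg m r 1 + xx m r 1 / zz m r l = gg m r 1 - xx m r 1 / xx m r 0 * gg m r 0 +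
        xx m r 1 / xx m r 0 * (gg m r 0 + xx m r 0 / zz m r l)
      field_simp
      ring
    change gr (del m r) ((chart1 m r).e l) - (chart0 m r).s • gr (del m r) ((chart0 m r).e l) ∈ _
    rw [this, map_add, Derivation.leibniz, add_comm ((chart0 m r).s • _), ← add_assoc,
      add_sub_cancel_right]
    exact add_mem (Submodule.subset_span ⟨⟨.inl 2, by simp⟩, rfl⟩)
      (Submodule.smul_mem _ _ (Submodule.subset_span ⟨⟨.inl 1, by simp⟩, rfl⟩))

variable (m r) in
/-- The rational function whose divisor is a multiple of `K + B`. -/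
noncomputable def gB (a b : ℕ) : FF m r :=
  (∏ j, (chart0 m r).h j ^ 2) ^ b * (chart0 m r).s ^ ((m + 2) * (b - a))

theorem gB_ne_zero (a b : ℕ) : gB m r a b ≠ 0 :=
  mul_ne_zero (pow_ne_zero _ (Finset.prod_ne_zero_iff.mpr fun j _ =>
    pow_ne_zero _ ((chart0 m r).h_ne_zero j))) (pow_ne_zero _ (chart0 m r).s_ne_zero)

/-- The Jacobian identity of a chart. -/
def Chart.Good (ch : Chart m r) (a b c : ℕ) : Prop :=
  gB m r a b * JJ (del m r) ch.t ^ ((m + 2) * b) =
    (∏ j, ch.h j ^ 2) ^ b * ch.s ^ ((m + 2) * c)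

theorem good0 (a b : ℕ) : (chart0 m r).Good a b (b - a) := by
  rw [Chart.Good, JJ_chart0, one_pow, mul_one, gB]

theorem good1 {a b : ℕ} (h : a ≤ b) : (chart1 m r).Good a b a := by
  obtain ⟨c, rfl⟩ := Nat.exists_eq_add_of_le h
  have hs := (chart0 m r).s_ne_zero
  rw [Chart.Good, JJ_chart1, gB, chart1_s, Nat.add_sub_cancel_left]
  simp only [chart1_h, mul_pow, Finset.prod_mul_distrib, Finset.prod_const, Finset.card_univ,
    Fintype.card_fin]
  generalize (chart0 m r).s = s at hs ⊢
  generalize ∏ j, (chart0 m r).h j ^ 2 = H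
  have h1 : s ^ (m + 2) * -s⁻¹ ^ 2 * -s⁻¹ * s ^ m = (s ^ m) ^ 2 * s⁻¹ := by
    field_simp
    ring
  rw [← mul_pow, ← mul_pow, ← mul_pow, h1, mul_pow, inv_pow, inv_pow]
  field_simp
  ring

end Pool.Agent.Work.MP_a77660_ag.Hedge
end

-- merged part: Pool.Agent.Work.MP_a77660_ag.Hedge.ChartVal
section
/-!
Valuations of Jacobian determinants in the coordinate systems.
-/

namespace Pool.Agent.Work.MP_a77660_ag.Hedge

open WithZero

variable {m r : ℕ} [hp : Fact (m + 2).Prime] [hm : NeZero m]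

theorem exp_sum {ι : Type} (S : Finset ι) (f : ι → ℤ) :
    (exp (∑ i ∈ S, f i) : ℤᵐ⁰) = ∏ i ∈ S, exp (f i) := by
  classical
  induction S using Finset.induction_on with
  | empty => simp
  | insert i S hi ih => rw [Finset.sum_insert hi, Finset.prod_insert hi, exp_add, ih]

namespace Chart

variable (ch : Chart m r) (v : Valuation (FF m r) ℤᵐ⁰) (hK : ∀ κ, v (kF m r κ) ≤ 1)

include hK in
theorem val_t (hs : v ch.s ≤ 1) (l : IF m r) (hl : ∀ j, l ≠ .inr (.inr j)) : v (ch.t l) ≤ 1 := by
  let Y : Subring (EE m r) :=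
    (v.integer.map (FF m r).subtype).comap (frobenius (EE m r) (m + 2))
  have h1 : ch.tE l ∈ Y := ch.tE_mem Y
    (fun i => ⟨kF m r ⟨_, pow_mem_KK (gL m r i)⟩, hK _, map_pow (jL m r) _ _⟩)
    ⟨ch.s ^ (m + 2), pow_mem (show ch.s ∈ v.integer from hs) _, rfl⟩ l fun j h => absurd h (hl j)
  obtain ⟨f, hf, h2⟩ := h1
  have h3 : f = ch.t l ^ (m + 2) := Subtype.ext h2
  have h4 : v f ≤ 1 := hf
  rw [h3, map_pow] at h4
  exact (pow_le_one_iff_of_nonneg zero_le (Nat.succ_ne_zero _)).mp h4

/-- The shift making a coordinate invertible. -/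
noncomputable def kap (j : Fin m) : FF m r := if 1 ≤ v (ch.e j) then 0 else 1

/-- The inverted coordinate. -/
noncomputable def eI (j : Fin m) : FF m r := (ch.e j + ch.kap v j)⁻¹

theorem one_le_val (j : Fin m) : 1 ≤ v (ch.e j + ch.kap v j) := by
  unfold kap
  split_ifs with h
  · rwa [add_zero]
  · rw [add_comm, v.map_one_add_of_lt (not_le.mp h)]

theorem add_kap_ne_zero (j : Fin m) : ch.e j + ch.kap v j ≠ 0 := fun h => by
  have := ch.one_le_val v j
  rw [h, map_zero] at this
  exact not_lt.mpr this zero_lt_one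

theorem val_eI (j : Fin m) : v (ch.eI v j) ≤ 1 := by
  rw [eI, map_inv₀]
  exact inv_le_one_of_one_le₀ (ch.one_le_val v j)

theorem kap_mem (T : Subring (FF m r)) (j : Fin m) : ch.kap v j ∈ T := by
  unfold kap
  split_ifs
  · exact zero_mem _
  · exact one_mem _

theorem add_kap_pow (j : Fin m) :
    (ch.e j + ch.kap v j) ^ (m + 2) = ch.h j + (ch.g + ch.kap v j) := by
  have : ch.kap v j ^ (m + 2) = ch.kap v j := by
    unfold kap
    split_ifs <;> simp
  rw [add_pow_char, this, h]
  ring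

theorem w_eq (j : Fin m) :
    ch.h j * ch.eI v j ^ (m + 2) = 1 - (ch.g + ch.kap v j) * ch.eI v j ^ (m + 2) := by
  have h1 := pow_ne_zero (m + 2) (ch.add_kap_ne_zero v j)
  rw [eq_sub_iff_add_eq, ← add_mul, ← add_kap_pow, eI, inv_pow, mul_inv_cancel₀ h1]

theorem val_w (hg : v ch.g ≤ 1) {j : Fin m} (hj : 1 ≤ v (ch.h j)) :
    v (ch.h j * ch.eI v j ^ (m + 2)) = 1 := by
  have h1 : v (ch.g + ch.kap v j) ≤ 1 := v.map_add_le hg (ch.kap_mem v v.integer j)
  apply le_antisymm
  · rw [w_eq]
    refine v.map_sub_le (by simp) ?_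
    rw [map_mul, map_pow]
    exact mul_le_one' h1 (pow_le_one' (ch.val_eI v j) _)
  · have h2 : v ((ch.e j + ch.kap v j) ^ (m + 2)) ≤ v (ch.h j) := by
      rw [add_kap_pow]
      exact v.map_add_le le_rfl (h1.trans hj)
    have h3 : v ((ch.e j + ch.kap v j) ^ (m + 2)) ≠ 0 := by
      simpa using ch.add_kap_ne_zero v j
    rw [eI, inv_pow, map_mul, map_inv₀, ← div_eq_mul_inv, one_le_div₀ (zero_lt_iff.mpr h3)]
    exact h2

/-- The coordinates with the last ones inverted. -/
noncomputable def tI : IF m r → FF m r :=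
  Sum.elim (fun l => ch.t (.inl l)) (Sum.elim (fun i => ch.t (.inr (.inl i))) (ch.eI v))

include hK in
theorem val_tI (hs : v ch.s ≤ 1) (l : IF m r) : v (ch.tI v l) ≤ 1 := by
  rcases l with l | l | l
  · exact ch.val_t v hK hs _ (by simp)
  · exact ch.val_t v hK hs _ (by simp)
  · exact ch.val_eI v l

theorem JJ_tI : JJ (del m r) (ch.tI v) = (∏ j, -ch.eI v j ^ 2) * JJ (del m r) ch.t := by
  rw [JJ_tri (del m r) ch.t (ch.tI v) (Sum.elim 1 (Sum.elim 1 fun j => -ch.eI v j ^ 2)) 0]
  · simp [Fintype.prod_sum_type]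
  rintro (l | l | l)
  · simp [tI]
  · simp [tI]
  · have : gr (del m r) (ch.kap v l) = 0 := by
      unfold kap
      split_ifs <;> simp
    change gr (del m r) (ch.eI v l) - (-ch.eI v l ^ 2) • gr (del m r) (ch.e l) ∈ _
    rw [eI, Derivation.leibniz_inv, map_add, this, add_zero, sub_self]
    exact zero_mem _

variable {a b c : ℕ} (hG : ch.Good a b c)

include hK hG in
theorem val_gB_tI (hs : v ch.s ≤ 1) (hh : ∀ j, 1 ≤ v (ch.h j)) :
    v (gB m r a b) * v (JJ (del m r) (ch.tI v)) ^ ((m + 2) * b) = v ch.s ^ ((m + 2) * c) := by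
  have h1 := congrArg v hG
  have h2 : ∀ j, v (ch.h j) ^ 2 * v (-ch.eI v j ^ 2) ^ (m + 2) = 1 := fun j => by
    have := ch.val_w v (ch.val_t v hK hs _ (by simp)) (hh j)
    rw [map_mul, map_pow] at this
    rw [Valuation.map_neg, map_pow, ← pow_mul, mul_comm 2, pow_mul, ← mul_pow, this, one_pow]
  simp only [map_mul, map_pow, map_prod] at h1
  rw [JJ_tI, map_mul, mul_pow, mul_left_comm, h1, ← mul_assoc, pow_mul, ← mul_pow, map_prod,
    ← Finset.prod_pow, mul_comm (Finset.prod _ _), ← Finset.prod_mul_distrib]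
  simp only [h2, Finset.prod_const_one, one_pow, one_mul]

/-- The affine coordinate ring of the chart upstairs. -/
noncomputable def G : Subring (EE m r) :=
  Subring.closure (Set.range (jL m r) ∪ Set.range fun i => xv m r i / xx m r ch.i0)

include hK in
theorem exact_chart (hs : v ch.s ≤ 1) (hh : ∀ j, 1 ≤ v (ch.h j))
    (hO : ∀ f : FF m r, v f ≤ 1 → ∃ qa qb : FF m r, (qa : EE m r) ∈ ch.G ∧ (qb : EE m r) ∈ ch.G ∧
      v qb⁻¹ ≤ 1 ∧ f = qa * qb⁻¹) (a : IF m r → FF m r) (ha : ∀ i, v (a i) ≤ 1) :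
    v (JJ (del m r) a) ≤ v (JJ (del m r) (ch.tI v)) := by
  let N := Submodule.span v.integer (Set.range fun l => gr (del m r) (ch.tI v l))
  let T := derSubring v (gr (del m r)) N
  have hT : ∀ l, ch.tI v l ∈ T := fun l => ⟨ch.val_tI v hK hs l, Submodule.subset_span ⟨l, rfl⟩⟩
  have hinv : ∀ f ∈ T, v f⁻¹ ≤ 1 → f⁻¹ ∈ T := fun f hf h => inv_mem_derSubring v _ N hf h
  have hg : ∀ i, gE m r i ∈ ch.T2 T := ch.gE_mem _ (ch.gg_mem_T2 T) (ch.mem_T2 (hT (.inl 1)))
    (ch.mem_T2 (hT (.inl 2))) fun i => ch.mem_T2 (hT (.inr (.inl i)))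
  have hL : ∀ l, jL m r l ∈ ch.T2 T := by
    intro l
    obtain ⟨p, q, hq, rfl⟩ := IsFractionRing.div_surjective (A := P0 m r) l
    have hq0 : algebraMap (P0 m r) (LL m r) q ≠ 0 :=
      (map_ne_zero_iff _ (IsFractionRing.injective _ _)).mpr (nonZeroDivisors.ne_zero hq)
    have h0 := poly_mem_of_subring ((jL m r).comp (algebraMap (P0 m r) (LL m r))) _ hg
    let κ : KK m r := ⟨_, pow_mem_KK (algebraMap (P0 m r) (LL m r) q)⟩
    have h1 : kF m r κ ∈ T := ch.mem_of_T2 (hT (.inl 0)) (by
      rw [coe_kF, map_pow]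
      exact pow_mem (h0 q) _)
    have h2 := ch.mem_T2 (hinv _ h1 (by rw [← map_inv₀]; exact hK _))
    have h3 := mul_mem (mul_mem (h0 p) (pow_mem (h0 q) (m + 1))) h2
    convert h3 using 1
    have h4 : jL m r (algebraMap (P0 m r) (LL m r) q) ≠ 0 := by simpa using hq0
    rw [Subfield.coe_inv, coe_kF, map_pow, map_div₀, RingHom.comp_apply, RingHom.comp_apply]
    field_simp
    ring
  have hG : ch.G ≤ ch.T2 T := by
    rw [G, Subring.closure_le]
    rintro _ (⟨l, rfl⟩ | ⟨i | j, rfl⟩)
    · exact hL l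
    · rcases ch.cases_i i with rfl | rfl
      · simp only [div_self (xv_ne_zero _)]
        exact one_mem _
      · exact ch.mem_T2 (hT (.inl 1))
    · have he : ch.eI v j ∈ T := hT (.inr (.inr j))
      have h1 : ch.h j * ch.eI v j ^ (m + 2) ∈ T := by
        rw [w_eq]
        exact sub_mem (one_mem _)
          (mul_mem (add_mem (hT (.inl 0)) (ch.kap_mem v T j)) (pow_mem he _))
      have h2 := ch.mem_T2 (hinv _ h1 (by
        rw [map_inv₀, ch.val_w v (ch.val_t v hK hs _ (by simp)) (hh j), inv_one]))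
      have h3 := mul_mem (mul_mem (ch.mem_T2 he) (pow_mem (sub_mem (one_mem _) (mul_mem
        (add_mem (ch.gg_mem_T2 T) (ch.mem_T2 (ch.kap_mem v T j))) (ch.mem_T2 he))) (m + 1))) h2
      have h4 : (ch.e j : EE m r) + ch.kap v j ≠ 0 := fun h =>
        ch.add_kap_ne_zero v j (Subtype.ext h)
      have h5 : 1 - (gg m r ch.i0 + ch.kap v j) * (ch.eI v j : EE m r) =
          xx m r ch.i0 / zz m r j * ch.eI v j := by
        rw [eI, Subfield.coe_inv, Subfield.coe_add, sub_eq_iff_eq_add, ← add_mul,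
          ← mul_inv_cancel₀ h4, coe_t, tE_e]
        ring
      have h6 : (ch.eI v j : EE m r) ≠ 0 := by
        rw [eI, Subfield.coe_inv]
        exact inv_ne_zero h4
      have hx := xv_ne_zero (r := r) (.inl ch.i0 : IA m)
      have hz := xv_ne_zero (r := r) (.inr j : IA m)
      change _ ∈ ch.T2 T
      convert h3 using 1
      rw [h5, Subfield.coe_inv, Subfield.coe_mul, coe_h, SubmonoidClass.coe_pow]
      generalize (ch.eI v j : EE m r) = w at h6
      simp only [mul_pow, div_pow]
      field_simp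
      ring
  refine val_JJ_le (del m r) v _ a fun i => ?_
  obtain ⟨qa, qb, h1, h2, h3, h4⟩ := hO (a i) (ha i)
  have : a i ∈ T := h4 ▸ mul_mem (ch.mem_of_T2 (hT (.inl 0)) (hG h1))
    (hinv _ (ch.mem_of_T2 (hT (.inl 0)) (hG h2)) h3)
  exact this.2

/-- The coordinates adapted to a singular point. -/
noncomputable def tB (j₀ : Fin m) : IF m r → FF m r :=
  Sum.elim ![ch.h j₀, ch.s, ch.b] (Sum.elim (fun i => ch.t (.inr (.inl i)))
    fun j => if j = j₀ then ch.e j₀ else ch.e j₀ - ch.e j)

theorem val_JJ_tB (j₀ : Fin m) : v (JJ (del m r) (ch.tB j₀)) = v (JJ (del m r) ch.t) := by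
  rw [JJ_tri (del m r) ch.t (ch.tB j₀)
    (Sum.elim ![-1, 1, 1] (Sum.elim 1 fun j => if j = j₀ then 1 else -1))
    (Sum.elim 0 (Sum.elim 0 fun j => if j = j₀ then 0 else 1)), map_mul, map_prod,
    Finset.prod_eq_one, one_mul]
  · rintro (l | l | l) -
    · fin_cases l <;> simp
    · simp
    · simp only [Sum.elim_inr]
      split_ifs <;> simp
  rintro (l | l | l)
  · fin_cases l
    · change gr (del m r) (ch.h j₀) - (-1 : FF m r) • gr (del m r) ch.g ∈ _
      rw [h, map_sub, der_pow_char (m + 2)]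
      simp
    · simp [tB]
    · simp [tB]
  · simp [tB]
  · by_cases hl : l = j₀
    · simp [tB, hl]
    · simp only [tB, Sum.elim_inr, if_neg hl, map_sub, neg_smul, one_smul, sub_neg_eq_add,
        sub_add_cancel]
      exact Submodule.subset_span ⟨⟨.inr (.inr j₀), by simp [hl]⟩, rfl⟩

theorem sub_pow (j₀ j : Fin m) : (ch.e j₀ - ch.e j) ^ (m + 2) = ch.h j₀ - ch.h j := by
  rw [sub_pow_char, h, h]
  ring

theorem sub_ne_zero {j₀ j : Fin m} (hj : j ≠ j₀) : ch.e j₀ - ch.e j ≠ 0 := fun h => by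
  have h1 := congrArg Subtype.val (sub_eq_zero.mp h)
  rw [coe_t, coe_t, tE_e, tE_e, add_right_inj,
    div_eq_div_iff (xv_ne_zero _) (xv_ne_zero _), mul_right_inj' (xv_ne_zero _)] at h1
  exact hj (Sum.inr_injective (xv_inj h1))

variable {π : FF m r} (hπ : v π = exp (-1 : ℤ)) {n : ℤ}
  (hγ : ∀ a : IF m r → FF m r, (∀ i, v (a i) ≤ 1) → v (JJ (del m r) a) ≤ exp n)

include hK hG hπ hγ in
theorem lc_A (hs : v ch.s ≤ 1) (hb : 0 < b) (hcb : c ≤ b) (hh : ∀ j, 1 ≤ v (ch.h j)) :
    -(((m + 2) * c : ℕ) : ℤ) ≤ log (v (gB m r a b)) + ((m + 2) * b : ℕ) * n := by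
  have h1 := ch.val_gB_tI v hK hG hs hh
  have hs0 : v ch.s ≠ 0 := by simpa using ch.s_ne_zero
  have hg0 : v (gB m r a b) ≠ 0 := by simpa using gB_ne_zero a b
  have hJ0 : v (JJ (del m r) (ch.tI v)) ≠ 0 := fun h => by
    rw [h, zero_pow (by positivity), mul_zero] at h1
    exact pow_ne_zero _ hs0 h1.symm
  have h2 := hγ _ (ch.val_tI v hK hs)
  have h3 := log_main (del m r) v hπ hγ {.inl 1} (ch.tI v)
    (fun i hi => by rw [Finset.mem_singleton.mp hi]; exact ch.s_ne_zero)
    (fun i _ => ch.val_tI v hK hs i)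
  rw [Finset.prod_singleton, hπ] at h3
  change _ ≤ _ * v ch.s at h3
  rw [← exp_log hs0] at h1 h3 hs
  rw [← exp_log hJ0] at h1 h2 h3
  rw [← exp_log hg0, ← exp_nsmul, ← exp_nsmul, ← exp_add, exp_inj] at h1
  rw [← exp_add, ← exp_add, exp_le_exp] at h3
  rw [exp_le_exp] at h2
  rw [← exp_zero, exp_le_exp] at hs
  simp only [nsmul_eq_mul] at h1
  have h4 : (((m + 2) * c : ℕ) : ℤ) ≤ ((m + 2) * b : ℕ) :=
    Int.ofNat_le.mpr (Nat.mul_le_mul_left _ hcb)
  have h5 : (0 : ℤ) ≤ ((m + 2) * c : ℕ) := Int.natCast_nonneg _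
  generalize (((m + 2) * c : ℕ) : ℤ) = C at *
  generalize (((m + 2) * b : ℕ) : ℤ) = B at *
  rcases hs.eq_or_lt with h6 | h6
  · rw [h6] at h1
    nlinarith
  · nlinarith

include hK hG hπ hγ in
theorem lc_B (hs : v ch.s ≤ 1) (hb : 0 < b) (hcb : c ≤ b) (j₀ : Fin m) (h0 : v (ch.h j₀) < 1)
    (hj : ∀ j, v (ch.h j₀) ≤ v (ch.h j)) :
    -(((m + 1) * b : ℕ) : ℤ) ≤ log (v (gB m r a b)) + ((m + 2) * b : ℕ) * n := by
  have hs0 : v ch.s ≠ 0 := by simpa using ch.s_ne_zero
  have hg0 : v (gB m r a b) ≠ 0 := by simpa using gB_ne_zero a b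
  have hh0 : ∀ j, v (ch.h j) ≠ 0 := fun j => by simpa using ch.h_ne_zero j
  have h1 := congrArg v hG
  simp only [map_mul, map_pow, map_prod] at h1
  have hJ0 : v (JJ (del m r) ch.t) ≠ 0 := fun h => by
    rw [h, zero_pow (by positivity), mul_zero] at h1
    exact mul_ne_zero (pow_ne_zero _ (Finset.prod_ne_zero_iff.mpr fun j _ =>
      pow_ne_zero _ (hh0 j))) (pow_ne_zero _ hs0) h1.symm
  let P : IF m r → Bool := Sum.elim ![true, true, false] (Sum.elim (fun _ => false) (· ≠ j₀))
  have h2 := log_main (del m r) v hπ hγ (Finset.univ.filter fun l => P l = true) (ch.tB j₀)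
    (by
      rintro (l | l | l) hl
      · fin_cases l
        · exact ch.h_ne_zero j₀
        · exact ch.s_ne_zero
        · simp [P] at hl
      · simp [P] at hl
      · have : l ≠ j₀ := by simpa [P] using hl
        simp only [tB, Sum.elim_inr, if_neg this]
        exact ch.sub_ne_zero this)
    (by
      rintro (l | l | l) hl
      · fin_cases l
        · simp [P] at hl
        · simp [P] at hl
        · exact ch.val_t v hK hs (.inl 2) (by simp)
      · exact ch.val_t v hK hs (.inr (.inl l)) (by simp)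
      · have : l = j₀ := by simpa [P] using hl
        simp only [tB, Sum.elim_inr, if_pos this]
        have h3 : v (ch.e j₀ ^ (m + 2)) ≤ 1 := by
          rw [show ch.e j₀ ^ (m + 2) = ch.h j₀ + ch.g by rw [h]; ring]
          exact v.map_add_le h0.le (ch.val_t v hK hs _ (by simp))
        rw [map_pow] at h3
        exact (pow_le_one_iff_of_nonneg zero_le (Nat.succ_ne_zero _)).mp h3)
  have h3 : ∏ l ∈ Finset.univ.filter fun l => P l = true, v (ch.tB j₀ l) =
      v (ch.h j₀) * v ch.s * ∏ j ∈ Finset.univ.erase j₀, v (ch.e j₀ - ch.e j) := by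
    rw [Finset.prod_filter, Fintype.prod_sum_type, Fintype.prod_sum_type, Fin.prod_univ_three,
      ← Finset.filter_ne' Finset.univ j₀, Finset.prod_filter]
    simp only [P, tB, Sum.elim_inl, Sum.elim_inr]
    simp only [Matrix.cons_val_zero, Matrix.cons_val_one, Matrix.cons_val, if_true,
      Bool.false_eq_true, if_false, Finset.prod_const_one, one_mul, mul_one, decide_eq_true_eq]
    congr 1
    refine Finset.prod_congr rfl fun j _ => ?_
    by_cases h4 : j = j₀ <;> simp [h4]
  rw [h3, val_JJ_tB, hπ] at h2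
  have hq : ∀ j ∈ Finset.univ.erase j₀, v (ch.e j₀ - ch.e j) = exp (log (v (ch.e j₀ - ch.e j))) :=
    fun j hj => (exp_log (by simpa using ch.sub_ne_zero (Finset.ne_of_mem_erase hj))).symm
  have h4 : ∑ j ∈ Finset.univ.erase j₀, (m + 2 : ℤ) * log (v (ch.e j₀ - ch.e j)) ≤
      ∑ j ∈ Finset.univ.erase j₀, log (v (ch.h j)) := Finset.sum_le_sum fun j hj' => by
    have h5 : v ((ch.e j₀ - ch.e j) ^ (m + 2)) ≤ v (ch.h j) := by
      rw [sub_pow]
      exact v.map_sub_le (hj j) le_rfl
    rw [map_pow, hq j hj', ← exp_nsmul, ← exp_log (hh0 j), exp_le_exp, nsmul_eq_mul] at h5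
    exact_mod_cast h5
  have h5 : ∑ j ∈ Finset.univ.erase j₀, log (v (ch.h j₀)) ≤
      ∑ j ∈ Finset.univ.erase j₀, log (v (ch.h j)) := Finset.sum_le_sum fun j _ =>
    (log_le_log (hh0 _) (hh0 _)).mpr (hj j)
  rw [Finset.sum_const, Finset.card_erase_of_mem (Finset.mem_univ _), Finset.card_univ,
    Fintype.card_fin, nsmul_eq_mul, Nat.cast_pred (Nat.pos_of_ne_zero hm.out)] at h5
  rw [← Finset.mul_sum] at h4
  rw [Finset.prod_congr rfl hq, ← exp_sum, ← exp_log hJ0, ← exp_log (hh0 j₀), ← exp_log hs0,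
    ← exp_add, ← exp_add, ← exp_add, ← exp_add, exp_le_exp] at h2
  have h6 : ∏ j, v (ch.h j) ^ 2 =
      exp (2 * (log (v (ch.h j₀)) + ∑ j ∈ Finset.univ.erase j₀, log (v (ch.h j)))) := by
    rw [Finset.add_sum_erase _ (fun j => log (v (ch.h j))) (Finset.mem_univ j₀), Finset.mul_sum,
      exp_sum]
    refine Finset.prod_congr rfl fun j _ => ?_
    rw [two_mul, exp_add, exp_log (hh0 j), sq]
  rw [h6, ← exp_log hJ0, ← exp_log hg0, ← exp_log hs0, ← exp_nsmul, ← exp_nsmul, ← exp_nsmul,
    ← exp_add, ← exp_add, exp_inj] at h1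
  simp only [nsmul_eq_mul] at h1
  rw [← exp_log hs0, ← exp_zero, exp_le_exp] at hs
  rw [← exp_log (hh0 j₀), ← exp_zero, exp_lt_exp] at h0
  push_cast at h1 ⊢
  have hb' : (0 : ℤ) ≤ b := Int.natCast_nonneg b
  have hm' : (0 : ℤ) ≤ m + 2 := by positivity
  have k1 := mul_le_mul_of_nonneg_left h2 (mul_nonneg hm' hb')
  have k2 := mul_le_mul_of_nonneg_left h4 hb'
  have k3 := mul_le_mul_of_nonneg_left h5 hb'
  have k4 := mul_le_mul_of_nonneg_left (Int.add_one_le_of_lt h0) hb'
  have k5 := mul_nonneg (mul_nonneg hm' (sub_nonneg.mpr (Int.ofNat_le.mpr hcb)))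
    (neg_nonneg.mpr hs)
  nlinarith

include hK hG hπ hγ in
theorem lc_chart (hs : v ch.s ≤ 1) (hb : 0 < b) (hcb : c ≤ b) :
    -((max ((m + 2) * c) ((m + 1) * b) : ℕ) : ℤ) ≤
      log (v (gB m r a b)) + ((m + 2) * b : ℕ) * n := by
  obtain ⟨j₀, -, hj⟩ := Finset.exists_min_image Finset.univ (fun j => v (ch.h j))
    ⟨⟨0, Nat.pos_of_ne_zero hm.out⟩, Finset.mem_univ _⟩
  rcases lt_or_ge (v (ch.h j₀)) 1 with h | h
  · refine le_trans ?_ (ch.lc_B v hK hG hπ hγ hs hb hcb j₀ h fun j => hj j (Finset.mem_univ _))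
    exact neg_le_neg (Int.ofNat_le.mpr (le_max_right _ _))
  · refine le_trans ?_ (ch.lc_A v hK hG hπ hγ hs hb hcb fun j => h.trans (hj j (Finset.mem_univ _)))
    exact neg_le_neg (Int.ofNat_le.mpr (le_max_left _ _))

end Chart

theorem lc_general (v : Valuation (FF m r) ℤᵐ⁰) (hK : ∀ κ, v (kF m r κ) ≤ 1) {π : FF m r}
    (hπ : v π = exp (-1 : ℤ)) {n : ℤ}
    (hγ : ∀ a : IF m r → FF m r, (∀ i, v (a i) ≤ 1) → v (JJ (del m r) a) ≤ exp n) {a b : ℕ}
    (hb : 0 < b) (hab : a ≤ b) :
    -((max ((m + 2) * max a (b - a)) ((m + 1) * b) : ℕ) : ℤ) ≤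
      log (v (gB m r a b)) + ((m + 2) * b : ℕ) * n := by
  rcases le_total (v (chart0 m r).s) 1 with h | h
  · refine le_trans (neg_le_neg (Int.ofNat_le.mpr ?_))
      ((chart0 m r).lc_chart v hK (good0 a b) hπ hγ h hb (Nat.sub_le _ _))
    exact max_le_max (Nat.mul_le_mul_left _ (le_max_right _ _)) le_rfl
  · refine le_trans (neg_le_neg (Int.ofNat_le.mpr ?_))
      ((chart1 m r).lc_chart v hK (good1 hab) hπ hγ ?_ hb hab)
    · exact max_le_max (Nat.mul_le_mul_left _ (le_max_left _ _)) le_rfl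
    · rw [chart1_s, map_inv₀]
      exact inv_le_one_of_one_le₀ h

theorem exists_JJ_ne_zero (v : Valuation (FF m r) ℤᵐ⁰) {π : FF m r} (hπ : v π = exp (-1 : ℤ)) :
    ∃ a : IF m r → FF m r, (∀ i, v (a i) ≤ 1) ∧ JJ (del m r) a ≠ 0 := by
  by_contra! h
  have h1 := log_main (del m r) v hπ (γ := 0) (fun a ha => by rw [h a ha, map_zero])
    Finset.univ (chart0 m r).t (fun i _ h0 => by
      have := del_t (m := m) (r := r) i i
      rw [h0, map_zero, if_pos rfl] at this
      exact zero_ne_one this) (fun i hi => absurd (Finset.mem_univ i) hi)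
  rw [JJ_chart0, map_one, mul_one, zero_mul, hπ, le_zero_iff] at h1
  exact exp_ne_zero h1

end Pool.Agent.Work.MP_a77660_ag.Hedge
end

-- merged part: Pool.Agent.Work.MP_a77660_ag.Hedge.Ring
section
/-!
The graded ring of the example.
-/

namespace Pool.Agent.Work.MP_a77660_ag.Hedge

open MvPolynomial

attribute [local instance] MvPolynomial.weightedGradedAlgebra

variable {m r : ℕ} [hp : Fact (m + 2).Prime]

variable (m r) in
/-- The grading of the polynomial ring. -/
noncomputable abbrev AG (j : ℕ) : Submodule (LL m r) (AA m r) :=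
  weightedHomogeneousSubmodule (LL m r) (1 : IA m → ℕ) j

theorem AG_mul {i j : ℕ} {a b : AA m r} (ha : a ∈ AG m r i) (hb : b ∈ AG m r j) :
    a * b ∈ AG m r (i + j) := IsWeightedHomogeneous.mul ha hb

theorem AG_pow {i : ℕ} {a : AA m r} (ha : a ∈ AG m r i) (k : ℕ) :
    a ^ k ∈ AG m r (k * i) := IsWeightedHomogeneous.pow ha k

theorem AG_X (i : IA m) : (X i : AA m r) ∈ AG m r 1 := isWeightedHomogeneous_X _ _ i

theorem AG_X_pow (i : IA m) (k : ℕ) : (X i ^ k : AA m r) ∈ AG m r k := by
  simpa using AG_pow (AG_X (r := r) i) k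

theorem AG_C (l : LL m r) : (C l : AA m r) ∈ AG m r 0 := isWeightedHomogeneous_C _ l

theorem AG_of_mul {i j : ℕ} {b c : AA m r} (hb : b ∈ AG m r i) (hb0 : b ≠ 0)
    (hbc : b * c ∈ AG m r j) : c ∈ AG m r (j - i) := by
  by_cases hij : i ≤ j
  · have h1 := DirectSum.coe_decompose_mul_of_left_mem_of_le (AG m r) (b := c) hb hij
    rw [DirectSum.decompose_of_mem_same (AG m r) hbc] at h1
    rw [mul_left_cancel₀ hb0 h1]
    exact (DirectSum.decompose (AG m r) c (j - i)).2
  · have h1 := DirectSum.coe_decompose_mul_of_left_mem_of_not_le (AG m r) (b := c) hb hij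
    rw [DirectSum.decompose_of_mem_same (AG m r) hbc] at h1
    rw [(mul_eq_zero.mp h1).resolve_left hb0]
    exact zero_mem _

theorem AG_zero {a : AA m r} (ha : a ∈ AG m r 0) : a = C (coeff 0 a) := by
  rw [← weightedHomogeneousComponent_zero (w := (1 : IA m → ℕ)) a (fun i => by simp),
    weightedHomogeneousComponent_eq_self ha]

omit hp in
theorem weight_one (d : IA m →₀ ℕ) : Finsupp.weight (1 : IA m → ℕ) d = ∑ i, d i := by
  rw [Finsupp.weight_apply, Finsupp.sum_fintype _ _ (by simp)]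
  simp

theorem monomial_prod (d : IA m →₀ ℕ) (c : LL m r) :
    (monomial d c : AA m r) = C c * ∏ i, X i ^ d i := by
  rw [monomial_eq, Finsupp.prod_fintype _ _ (by simp)]

theorem dehom_gen (T : Subring (EE m r)) (i₀ : IA m) (hL : ∀ l, jL m r l ∈ T)
    (hX : ∀ i, xv m r i / xv m r i₀ ∈ T) {j : ℕ} {a : AA m r} (ha : a ∈ AG m r j) :
    jA m r a / xv m r i₀ ^ j ∈ T := by
  induction ha using IsWeightedHomogeneous.induction_on with
  | zero => simp
  | add p q hp hq h3 h4 => rw [map_add, add_div]; exact add_mem h3 h4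
  | monomial d c hc =>
    have : jA m r (monomial d c) / xv m r i₀ ^ j =
        jL m r c * ∏ i, (xv m r i / xv m r i₀) ^ d i := by
      rw [monomial_prod, ← hc, weight_one]
      simp only [map_mul, map_prod, map_pow, jA_X, jA_C, div_pow, Finset.prod_div_distrib,
        Finset.prod_pow_eq_pow_sum, mul_div_assoc]
    rw [this]
    exact mul_mem (hL c) (prod_mem fun i _ => pow_mem (hX i) _)

theorem mem_of_X_mem (Q : Ideal (AA m r)) (hQ : ∀ i, X i ∈ Q) {d : ℕ} (hd : 0 < d) {a : AA m r}
    (ha : a ∈ AG m r d) : a ∈ Q := by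
  induction ha using IsWeightedHomogeneous.induction_on with
  | zero => exact zero_mem _
  | add p q _ _ hp hq => exact add_mem hp hq
  | monomial e c hc =>
    rw [weight_one] at hc
    obtain ⟨i, -, hi⟩ := Finset.exists_ne_zero_of_sum_ne_zero (hc.trans_ne hd.ne')
    rw [monomial_prod]
    exact Q.mul_mem_left _ (Q.mem_of_dvd (Finset.dvd_prod_of_mem _ (Finset.mem_univ i))
      (Q.pow_mem_of_mem (hQ i) _ (Nat.pos_of_ne_zero hi)))

/-- Pairs consisting of a function on an affine chart and of its image under a substitution. -/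
def Rel (j : IA m) (ev : AA m r →+* AA m r) (hev : ev (X j) = X j) :
    Subring (EE m r × EE m r) where
  carrier := {q | ∃ d, ∃ a ∈ AG m r d,
    q.1 = jA m r a / xv m r j ^ d ∧ q.2 = jA m r (ev a) / xv m r j ^ d}
  mul_mem' := by
    rintro q q' ⟨d, a, ha, h1, h2⟩ ⟨d', a', ha', h1', h2'⟩
    refine ⟨d + d', a * a', AG_mul ha ha', ?_, ?_⟩
    · rw [Prod.fst_mul, h1, h1', map_mul, pow_add, mul_div_mul_comm]
    · rw [Prod.snd_mul, h2, h2', map_mul, map_mul, pow_add, mul_div_mul_comm]
  one_mem' := ⟨0, 1, AG_C 1, by simp, by simp⟩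
  add_mem' := by
    rintro q q' ⟨d, a, ha, h1, h2⟩ ⟨d', a', ha', h1', h2'⟩
    have hx := xv_ne_zero (r := r) j
    refine ⟨d + d', a * X j ^ d' + X j ^ d * a',
      add_mem (AG_mul ha (AG_X_pow j d')) (AG_mul (AG_X_pow j d) ha'), ?_, ?_⟩
    · rw [Prod.fst_add, h1, h1']
      simp only [map_add, map_mul, map_pow, jA_X, pow_add]
      field_simp
    · rw [Prod.snd_add, h2, h2']
      simp only [map_add, map_mul, map_pow, jA_X, pow_add, hev]
      field_simp
  zero_mem' := ⟨0, 0, zero_mem _, by simp, by simp⟩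
  neg_mem' := by
    rintro q ⟨d, a, ha, h1, h2⟩
    exact ⟨d, -a, neg_mem ha, by rw [Prod.fst_neg, h1, map_neg, neg_div],
      by rw [Prod.snd_neg, h2, map_neg, map_neg, neg_div]⟩

theorem finite_LL (K : Subfield (LL m r)) (hK : ∀ i, gL m r i ^ (m + 2) ∈ K) :
    Module.Finite K (LL m r) := by
  have h1 : FiniteDimensional K (IntermediateField.adjoin K (Set.range (gL m r))) := by
    apply IntermediateField.finiteDimensional_adjoin
    rintro _ ⟨i, rfl⟩
    exact IsIntegral.of_pow (Nat.succ_pos (m + 1)) (isIntegral_algebraMap (x := (⟨_, hK i⟩ : K)))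
  have h2 : IntermediateField.adjoin K (Set.range (gL m r)) = ⊤ := by
    rw [eq_top_iff]
    intro l _
    exact mem_of_subfield_LL (RingHom.id _)
      (IntermediateField.adjoin K (Set.range (gL m r))).toSubfield
      (fun i => IntermediateField.subset_adjoin _ _ ⟨i, rfl⟩) l
  rw [h2] at h1
  exact Module.Finite.equiv IntermediateField.topEquiv.toLinearEquiv

variable [hm : NeZero m]

instance : Module.Finite (KK m r) (LL m r) := finite_LL _ fun _ => pow_mem_KK _

theorem KK_fg : ∃ s : Finset (KK m r), Subfield.closure (s : Set (KK m r)) = ⊤ := by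
  classical
  let K₀ : Subfield (LL m r) := Subfield.closure (Set.range fun i => gL m r i ^ (m + 2))
  have h0 : K₀ ≤ KK m r := by
    rw [Subfield.closure_le]
    rintro _ ⟨i, rfl⟩
    exact pow_mem_KK _
  have h1 : Module.Finite K₀ (LL m r) := finite_LL _ fun i => Subfield.subset_closure ⟨i, rfl⟩
  let N : Submodule K₀ (LL m r) :=
    { (KK m r).toAddSubmonoid with
      smul_mem' := fun c x hx => mul_mem (h0 c.2) (show x ∈ KK m r from hx) }
  obtain ⟨s, hs⟩ := (Submodule.fg_iff_finiteDimensional N).mpr inferInstance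
  have hsN : ∀ x ∈ s, x ∈ KK m r := fun x hx => show x ∈ N from hs ▸ Submodule.subset_span hx
  let t : Finset (KK m r) := Finset.univ.image (fun i => ⟨_, pow_mem_KK (gL m r i)⟩) ∪
    s.attach.image fun x => ⟨x.1, hsN x.1 x.2⟩
  refine ⟨t, eq_top_iff.mpr fun κ _ => ?_⟩
  let T := (Subfield.closure (t : Set (KK m r))).map (KK m r).subtype
  have h2 : K₀ ≤ T := by
    rw [Subfield.closure_le]
    rintro _ ⟨i, rfl⟩
    exact ⟨⟨_, pow_mem_KK (gL m r i)⟩, Subfield.subset_closure (by simp [t]), rfl⟩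
  have h3 : ∀ x ∈ Submodule.span K₀ (s : Set (LL m r)), x ∈ T := by
    intro x hx
    induction hx using Submodule.span_induction with
    | mem x hx =>
      exact ⟨⟨x, hsN x hx⟩, Subfield.subset_closure (by simp [t, Finset.mem_coe.mp hx]), rfl⟩
    | zero => exact zero_mem _
    | add x y _ _ hx hy => exact add_mem hx hy
    | smul c x _ hx => exact mul_mem (h2 c.2) hx
  obtain ⟨κ', h4, h5⟩ := h3 κ (hs ▸ κ.2)
  rwa [← show κ' = κ from Subtype.ext h5]

namespace Chart

variable (ch : Chart m r)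

omit hm in
theorem dehom {j : ℕ} {a : AA m r} (ha : a ∈ AG m r j) : jA m r a / xx m r ch.i0 ^ j ∈ ch.G :=
  dehom_gen _ _ (fun l => Subring.subset_closure (Or.inl ⟨l, rfl⟩))
    (fun i => Subring.subset_closure (Or.inr ⟨i, rfl⟩)) ha

omit hm in
theorem hom {f : EE m r} (hf : f ∈ ch.G) :
    ∃ d, ∃ a ∈ AG m r d, f = jA m r a / xx m r ch.i0 ^ d := by
  have : ch.G ≤ (Rel (.inl ch.i0) (RingHom.id (AA m r)) rfl).map (RingHom.fst _ _) := by
    rw [G, Subring.closure_le]
    rintro _ (⟨l, rfl⟩ | ⟨i, rfl⟩)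
    · exact ⟨(jL m r l, jL m r l), ⟨0, C l, AG_C l, by simp [jA_C], by simp [jA_C]⟩, rfl⟩
    · exact ⟨(xv m r i / xx m r ch.i0, xv m r i / xx m r ch.i0),
        ⟨1, X i, AG_X i, by simp [jA_X], by simp [jA_X]⟩, rfl⟩
  obtain ⟨q, ⟨d, a, ha, h, -⟩, rfl⟩ := this hf
  exact ⟨d, a, ha, h⟩

theorem pow_mem_of_mem_G {g : EE m r} (hg : g ∈ ch.G) : g ^ (m + 2) ∈ FF m r := by
  have : ch.G ≤ (FF m r).toSubring.comap (frobenius (EE m r) (m + 2)) := by
    rw [G, Subring.closure_le]
    rintro _ (⟨l, rfl⟩ | ⟨i | j, rfl⟩)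
    · exact pow_LL_mem l
    · exact pow_mem (xx_div_mem _ _) _
    · change (zz m r j / xx m r ch.i0) ^ (m + 2) ∈ FF m r
      rw [← inv_div, inv_pow, ← ch.coe_h]
      exact inv_mem (ch.h j).2
  exact this hg

end Chart

variable (m r) in
/-- The graded pieces of the ring of the foliation quotient. -/
noncomputable def RR (j : ℕ) : Submodule (KK m r) (AA m r) where
  carrier := {a | a ∈ AG m r j ∧ jA m r a / xx m r 0 ^ j ∈ FF m r}
  add_mem' := by
    rintro a b ⟨ha, ha'⟩ ⟨hb, hb'⟩
    exact ⟨add_mem ha hb, by rw [map_add, add_div]; exact add_mem ha' hb'⟩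
  zero_mem' := ⟨zero_mem _, by simp⟩
  smul_mem' := by
    rintro κ a ⟨ha, ha'⟩
    refine ⟨(AG m r j).smul_mem (κ : LL m r) ha, ?_⟩
    change jA m r ((κ : LL m r) • a) / _ ∈ _
    rw [smul_eq_C_mul, map_mul, jA_C, mul_div_assoc]
    exact mul_mem κ.2 ha'

theorem RR_mul {i j : ℕ} {a b : AA m r} (ha : a ∈ RR m r i) (hb : b ∈ RR m r j) :
    a * b ∈ RR m r (i + j) :=
  ⟨AG_mul ha.1 hb.1, by rw [map_mul, pow_add, mul_div_mul_comm]; exact mul_mem ha.2 hb.2⟩

theorem RR_one : (1 : AA m r) ∈ RR m r 0 := ⟨AG_C 1, by simp⟩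

instance : SetLike.GradedMonoid (RR m r) where
  one_mem := RR_one
  mul_mem _ _ _ _ := RR_mul

theorem RR_pow {i : ℕ} {a : AA m r} (ha : a ∈ RR m r i) (k : ℕ) : a ^ k ∈ RR m r (k * i) :=
  SetLike.pow_mem_graded k ha

theorem RR_pw {i : ℕ} {a : AA m r} (ha : a ∈ AG m r i) :
    a ^ (m + 2) ∈ RR m r ((m + 2) * i) :=
  ⟨AG_pow ha _, by
    rw [map_pow, pow_mul', ← div_pow]
    exact (chart0 m r).pow_mem_of_mem_G ((chart0 m r).dehom ha)⟩

theorem RR_X (i : Fin 2) : (X (.inl i) : AA m r) ∈ RR m r 1 :=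
  ⟨AG_X _, by rw [pow_one]; exact xx_div_mem i 0⟩

theorem RR_X_pow (i : Fin 2) (k : ℕ) : (X (.inl i) ^ k : AA m r) ∈ RR m r k := by
  simpa using RR_pow (RR_X (m := m) (r := r) i) k

theorem RR_Xp (i : IA m) : (X i ^ (m + 2) : AA m r) ∈ RR m r (m + 2) := by
  simpa using RR_pw (AG_X (r := r) i)

theorem div_mem_FF {j : ℕ} {a b : AA m r} (ha : a ∈ RR m r j) (hb : b ∈ RR m r j) :
    jA m r a / jA m r b ∈ FF m r := by
  have := div_mem ha.2 hb.2
  rwa [div_div_div_cancel_right₀ (pow_ne_zero _ (xv_ne_zero _))] at this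

theorem mem_RR_of_div {j : ℕ} {a b : AA m r} (ha : a ∈ AG m r j) (hb : b ∈ RR m r j)
    (hb0 : b ≠ 0) (h : jA m r a / jA m r b ∈ FF m r) : a ∈ RR m r j := by
  refine ⟨ha, ?_⟩
  have h0 : jA m r b ≠ 0 := (map_ne_zero_iff _ jA_inj).mpr hb0
  have := mul_mem h hb.2
  rwa [div_mul_div_cancel₀ h0] at this

theorem RR_zero {a : AA m r} (ha : a ∈ RR m r 0) :
    ∃ κ : KK m r, algebraMap (KK m r) (AA m r) κ = a := by
  have h1 := AG_zero ha.1
  have h2 := ha.2
  rw [pow_zero, div_one, h1, jA_C] at h2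
  exact ⟨⟨coeff 0 a, h2⟩, h1.symm⟩

theorem finite_of_le_AG {j : ℕ} (N : Submodule (KK m r) (AA m r))
    (hN : ∀ a ∈ N, a ∈ AG m r j) : Module.Finite (KK m r) N := by
  have h1 : Module.Finite (LL m r) (AG m r j) :=
    Module.Finite.iff_fg.mpr (weightedHomogeneousSubmodule_fg _ _ (fun i => by simp) j)
  have h2 : Module.Finite (KK m r) (AG m r j) := Module.Finite.trans (LL m r) _
  have h3 : ((AG m r j).restrictScalars (KK m r)).FG := Module.Finite.iff_fg.mp h2
  have h4 : FiniteDimensional (KK m r) ((AG m r j).restrictScalars (KK m r)) :=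
    Module.Finite.iff_fg.mpr h3
  exact @Submodule.finiteDimensional_of_le _ _ _ _ _ _
    ((AG m r j).restrictScalars (KK m r)) h4 hN

theorem iSupIndep_of_le {n : ℕ} (hn : 0 < n) (ℬ : ℕ → Submodule (KK m r) (AA m r))
    (h : ∀ j, ∀ a ∈ ℬ j, a ∈ AG m r (n * j)) : iSupIndep ℬ := by
  intro i
  rw [Submodule.disjoint_def]
  intro a ha ha'
  have h1 : ∀ b ∈ (⨆ (j) (_ : j ≠ i), ℬ j),
      weightedHomogeneousComponent (1 : IA m → ℕ) (n * i) b = 0 := by
    have : (⨆ (j) (_ : j ≠ i), ℬ j) ≤ LinearMap.ker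
        ((weightedHomogeneousComponent (1 : IA m → ℕ) (n * i)).restrictScalars (KK m r)) := by
      refine iSup₂_le fun j hj b hb => ?_
      exact IsWeightedHomogeneous.weightedHomogeneousComponent_ne _ (h j b hb)
        fun h' => hj (Nat.eq_of_mul_eq_mul_left hn h').symm
    exact fun b hb => this hb
  rw [← weightedHomogeneousComponent_eq_self (h i a ha)]
  exact h1 a ha'

theorem exists_bound : ∃ D : ℕ, ∀ j, D ≤ j →
    RR m r (m + 2 + j) ≤ RR m r (m + 2) * RR m r j := by
  let P := MvPolynomial (IA m) (KK m r)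
  let ψ : P →ₐ[KK m r] AA m r := aeval fun i => X i ^ (m + 2)
  let _ : Algebra P (AA m r) := ψ.toRingHom.toAlgebra
  have hX : ∀ i, ψ (X i) = X i ^ (m + 2) := fun i => aeval_X _ i
  have : IsScalarTower (KK m r) P (AA m r) :=
    IsScalarTower.of_algebraMap_eq fun κ => (ψ.commutes κ).symm
  have hft0 : Algebra.FiniteType (KK m r) (AA m r) :=
    Algebra.FiniteType.trans (S := LL m r) inferInstance inferInstance
  have hft : Algebra.FiniteType P (AA m r) :=
    Algebra.FiniteType.of_restrictScalars_finiteType (KK m r) _ _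
  have hint : Algebra.IsIntegral P (AA m r) := by
    refine ⟨fun a => IsIntegral.of_pow (Nat.succ_pos (m + 1)) ?_⟩
    have : a ^ (m + 2) ∈ ψ.range := by
      induction a using MvPolynomial.induction_on with
      | C l =>
        rw [← map_pow]
        exact ψ.range.algebraMap_mem (⟨l ^ (m + 2), pow_mem_KK l⟩ : KK m r)
      | add p q hp hq => rw [add_pow_char]; exact add_mem hp hq
      | mul_X p i hp =>
        rw [mul_pow]
        exact mul_mem hp ⟨X i, hX i⟩
    obtain ⟨p, hp⟩ := this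
    exact hp ▸ isIntegral_algebraMap (x := p)
  have hfin : Module.Finite P (AA m r) := Algebra.IsIntegral.finite
  let N : ℕ →o Submodule P (AA m r) :=
    ⟨fun D => Submodule.span P {a | ∃ d < D, a ∈ RR m r d}, fun D D' h =>
      Submodule.span_mono fun a ⟨d, hd, ha⟩ => ⟨d, hd.trans_le h, ha⟩⟩
  obtain ⟨D, hD⟩ :=
    monotone_stabilizes_iff_noetherian.mpr (inferInstance : IsNoetherian P (AA m r)) N
  refine ⟨D, fun j hj a ha => ?_⟩
  set U := Submodule.span (KK m r) {x | (∃ d < D, x ∈ RR m r d) ∨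
    ∃ d, ∃ u ∈ RR m r (m + 2), ∃ w ∈ RR m r d, x = u * w}
  have hmono : ∀ i, ∀ x ∈ U, X i ^ (m + 2) * x ∈ U := by
    intro i x hx
    induction hx using Submodule.span_induction with
    | mem x hx =>
      rcases hx with ⟨d, -, hx⟩ | ⟨d, u, hu, w, hw, rfl⟩
      · exact Submodule.subset_span (Or.inr ⟨d, _, RR_Xp i, x, hx, rfl⟩)
      · exact Submodule.subset_span (Or.inr ⟨_, _, RR_Xp i, _, RR_mul hu hw, rfl⟩)
    | zero => simp
    | add x y _ _ hx hy => rw [mul_add]; exact add_mem hx hy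
    | smul κ x _ hx => rw [mul_smul_comm]; exact U.smul_mem κ hx
  have hP : ∀ (p : P), ∀ x ∈ U, ψ p * x ∈ U := by
    intro p
    induction p using MvPolynomial.induction_on with
    | C κ =>
      intro x hx
      rw [show ψ (C κ) = algebraMap (KK m r) (AA m r) κ from ψ.commutes κ, ← Algebra.smul_def]
      exact U.smul_mem κ hx
    | add p q hp hq => intro x hx; rw [map_add, add_mul]; exact add_mem (hp x hx) (hq x hx)
    | mul_X p i hp =>
      intro x hx
      rw [map_mul, mul_assoc, hX]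
      exact hp _ (hmono i x hx)
  have h1 : a ∈ N D := by
    rw [hD (m + 2 + j + 1) (by omega)]
    exact Submodule.subset_span ⟨_, Nat.lt_succ_self _, ha⟩
  change a ∈ Submodule.span P {a | ∃ d < D, a ∈ RR m r d} at h1
  have h2 : a ∈ U := by
    clear ha
    induction h1 using Submodule.span_induction with
    | mem x hx => exact Submodule.subset_span (Or.inl hx)
    | zero => exact zero_mem _
    | add x y _ _ hx hy => exact add_mem hx hy
    | smul p x _ hx => exact hP p x hx
  rw [← weightedHomogeneousComponent_eq_self ha.1]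
  clear ha h1
  induction h2 using Submodule.span_induction with
  | mem x hx =>
    rcases hx with ⟨d, hd, hx⟩ | ⟨d, u, hu, w, hw, rfl⟩
    · rw [weightedHomogeneousComponent_of_mem hx.1, if_neg (by omega)]
      exact zero_mem _
    · rw [weightedHomogeneousComponent_of_mem (RR_mul hu hw).1]
      split_ifs with h
      · rw [show j = d by omega]
        exact Submodule.mul_mem_mul hu hw
      · exact zero_mem _
  | zero => simp
  | add x y _ _ hx hy => rw [map_add]; exact add_mem hx hy
  | smul κ x _ hx =>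
    rw [LinearMap.map_smul_of_tower]
    exact Submodule.smul_mem _ κ hx

theorem exists_kappa : ∃ κ : ℕ, 0 < κ ∧ ∀ J, RR m r ((m + 2) * κ * (J + 2)) ≤
    RR m r ((m + 2) * κ * 1) * RR m r ((m + 2) * κ * (J + 1)) := by
  obtain ⟨D, hD⟩ := exists_bound (m := m) (r := r)
  have h1 : ∀ k j, D ≤ j → RR m r ((m + 2) * (k + 1) + j) ≤
      RR m r ((m + 2) * (k + 1)) * RR m r j := by
    intro k
    induction k with
    | zero => simpa using hD
    | succ k ih =>
      intro j hj
      rw [show (m + 2) * (k + 1 + 1) + j = m + 2 + ((m + 2) * (k + 1) + j) by ring]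
      refine (hD _ (by omega)).trans ((mul_le_mul_right (ih j hj) _).trans ?_)
      rw [← mul_assoc]
      refine mul_le_mul_left (Submodule.mul_le.mpr fun u hu w hw => ?_) _
      rw [show (m + 2) * (k + 1 + 1) = m + 2 + (m + 2) * (k + 1) by ring]
      exact RR_mul hu hw
  refine ⟨D + 1, Nat.succ_pos _, fun J => ?_⟩
  rw [show (m + 2) * (D + 1) * (J + 2) = (m + 2) * (D + 1) + (m + 2) * (D + 1) * (J + 1) by ring,
    mul_one]
  exact h1 D _ (by nlinarith [Nat.zero_le (m * D * J), Nat.zero_le (m * D), Nat.zero_le (D * J)])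

end Pool.Agent.Work.MP_a77660_ag.Hedge
end

-- merged part: Pool.Agent.Work.MP_a77660_ag.Hedge.Surf1
section
/-!
The variety and its points.
-/

namespace Pool.Agent.Work.MP_a77660_ag.Hedge

open MvPolynomial AlgebraicGeometry CategoryTheory Order

set_option backward.isDefEq.respectTransparency false

variable (m r : ℕ) [hp : Fact (m + 2).Prime] [hm : NeZero m]

/-- The integer defining the Veronese subring. -/
noncomputable def kapp : ℕ := (exists_kappa (m := m) (r := r)).choose

/-- The degree of the Veronese subring. -/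
noncomputable def mm : ℕ := (m + 2) * kapp m r

theorem kapp_pos : 0 < kapp m r := (exists_kappa (m := m) (r := r)).choose_spec.1

theorem le_mm : m + 2 ≤ mm m r := Nat.le_mul_of_pos_right _ (kapp_pos m r)

theorem mm_pos : 0 < mm m r := lt_of_lt_of_le (Nat.succ_pos _) (le_mm m r)

/-- The graded pieces of the Veronese subring. -/
noncomputable def BB (j : ℕ) : Submodule (KK m r) (AA m r) := RR m r (mm m r * j)

theorem BB_gen (J : ℕ) : BB m r (J + 2) ≤ BB m r 1 * BB m r (J + 1) :=
  (exists_kappa (m := m) (r := r)).choose_spec.2 J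

instance : SetLike.GradedMonoid (BB m r) where
  one_mem := RR_one
  mul_mem i j _ _ ha hb := by
    rw [BB, mul_add]
    exact RR_mul ha hb

instance : Fact (iSupIndep (BB m r)) := ⟨iSupIndep_of_le (mm_pos m r) _ fun _ _ h => h.1⟩

/-- The homogeneous coordinate ring of the variety. -/
abbrev RB : Type := SR (BB m r)

/-- The grading of the homogeneous coordinate ring. -/
noncomputable abbrev GB : ℕ → Submodule (KK m r) (RB m r) := SG (BB m r)

/-- The variety. -/
noncomputable abbrev XX : Scheme.{0} := Proj (GB m r)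

/-- The embedding of the coordinate ring in the big field. -/
noncomputable def jB : RB m r →+* EE m r := (jA m r).comp vS

theorem jB_inj : Function.Injective (jB m r) := jA_inj.comp vS_inj

variable {m r}

theorem jB_apply (a : RB m r) : jB m r a = jA m r (vS a) := rfl

theorem mem_GB {j : ℕ} {a : RB m r} : a ∈ GB m r j ↔ vS a ∈ RR m r (mm m r * j) := Iff.rfl

/-- An element of the coordinate ring. -/
noncomputable def mkB {j : ℕ} (a : AA m r) (ha : a ∈ RR m r (mm m r * j)) : RB m r :=
  mkS (ℬ := BB m r) (j := j) a ha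

theorem mkB_mem {j : ℕ} (a : AA m r) (ha : a ∈ RR m r (mm m r * j)) : mkB a ha ∈ GB m r j := ha

@[simp] theorem coe_mkB {j : ℕ} (a : AA m r) (ha : a ∈ RR m r (mm m r * j)) :
    vS (mkB a ha) = a := rfl

theorem pow_mem_RR {d : ℕ} {a : AA m r} (ha : a ∈ AG m r d) :
    a ^ mm m r ∈ RR m r (mm m r * d) := by
  rw [mm, pow_mul, mul_comm (m + 2) (kapp m r), mul_assoc]
  exact RR_pow (RR_pw ha) _

variable (m r) in
/-- The powers of the variables in degree one. -/
noncomputable def xB (i : IA m) : RB m r := mkB (X i ^ mm m r) (pow_mem_RR (AG_X i))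

theorem xB_mem (i : IA m) : xB m r i ∈ GB m r 1 := mkB_mem _ _

theorem coe_xB (i : IA m) : vS (xB m r i) = X i ^ mm m r := rfl

theorem jB_xB (i : IA m) : jB m r (xB m r i) = xv m r i ^ mm m r := by
  rw [jB_apply, coe_xB, map_pow, jA_X]

theorem xB_ne_zero (i : IA m) : xB m r i ≠ 0 := fun h =>
  pow_ne_zero _ (X_ne_zero i) ((coe_xB i).symm.trans (by rw [h, map_zero]))

theorem hposB : ∃ i, 0 < i ∧ ∃ a ∈ GB m r i, a ≠ 0 :=
  ⟨1, one_pos, xB m r (.inl 0), xB_mem _, xB_ne_zero _⟩

instance : IsIntegral (XX m r) := isIntegral_proj hposB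

theorem GB_zero : ∀ a ∈ GB m r 0, ∃ κ, algebraMap (KK m r) (RB m r) κ = a := by
  intro a ha
  obtain ⟨κ, hκ⟩ := RR_zero (mem_GB.mp ha)
  exact ⟨κ, vS_inj hκ⟩

theorem isProjective_XX : IsProjectiveOver (structMap (GB m r)) :=
  isProjectiveOver_structMap _
    (SG_finite (finite_of_le_AG _ fun _ h => h.1)) GB_zero fun j => SG_gen (BB_gen m r j)

instance : IsProper (structMap (GB m r)) := isProjective_XX.isProper

instance : IsLocallyNoetherian (XX m r) :=
  LocallyOfFiniteType.isLocallyNoetherian (structMap (GB m r))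

noncomputable instance : Algebra (RB m r) (AA m r) := vS.toAlgebra

instance : FaithfulSMul (RB m r) (AA m r) :=
  (faithfulSMul_iff_algebraMap_injective _ _).mpr vS_inj

instance : Algebra.IsIntegral (RB m r) (AA m r) := by
  refine ⟨fun a => ?_⟩
  have h : ∀ d, ∀ a ∈ AG m r d, IsIntegral (RB m r) a := fun d a ha =>
    IsIntegral.of_pow (mm_pos m r) (isIntegral_algebraMap (x := mkB _ (pow_mem_RR ha)))
  induction a using MvPolynomial.induction_on with
  | C l => exact h 0 _ (AG_C l)
  | add p q hp hq => exact hp.add hq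
  | mul_X p i hp => exact hp.mul (h _ _ (AG_X i))

theorem exists_over (x : XX m r) : ∃ Q : Ideal (AA m r), Q.IsPrime ∧
    ∀ a : RB m r, a ∈ x.asHomogeneousIdeal ↔ vS a ∈ Q := by
  have := x.isPrime
  obtain ⟨Q, hQ, h⟩ := Ideal.exists_ideal_over_prime_of_isIntegral_of_isDomain (S := AA m r)
    x.asHomogeneousIdeal.toIdeal (by
      rw [(RingHom.injective_iff_ker_eq_bot (algebraMap (RB m r) (AA m r))).mp vS_inj]
      exact bot_le)
  refine ⟨Q, hQ, fun a => ?_⟩
  change a ∈ x.asHomogeneousIdeal.toIdeal ↔ _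
  rw [← h]
  rfl

theorem exists_xB_not_mem (x : XX m r) : ∃ i, xB m r i ∉ x.asHomogeneousIdeal := by
  by_contra! h
  obtain ⟨Q, hQ, hQ'⟩ := exists_over x
  obtain ⟨d, hd, a, ha, hax⟩ := exists_pos_not_mem x
  refine hax ((hQ' a).mpr
    (mem_of_X_mem Q (fun i => ?_) (Nat.mul_pos (mm_pos m r) hd) (mem_GB.mp ha).1))
  exact hQ.mem_of_pow_mem _ ((hQ' _).mp (h i))

instance (i : IA m) : (Ideal.span {(X i : AA m r)}).IsPrime :=
  (Ideal.span_singleton_prime (X_ne_zero i)).mpr X_prime

theorem not_dvd_xB {i j : IA m} (h : i ≠ j) : ¬ (X i : AA m r) ∣ vS (xB m r j) := fun h' =>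
  h (X_dvd_X.mp (X_prime.dvd_of_dvd_pow h'))

variable (m r) in
/-- The point of the variety given by the vanishing of a variable. -/
noncomputable def ptB (i : Fin 2) : XX m r :=
  corePoint ((Ideal.span {(X (.inl i) : AA m r)}).comap vS)
    ⟨1, one_pos, xB m r (.inl (i + 1)), xB_mem _, fun h => not_dvd_xB (by fin_cases i <;> simp)
      (Ideal.mem_span_singleton.mp h)⟩

theorem mem_ptB (i : Fin 2) {j : ℕ} {a : RB m r} (ha : a ∈ GB m r j) :
    a ∈ (ptB m r i).asHomogeneousIdeal ↔ (X (.inl i) : AA m r) ∣ vS a :=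
  (mem_corePoint _ _ ha).trans Ideal.mem_span_singleton

theorem xB_mem_ptB (i : Fin 2) : xB m r (.inl i) ∈ (ptB m r i).asHomogeneousIdeal :=
  (mem_ptB i (xB_mem _)).mpr (dvd_pow_self _ (mm_pos m r).ne')

theorem xB_not_mem_ptB {i j : Fin 2} (h : i ≠ j) :
    xB m r (.inl j) ∉ (ptB m r i).asHomogeneousIdeal :=
  fun h' => not_dvd_xB (fun h'' => h (Sum.inl_injective h'')) ((mem_ptB i (xB_mem _)).mp h')

theorem ptB_ne_bot (i : Fin 2) : (ptB m r i).asHomogeneousIdeal ≠ ⊥ := fun h => by
  have := xB_mem_ptB (m := m) (r := r) i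
  rw [h] at this
  exact xB_ne_zero _ this

theorem ptB_le {i : Fin 2} {x : XX m r} (h : xB m r (.inl i) ∈ x.asHomogeneousIdeal) :
    (ptB m r i).asHomogeneousIdeal ≤ x.asHomogeneousIdeal := by
  obtain ⟨Q, hQ, hQ'⟩ := exists_over x
  refine homIdeal_le fun j a ha hai => (hQ' a).mpr ?_
  exact Q.mem_of_dvd ((mem_ptB i ha).mp hai) (hQ.mem_of_pow_mem _ ((hQ' _).mp h))

theorem coheight_ptB (i : Fin 2) : coheight (ptB m r i) = 1 := by
  refine coheight_eq_one hposB _ (ptB_ne_bot i) fun y hy => ?_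
  have h1 : xB m r (.inl i) ∉ y.asHomogeneousIdeal := fun h => hy.not_ge (ptB_le h)
  obtain ⟨Q, hQ, hQ'⟩ := exists_over y
  have h2 : X (.inl i) ∉ Q := fun h => h1 ((hQ' _).mpr (Q.pow_mem_of_mem h _ (mm_pos m r)))
  refine le_antisymm (homIdeal_le fun j a ha hay => ?_) bot_le
  by_contra h0
  have h3 : vS a ≠ 0 := fun h => h0 (show a = 0 from vS_inj (by rw [h, map_zero]))
  obtain ⟨k, b, hb, hab⟩ :=
    WfDvdMonoid.max_power_factor h3 (X_prime (i := (.inl i : IA m))).irreducible
  have hb1 : b ∈ Q := by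
    have := (hQ' a).mp hay
    rw [hab] at this
    exact (hQ.mem_or_mem this).resolve_left fun h => h2 (hQ.mem_of_pow_mem _ h)
  have hb2 := AG_of_mul (AG_X_pow _ k) (pow_ne_zero _ (X_ne_zero _)) (hab ▸ (mem_GB.mp ha).1)
  have hb3 : mkB _ (pow_mem_RR hb2) ∈ y.asHomogeneousIdeal :=
    (hQ' _).mpr (Q.pow_mem_of_mem hb1 _ (mm_pos m r))
  exact hb (X_prime.dvd_of_dvd_pow ((mem_ptB i (mkB_mem _ _)).mp (hy.le hb3)))

theorem eq_ptB {i : Fin 2} {x : XX m r} (hx : coheight x = 1)
    (h : xB m r (.inl i) ∈ x.asHomogeneousIdeal) : ptB m r i = x :=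
  eq_of_coheight_eq_one hposB hx (ptB_ne_bot i) (ptB_le h)

theorem dim_XX : topologicalKrullDim (XX m r) = (m + 1 : ℕ) := by
  rw [topologicalKrullDim_eq_krullDim]
  apply le_antisymm
  · let P : Ideal (RB m r) := RingHom.ker ((constantCoeff : AA m r →+* LL m r).comp vS)
    have : P.IsPrime := RingHom.ker_isPrime _
    have h1 := krullDim_proj_le (𝒜 := GB m r) GB_zero P fun i hi a ha =>
      mem_of_X_mem (RingHom.ker (constantCoeff : AA m r →+* LL m r)) (fun i => by simp)
        (Nat.mul_pos (mm_pos m r) hi) (mem_GB.mp ha).1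
    have h2 : ringKrullDim (RB m r) ≤ ringKrullDim (AA m r) := ringKrullDim_le_of_isIntegral
    rw [MvPolynomial.ringKrullDim_of_isNoetherianRing, ringKrullDim_eq_zero_of_field] at h2
    have h3 := h1.trans h2
    simp only [Nat.card_eq_fintype_card, Fintype.card_sum, Fintype.card_fin, zero_add] at h3
    generalize krullDim (XX m r) = d at h3
    induction d with
    | bot => exact bot_le
    | coe d =>
      induction d with
      | top =>
        have h4 : ((⊤ : ℕ∞) : WithBot ℕ∞) ≤ ((2 + m : ℕ) : ℕ∞) := h3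
        exact absurd (WithBot.coe_le_coe.mp h4) (by simp)
      | coe d =>
        have h4 : ((d + 1 : ℕ) : WithBot ℕ∞) ≤ (2 + m : ℕ) := h3
        have h5 : d ≤ m + 1 := by
          have := Nat.cast_le.mp h4
          omega
        exact (Nat.cast_le (α := WithBot ℕ∞)).mpr h5
  · let e : IA m ≃ Fin (2 + m) := finSumFinEquiv
    let ev : ℕ → AA m r →ₐ[LL m r] AA m r := fun k =>
      aeval fun i => if (e i : ℕ) < k then 0 else X i
    let P : ℕ → Ideal (RB m r) := fun k => RingHom.ker ((ev k).toRingHom.comp vS)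
    have hP' : ∀ k, (P k).IsPrime := fun k => RingHom.ker_isPrime _
    have hP : ∀ k a, a ∈ P k ↔ ev k (vS a) = 0 := fun _ _ => Iff.rfl
    have hx : ∀ k i, xB m r i ∈ P k ↔ (e i : ℕ) < k := fun k i => by
      rw [hP, coe_xB, map_pow, aeval_X]
      split_ifs with h
      · simp [h, (mm_pos m r).ne']
      · simp [h]
    let x : Fin (m + 2) → XX m r := fun k => corePoint (P k)
      ⟨1, one_pos, xB m r (e.symm ⟨k, by omega⟩), xB_mem _, by simp [hx]⟩
    have hlt : ∀ k l : Fin (m + 2), k < l → x l < x k := by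
      intro k l hkl
      rw [lt_iff]
      refine lt_of_le_of_ne (homIdeal_le fun j a ha h => ?_) fun h => ?_
      · rw [mem_corePoint _ _ ha, hP] at h ⊢
        have h1 : (ev l).comp (ev k) = ev l := by
          ext i
          simp only [ev, AlgHom.comp_apply, aeval_X]
          split_ifs with h2 h3
          · simp
          · omega
          · simp [*]
          · simp [*]
        rw [← h1, AlgHom.comp_apply, h, map_zero]
      · have h1 : xB m r (e.symm ⟨k, by omega⟩) ∈ (x l).asHomogeneousIdeal :=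
          (mem_corePoint _ _ (xB_mem _)).mpr (by simpa [hx] using hkl)
        rw [← h, mem_corePoint _ _ (xB_mem _), hx] at h1
        simp at h1
    exact LTSeries.length_le_krullDim (LTSeries.mk (m + 1) (fun k => x k.rev)
      fun k l h => hlt _ _ (Fin.rev_lt_rev.mpr h))

end Pool.Agent.Work.MP_a77660_ag.Hedge
end

-- merged part: Pool.Agent.Work.MP_a77660_ag.Hedge.Surf2
section
/-!
Function field, normality and global functions of the variety.
-/

namespace Pool.Agent.Work.MP_a77660_ag.Hedge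

open MvPolynomial AlgebraicGeometry CategoryTheory Order

set_option backward.isDefEq.respectTransparency false

variable {m r : ℕ} [hp : Fact (m + 2).Prime]

instance : FaithfulSMul (AA m r) (EE m r) :=
  (faithfulSMul_iff_algebraMap_injective _ _).mpr jA_inj

instance : IsIntegrallyClosed (AA m r) := UniqueFactorizationMonoid.instIsIntegrallyClosed

variable [hm : NeZero m]

variable (m r) in
/-- The embedding of the function field of the variety in the big field. -/
noncomputable def thX : (XX m r).functionField →+* EE m r := theta (jB m r) (jB_inj m r)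

theorem thX_mem (g : (XX m r).functionField) : thX m r g ∈ FF m r := by
  obtain ⟨i, a, ha, b, hb, -, h⟩ := (mem_range_theta (jB m r) (jB_inj m r) hposB _).mp ⟨g, rfl⟩
  rw [thX, h]
  exact div_mem_FF (mem_GB.mp ha) (mem_GB.mp hb)

theorem mm_succ : ∃ k, mm m r = k + 1 := ⟨mm m r - 1, by have := mm_pos m r; omega⟩

theorem mem_range_of_div {d : ℕ} {a b : AA m r} (ha : a ∈ AG m r d) (hb : b ∈ RR m r d)
    (hb0 : b ≠ 0) (h : jA m r a / jA m r b ∈ FF m r) :
    jA m r a / jA m r b ∈ (thX m r).fieldRange := by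
  have ha' := mem_RR_of_div ha hb hb0 h
  have h0 : jA m r b ≠ 0 := (map_ne_zero_iff _ jA_inj).mpr hb0
  obtain ⟨k, hk⟩ := mm_succ (m := m) (r := r)
  have h1 : b ^ k * a ∈ RR m r (mm m r * d) := by
    rw [hk, add_mul, one_mul]; exact RR_mul (RR_pow hb k) ha'
  have h2 : b ^ k * b ∈ RR m r (mm m r * d) := by
    rw [hk, add_mul, one_mul]; exact RR_mul (RR_pow hb k) hb
  refine (mem_range_theta (jB m r) (jB_inj m r) hposB _).mpr
    ⟨d, mkB _ h1, mkB_mem _ _, mkB _ h2, mkB_mem _ _, fun h3 => ?_, ?_⟩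
  · have h4 := congrArg vS h3
    rw [coe_mkB, map_zero] at h4
    exact mul_ne_zero (pow_ne_zero _ hb0) hb0 h4
  · simp only [jB_apply, coe_mkB, map_mul, map_pow]
    field_simp

theorem mem_range_of_G {f : EE m r} (hf : f ∈ (chart0 m r).G) (h : f ∈ FF m r) :
    f ∈ (thX m r).fieldRange := by
  obtain ⟨d, a, ha, rfl⟩ := (chart0 m r).hom hf
  have h1 : xx m r (chart0 m r).i0 ^ d = jA m r (X (.inl 0) ^ d) := (map_pow _ _ _).symm
  rw [h1] at h ⊢
  exact mem_range_of_div ha (RR_X_pow 0 d) (pow_ne_zero _ (X_ne_zero _)) h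

theorem FF_le_range : FF m r ≤ (thX m r).fieldRange := by
  have hL : ∀ i, gE m r i ∈ (chart0 m r).G := fun i => Subring.subset_closure (Or.inl ⟨_, rfl⟩)
  have hX : ∀ i, xv m r i / xx m r 0 ∈ (chart0 m r).G := fun i =>
    Subring.subset_closure (Or.inr ⟨i, rfl⟩)
  rw [FF, Subfield.closure_le]
  rintro _ ⟨l, rfl⟩
  by_cases hl : ∃ j, l = .inr (.inr j)
  · obtain ⟨j, rfl⟩ := hl
    have hx := xv_ne_zero (r := r) (.inl 0 : IA m)
    have hz := xv_ne_zero (r := r) (.inr j : IA m)
    have h1 := (chart0 m r).pow_mem_of_mem_G (hX (.inr j))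
    have h2 : (chart0 m r).tE (.inr (.inr j)) * (zz m r j / xx m r 0) ^ (m + 2) =
        (gg m r 0 * (zz m r j / xx m r 0) + 1) * (zz m r j / xx m r 0) ^ (m + 1) := by
      change (gg m r 0 + xx m r 0 / zz m r j) * _ = _
      rw [pow_succ']
      field_simp
    have h3 := div_mem (mem_range_of_G (h2 ▸ mul_mem (add_mem (mul_mem (hL _) (hX _)) (one_mem _))
      (pow_mem (hX _) _)) (mul_mem (tt_mem (.inr (.inr j))) h1))
      (mem_range_of_G (pow_mem (hX _) _) h1)
    rwa [mul_div_cancel_right₀ _ (pow_ne_zero _ (div_ne_zero hz hx))] at h3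
  · exact mem_range_of_G ((chart0 m r).tE_mem _ hL (hX _) l fun j h => absurd ⟨j, h⟩ hl) (tt_mem l)

variable (m r) in
/-- The identification of the function field. -/
noncomputable def eps : FF m r ≃+* (XX m r).functionField :=
  (RingEquiv.ofBijective ((thX m r).codRestrict (FF m r) thX_mem)
    ⟨fun _ _ h => (thX m r).injective (congrArg Subtype.val h), fun f => by
      obtain ⟨g, hg⟩ := FF_le_range f.2
      exact ⟨g, Subtype.ext hg⟩⟩).symm

theorem thX_eps (f : FF m r) : thX m r (eps m r f) = f :=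
  congrArg Subtype.val ((eps m r).symm_apply_apply f)

theorem exists_frac {f : EE m r} (hf : f ∈ FF m r) :
    ∃ i, ∃ a ∈ GB m r i, ∃ b ∈ GB m r i, b ≠ 0 ∧ f = jB m r a / jB m r b :=
  (mem_range_theta (jB m r) (jB_inj m r) hposB _).mp (FF_le_range hf)

theorem eps_mem_iff (x : XX m r) (f : FF m r) :
    eps m r f ∈ (algebraMap ((XX m r).presheaf.stalk x) (XX m r).functionField).range ↔
      ∃ i, ∃ a ∈ GB m r i, ∃ b ∈ GB m r i, b ∉ x.asHomogeneousIdeal ∧
        (f : EE m r) = jB m r a / jB m r b := by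
  rw [mem_range_algebraMap_iff (jB m r) (jB_inj m r), mem_range_rho]
  rw [show theta (jB m r) (jB_inj m r) (eps m r f) = f from thX_eps f]

theorem eps_kF (κ : KK m r) : eps m r (kF m r κ) = kRat (structMap (GB m r)) κ := by
  apply (thX m r).injective
  rw [thX_eps]
  exact ((rho_structSec (jB m r) (jB_inj m r) _ κ).trans (jA_C _)).symm

theorem mem_RR_of_mul {f : EE m r} (hf : f ∈ FF m r) {j : ℕ} {a b : AA m r} (hb : b ∈ RR m r j)
    (hb0 : b ≠ 0) (h : f = jA m r a / jA m r b) : a ∈ RR m r j := by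
  obtain ⟨i, a', ha', b', hb', hb0', h'⟩ := exists_frac hf
  have h0 : jA m r b ≠ 0 := (map_ne_zero_iff _ jA_inj).mpr hb0
  have h1 : jB m r b' ≠ 0 := (map_ne_zero_iff _ (jB_inj m r)).mpr hb0'
  have h2 : vS b' * a = vS a' * b := by
    apply jA_inj
    rw [h, div_eq_div_iff h0 h1] at h'
    rw [map_mul, map_mul, mul_comm]
    exact h'
  have h3 := AG_of_mul (mem_GB.mp hb').1 ((map_ne_zero_iff _ vS_inj).mpr hb0')
    (h2 ▸ AG_mul (mem_GB.mp ha').1 hb.1)
  rw [Nat.add_sub_cancel_left] at h3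
  exact mem_RR_of_div h3 hb hb0 (h ▸ hf)

theorem normal_XX : IsNormalScheme (XX m r) := by
  intro x
  rw [isIntegrallyClosed_iff (XX m r).functionField]
  intro g hg
  let M : Submonoid (AA m r) :=
    { carrier := {c | ∃ i, ∃ b ∈ GB m r i, b ∉ x.asHomogeneousIdeal ∧ vS b = c}
      mul_mem' := by
        rintro _ _ ⟨i, b, hb, hbx, rfl⟩ ⟨i', b', hb', hbx', rfl⟩
        exact ⟨i + i', b * b', SetLike.mul_mem_graded hb hb', fun h =>
          (x.isPrime.mem_or_mem h).elim hbx hbx', map_mul _ _ _⟩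
      one_mem' := ⟨0, 1, SetLike.one_mem_graded _, fun h =>
        x.isPrime.ne_top ((Ideal.eq_top_iff_one _).mpr h), map_one _⟩ }
  have hM : M ≤ nonZeroDivisors (AA m r) := by
    rintro _ ⟨i, b, -, hbx, rfl⟩
    exact mem_nonZeroDivisors_of_ne_zero fun h => hbx (by
      rw [show b = 0 from vS_inj (by rw [h, map_zero])]; exact zero_mem _)
  let Z := Localization.subalgebra.ofField (EE m r) M hM
  have hZ : IsIntegrallyClosed Z := isIntegrallyClosed_of_isLocalization Z M hM
  have hmem : ∀ o, rho (jB m r) (jB_inj m r) x o ∈ Z := fun o => by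
    obtain ⟨i, a, -, b, hb, hbx, h⟩ := exists_rho_eq (jB m r) (jB_inj m r) x o
    exact ⟨vS a, vS b, ⟨i, b, hb, hbx, rfl⟩, by rw [h, div_eq_mul_inv]; rfl⟩
  have h1 : IsIntegral Z (thX m r g) :=
    hg.map_of_comp_eq ((rho (jB m r) (jB_inj m r) x).codRestrict Z hmem) (thX m r)
      (RingHom.ext fun o => (theta_algebraMap (jB m r) (jB_inj m r) x o).symm)
  obtain ⟨⟨_, a, _, ⟨i, b, hb, hbx, rfl⟩, rfl⟩, h2⟩ :=
    (isIntegrallyClosed_iff (EE m r)).mp hZ h1
  have hb0 : vS b ≠ 0 := fun h => hbx (by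
    rw [show b = 0 from vS_inj (by rw [h, map_zero])]; exact zero_mem _)
  have h3 : thX m r g = jA m r a / jA m r (vS b) := by rw [← h2, div_eq_mul_inv]; rfl
  have h4 := mem_RR_of_mul (thX_mem g) (mem_GB.mp hb) hb0 h3
  exact (mem_range_algebraMap_iff (jB m r) (jB_inj m r) x g).mpr
    ((mem_range_rho _ _ _ _).mpr ⟨i, mkB a h4, mkB_mem _ _, b, hb, hbx, h3⟩)

theorem contraction_XX : Function.Bijective (structMap (GB m r)).appTop := by
  have h : Function.Bijective (kSec (structMap (GB m r))) := by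
    let η := genericPoint (XX m r)
    let ρ : Γ(XX m r, ⊤) →+* EE m r :=
      (thX m r).comp ((XX m r).presheaf.germ ⊤ η trivial).hom
    have hρ : Function.Injective ρ :=
      (thX m r).injective.comp (germ_injective_of_isIntegral (U := ⊤) _ η trivial)
    have hρK : ∀ κ, ρ (kSec (structMap (GB m r)) κ) = jA m r (algebraMap (KK m r) (AA m r) κ) :=
      fun κ => rho_structSec (jB m r) (jB_inj m r) η κ
    have : Nontrivial Γ(XX m r, ⊤) := ρ.domain_nontrivial
    refine ⟨RingHom.injective _, fun σ => ?_⟩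
    have h1 : (kSec (structMap (GB m r))).IsIntegral := by
      apply RingHom.isIntegral_respectsIso.2
        (e := (Scheme.ΓSpecIso _).symm.commRingCatIsoToRingEquiv)
      exact isIntegral_appTop_of_universallyClosed _
    let _ := (kSec (structMap (GB m r))).toAlgebra
    have h2 : IsIntegral (KK m r) σ := h1 σ
    have h3 : IsIntegral (AA m r) (ρ σ) :=
      h2.map_of_comp_eq (algebraMap (KK m r) (AA m r)) ρ (RingHom.ext fun κ => (hρK κ).symm)
    obtain ⟨a, ha⟩ := (isIntegrallyClosed_iff (EE m r)).mp inferInstance h3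
    have h4 : a ∈ RR m r 0 := mem_RR_of_mul (f := ρ σ) (thX_mem _) RR_one one_ne_zero
      (by rw [map_one, div_one]; exact ha.symm)
    obtain ⟨κ, rfl⟩ := RR_zero h4
    exact ⟨κ, hρ ((hρK κ).trans ha)⟩
  exact (Function.Bijective.of_comp_iff _
    (Scheme.ΓSpecIso (CommRingCat.of (KK m r))).symm.commRingCatIsoToRingEquiv.bijective).mp h

end Pool.Agent.Work.MP_a77660_ag.Hedge
end

-- merged part: Pool.Agent.Work.MP_a77660_ag.Hedge.Surf3
section
/-!
The boundary divisor, and the log Calabi-Yau property.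
-/

namespace Pool.Agent.Work.MP_a77660_ag.Hedge

open MvPolynomial AlgebraicGeometry CategoryTheory Order WithZero

set_option backward.isDefEq.respectTransparency false

variable {m r : ℕ} [hp : Fact (m + 2).Prime] [hm : NeZero m]

open Classical in
variable (m r) in
/-- The boundary divisor. -/
noncomputable def bdry (a b : ℕ) (x : XX m r) : ℚ :=
  if x = ptB m r 0 then (a : ℚ) / b else if x = ptB m r 1 then ((b - a : ℕ) : ℚ) / b else 0

namespace Chart

variable (ch : Chart m r) (x : XX m r) (V : Valuation (FF m r) ℤᵐ⁰)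
  (hV : ∀ f : FF m r, V f ≤ 1 ↔ ∃ i, ∃ a ∈ GB m r i, ∃ b ∈ GB m r i,
    b ∉ x.asHomogeneousIdeal ∧ (f : EE m r) = jB m r a / jB m r b)

omit ch in
include hV in
theorem val_le_one {f : FF m r} {i : ℕ} {b : RB m r} (hb : b ∈ GB m r i)
    (hbx : b ∉ x.asHomogeneousIdeal) (a : AA m r) (h : (f : EE m r) = jA m r a / jB m r b) :
    V f ≤ 1 := by
  have hb0 : vS b ≠ 0 := fun h => hbx (by
    rw [show b = 0 from vS_inj (by rw [h, map_zero])]; exact zero_mem _)
  have h1 := mem_RR_of_mul f.2 (mem_GB.mp hb) hb0 h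
  exact (hV f).mpr ⟨i, mkB a h1, mkB_mem _ _, b, hb, hbx, h⟩

include hV in
theorem val_s_le (hx : xB m r (.inl ch.i0) ∉ x.asHomogeneousIdeal) : V ch.s ≤ 1 := by
  obtain ⟨k, hk⟩ := mm_succ (m := m) (r := r)
  refine val_le_one x V hV (xB_mem _) hx (X (.inl ch.i0) ^ k * X (.inl ch.i1)) ?_
  have := xv_ne_zero (r := r) (.inl ch.i0 : IA m)
  rw [coe_t, tE_1, jB_xB, hk, map_mul, map_pow, jA_X, jA_X]
  field_simp
  ring

include hV in
theorem val_s_inv_le (hx : xB m r (.inl ch.i1) ∉ x.asHomogeneousIdeal) : V ch.s⁻¹ ≤ 1 := by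
  obtain ⟨k, hk⟩ := mm_succ (m := m) (r := r)
  refine val_le_one x V hV (xB_mem _) hx (X (.inl ch.i1) ^ k * X (.inl ch.i0)) ?_
  have := xv_ne_zero (r := r) (.inl ch.i1 : IA m)
  rw [Subfield.coe_inv, coe_t, tE_1, jB_xB, hk, map_mul, map_pow, jA_X, jA_X]
  field_simp
  ring

include hV in
theorem val_h_ge (hx : xB m r (.inl ch.i0) ∉ x.asHomogeneousIdeal) (j : Fin m) :
    1 ≤ V (ch.h j) := by
  obtain ⟨k, hk⟩ := Nat.exists_eq_add_of_le (le_mm m r)
  have h : V (ch.h j)⁻¹ ≤ 1 := by
    refine val_le_one x V hV (xB_mem _) hx (X (.inl ch.i0) ^ k * X (.inr j) ^ (m + 2)) ?_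
    have := xv_ne_zero (r := r) (.inl ch.i0 : IA m)
    rw [Subfield.coe_inv, ch.coe_h, jB_xB, hk, map_mul, map_pow, map_pow, jA_X, jA_X, ← inv_pow,
      inv_div, div_pow]
    field_simp
    ring
  rwa [map_inv₀, inv_le_one₀ (zero_lt_iff.mpr (by simpa using ch.h_ne_zero j))] at h

include hV in
theorem exists_quot (f : FF m r) (hf : V f ≤ 1) :
    ∃ qa qb : FF m r, (qa : EE m r) ∈ ch.G ∧ (qb : EE m r) ∈ ch.G ∧ V qb⁻¹ ≤ 1 ∧
      f = qa * qb⁻¹ := by
  obtain ⟨i, a, ha, b, hb, hbx, h⟩ := (hV f).mp hf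
  have h1 := RR_X_pow (m := m) (r := r) ch.i0 (mm m r * i)
  have h0 := xv_ne_zero (r := r) (.inl ch.i0 : IA m)
  have h2 : ∀ c ∈ GB m r i, jA m r (vS c) / jA m r (X (.inl ch.i0) ^ (mm m r * i)) ∈ ch.G :=
    fun c hc => by
      rw [map_pow]
      exact ch.dehom (mem_GB.mp hc).1
  refine ⟨⟨_, div_mem_FF (mem_GB.mp ha) h1⟩, ⟨_, div_mem_FF (mem_GB.mp hb) h1⟩, h2 a ha, h2 b hb,
    val_le_one x V hV hb hbx (X (.inl ch.i0) ^ (mm m r * i)) ?_, Subtype.ext ?_⟩
  · rw [Subfield.coe_inv, inv_div]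
    rfl
  · rw [Subfield.coe_mul, Subfield.coe_inv, h]
    change _ = jA m r (vS a) / jA m r (X (.inl ch.i0) ^ (mm m r * i)) *
      (jA m r (vS b) / jA m r (X (.inl ch.i0) ^ (mm m r * i)))⁻¹
    rw [map_pow, jA_X, jB_apply, jB_apply]
    field_simp

include hV in
theorem val_s_eq (hπ : ∃ π, V π = exp (-1 : ℤ)) (hx1 : x = ptB m r ch.i1) :
    V ch.s = exp (-1 : ℤ) := by
  have hs0 : V ch.s ≠ 0 := by simpa using ch.s_ne_zero
  have h0 := xv_ne_zero (r := r) (.inl ch.i0 : IA m)
  have h1 := xv_ne_zero (r := r) (.inl ch.i1 : IA m)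
  obtain ⟨π, hπ⟩ := hπ
  apply le_antisymm
  · have h2 : ¬ V ch.s⁻¹ ≤ 1 := fun h2 => by
      obtain ⟨i, a, ha, b, hb, hbx, h⟩ := (hV _).mp h2
      have hb0 := ne_zero_of_not_mem (jB m r) (jB_inj m r) hbx
      rw [Subfield.coe_inv, coe_t, tE_1, inv_div, div_eq_div_iff h1 hb0] at h
      have h3 : X (.inl ch.i0) * vS b = vS a * X (.inl ch.i1) := by
        apply jA_inj
        rw [map_mul, map_mul]
        exact h
      have h4 : (X (.inl ch.i1) : AA m r) ∣ X (.inl ch.i0) * vS b := h3 ▸ dvd_mul_left _ _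
      rcases X_prime.dvd_or_dvd h4 with h5 | h5
      · exact ch.i_ne (Sum.inl_injective (X_dvd_X.mp h5))
      · exact hbx (hx1 ▸ (mem_ptB _ hb).mpr h5)
    rw [map_inv₀, inv_le_one₀ (zero_lt_iff.mpr hs0), not_le] at h2
    rw [← exp_log hs0, ← exp_zero, exp_lt_exp] at h2
    rw [← exp_log hs0, exp_le_exp]
    omega
  · have hπ1 : V π ≤ 1 := by rw [hπ, ← exp_zero, exp_le_exp]; norm_num
    obtain ⟨i, a, ha, b, hb, hbx, h⟩ := (hV _).mp hπ1
    have hb0 := ne_zero_of_not_mem (jB m r) (jB_inj m r) hbx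
    have hax : a ∈ x.asHomogeneousIdeal := by
      by_contra hax
      have h2 := val_le_one x V hV (f := π⁻¹) ha hax (vS b) (by
        rw [Subfield.coe_inv, h, inv_div]; rfl)
      rw [map_inv₀, hπ, ← exp_neg, ← exp_zero, exp_le_exp] at h2
      omega
    obtain ⟨c, hc⟩ := (mem_ptB _ ha).mp (hx1 ▸ hax)
    have h2 := val_le_one x V hV (f := π / ch.s) hb hbx (X (.inl ch.i0) * c) (by
      rw [Subfield.coe_div, h, coe_t, tE_1, jB_apply a, hc, map_mul, map_mul, jA_X, jA_X]
      field_simp)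
    rw [map_div₀, div_le_one₀ (zero_lt_iff.mpr hs0), hπ] at h2
    exact h2

include hV in
theorem val_s_eq_one (hc : coheight x = 1) (hx : xB m r (.inl ch.i0) ∉ x.asHomogeneousIdeal)
    (hx1 : x ≠ ptB m r ch.i1) : V ch.s = 1 := by
  have hs0 : V ch.s ≠ 0 := by simpa using ch.s_ne_zero
  have h2 := ch.val_s_inv_le x V hV fun h => hx1 (eq_ptB hc h).symm
  rw [map_inv₀, inv_le_one₀ (zero_lt_iff.mpr hs0)] at h2
  exact le_antisymm (ch.val_s_le x V hV hx) h2

end Chart

theorem exists_chart {a b : ℕ} (hab : a ≤ b) (x : XX m r) (hc : coheight x = 1) :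
    ∃ (ch : Chart m r) (c : ℕ), ch.Good a b c ∧ xB m r (.inl ch.i0) ∉ x.asHomogeneousIdeal ∧
      (x = ptB m r ch.i1 → bdry m r a b x = (c : ℚ) / b) ∧
      (x ≠ ptB m r ch.i1 → bdry m r a b x = 0) := by
  by_cases h : xB m r (.inl 0) ∈ x.asHomogeneousIdeal
  · refine ⟨chart1 m r, a, good1 hab, fun h' => ?_, fun h' => if_pos h',
      fun h' => absurd (eq_ptB hc h).symm h'⟩
    rw [← eq_ptB hc h] at h'
    exact xB_not_mem_ptB (i := 0) (j := 1) (by decide) h'
  · have h0 : x ≠ ptB m r 0 := fun h' => h (h' ▸ xB_mem_ptB 0)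
    exact ⟨chart0 m r, b - a, good0 a b, h, fun h' => (if_neg h0).trans (if_pos h'),
      fun h' => (if_neg h0).trans (if_neg h')⟩

variable (m r) in
/-- The derivations, indexed by integers. -/
noncomputable def delF (j : Fin (Fintype.card (IF m r))) : Derivation ℤ (FF m r) (FF m r) :=
  del m r ((Fintype.equivFin (IF m r)).symm j)

theorem jac_delF (a : Fin (Fintype.card (IF m r)) → FF m r) :
    jac (delF m r) a = JJ (del m r) fun i => a (Fintype.equivFin (IF m r) i) :=
  jac_eq_JJ _ _ _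

theorem jac_delF' (t : IF m r → FF m r) :
    jac (delF m r) (fun j => t ((Fintype.equivFin (IF m r)).symm j)) = JJ (del m r) t := by
  simp [jac_delF]

variable (β : Module.Basis (Fin (Fintype.card (IF m r))) (XX m r).functionField
    Ω[(XX m r).functionField⁄ℤ])
  (hβ : ∀ a : Fin (Fintype.card (IF m r)) → FF m r,
    β.det (fun i => KaehlerDifferential.D ℤ _ (eps m r (a i))) = eps m r (jac (delF m r) a))
  {a b : ℕ} (hb : 0 < b) (hab : a ≤ b)

include hβ hb hab in
theorem trivial_XX (x : XX m r) (hc : coheight x = 1) : ∃ κ : ℤ,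
    IsCanonicalCoeff β (RingHom.id (XX m r).functionField) x κ ∧
      ((XX m r).ord (eps m r (gB m r a b)) x : ℚ) =
        ((m + 2) * b : ℕ) * (κ + bdry m r a b x) := by
  obtain ⟨v, hv1, ⟨π, hπ⟩, hv2⟩ := exists_valuation x (normal_XX x) hc
  let V : Valuation (FF m r) ℤᵐ⁰ := v.comap (eps m r : FF m r →+* (XX m r).functionField)
  have hV : ∀ f : FF m r, V f ≤ 1 ↔ ∃ i, ∃ a ∈ GB m r i, ∃ b ∈ GB m r i,
      b ∉ x.asHomogeneousIdeal ∧ (f : EE m r) = jB m r a / jB m r b := fun f =>
    (hv1 _).trans (eps_mem_iff x f)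
  have hV2 : ∀ f : FF m r, f ≠ 0 → V f = exp (-((XX m r).ord (eps m r f) x)) := fun f hf =>
    hv2 _ (by simpa using hf)
  have hK : ∀ κ, V (kF m r κ) ≤ 1 := fun κ =>
    (hv1 _).mpr ⟨_, (algebraMap_kStalk (structMap (GB m r)) x κ).trans (eps_kF κ).symm⟩
  obtain ⟨ch, c, hG, hx, hB1, hB2⟩ := exists_chart hab x hc
  have hs := ch.val_s_le x V hV hx
  have hh := ch.val_h_ge x V hV hx
  have h1 := ch.val_gB_tI V hK hG hs hh
  have ht0 : JJ (del m r) (ch.tI V) ≠ 0 := fun h => by
    rw [h, map_zero, zero_pow (by positivity), mul_zero] at h1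
    exact pow_ne_zero _ (by simpa using ch.s_ne_zero) h1.symm
  have h2 := isCanonicalCoeff_of_max (eps m r) (delF m r) β hβ (RingHom.id _) x V (fun f => hv1 _)
    hV2 (fun j => ch.tI V ((Fintype.equivFin (IF m r)).symm j)) (fun j => ch.val_tI V hK hs _)
    (by rwa [jac_delF']) fun a ha => by
      rw [jac_delF', jac_delF]
      exact ch.exact_chart V hK hs hh (ch.exists_quot x V hV) _ fun i => ha _
  refine ⟨_, h2, ?_⟩
  rw [jac_delF', RingHom.id_apply]
  rw [hV2 _ (gB_ne_zero a b), hV2 _ ht0, ← exp_nsmul, ← exp_add] at h1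
  have hb' : (b : ℚ) ≠ 0 := by positivity
  by_cases hx1 : x = ptB m r ch.i1
  · rw [ch.val_s_eq x V hV ⟨(eps m r).symm π, by simpa [V] using hπ⟩ hx1, ← exp_nsmul,
      exp_inj] at h1
    have h3 := congrArg (Int.cast : ℤ → ℚ) h1
    rw [hB1 hx1]
    simp only [nsmul_eq_mul] at h3
    push_cast at h3 ⊢
    field_simp
    linear_combination -h3
  · rw [ch.val_s_eq_one x V hV hc hx hx1, one_pow, exp_eq_one] at h1
    have h3 := congrArg (Int.cast : ℤ → ℚ) h1
    rw [hB2 hx1]
    simp only [nsmul_eq_mul] at h3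
    push_cast at h3 ⊢
    linear_combination -h3

include hβ hb hab in
theorem lc_XX (W : Scheme.{0}) [IsIntegral W] [IsLocallyNoetherian W] (φ : W ⟶ XX m r)
    [IsDominant φ] (hW : IsNormalScheme W) [IsProper φ]
    (hφ : Function.Bijective (pullbackRat φ)) (w : W) (hc : coheight w = 1) : ∃ κ : ℤ,
      IsCanonicalCoeff β (pullbackRat φ) w κ ∧
        W.ord (pullbackRat φ (eps m r (gB m r a b))) w - ((m + 2) * b : ℕ) * κ ≤
          (max ((m + 2) * max a (b - a)) ((m + 1) * b) : ℕ) := by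
  obtain ⟨v, hv1, ⟨π, hπ⟩, hv2⟩ := exists_valuation w (hW w) hc
  let Ψ : FF m r ≃+* W.functionField := (eps m r).trans (RingEquiv.ofBijective _ hφ)
  have hΨ : ∀ f, Ψ f = pullbackRat φ (eps m r f) := fun _ => rfl
  let V : Valuation (FF m r) ℤᵐ⁰ := v.comap (Ψ : FF m r →+* W.functionField)
  have hVv : ∀ f, V f = v (Ψ f) := fun _ => rfl
  have hV2 : ∀ f : FF m r, f ≠ 0 → V f = exp (-(W.ord (pullbackRat φ (eps m r f)) w)) :=
    fun f hf => hv2 _ (by simpa using hf)
  have hΨK : ∀ κ, Ψ (kF m r κ) = kRat (φ ≫ structMap (GB m r)) κ := fun κ => by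
    rw [hΨ, eps_kF, pullbackRat_kRat]
  have hK : ∀ κ, V (kF m r κ) ≤ 1 := fun κ =>
    (hv1 _).mpr ⟨_, (algebraMap_kStalk (φ ≫ structMap (GB m r)) w κ).trans (hΨK κ).symm⟩
  have hπ' : V (Ψ.symm π) = exp (-1 : ℤ) := by rw [hVv, Ψ.apply_symm_apply, hπ]
  obtain ⟨a₀, ha₀, h0⟩ := exists_JJ_ne_zero V hπ'
  obtain ⟨σ, hσ⟩ := exists_generators (φ ≫ structMap (GB m r)) w
  obtain ⟨σ₀, hσ₀⟩ := KK_fg (m := m) (r := r)
  obtain ⟨γ, hγ⟩ := exists_bound_jac (delF m r) V
    (Sum.elim (fun i : σ₀ => kF m r i)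
      (fun s : σ => Ψ.symm (algebraMap (W.presheaf.stalk w) W.functionField s.1)))
    (by
      rintro (i | s)
      · exact hK _
      · rw [hVv, hv1]
        exact ⟨s.1, (Ψ.apply_symm_apply _).symm⟩)
    (by
      intro T hT hinv f hf
      have hKT : ∀ κ, kF m r κ ∈ T := by
        let T' : Subfield (KK m r) :=
          { T.comap (kF m r) with
            inv_mem' := fun κ hκ => by
              change kF m r κ⁻¹ ∈ T
              rw [map_inv₀]
              exact hinv _ hκ (by rw [← map_inv₀]; exact hK _) }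
        have : Subfield.closure (σ₀ : Set (KK m r)) ≤ T' :=
          Subfield.closure_le.mpr fun i hi => hT (Sum.inl ⟨i, hi⟩)
        exact fun κ => this (hσ₀ ▸ Subfield.mem_top κ)
      obtain ⟨o, ho⟩ := (hv1 _).mp hf
      have h2 := hσ (T.comap (Ψ.symm : W.functionField →+* FF m r))
        (fun κ => by
          change Ψ.symm _ ∈ T
          rw [← hΨK, Ψ.symm_apply_apply]
          exact hKT κ)
        (fun s hs => hT (Sum.inr ⟨s, hs⟩))
        (fun t ht h => by
          change Ψ.symm _ ∈ T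
          rw [map_inv₀]
          refine hinv _ ht ?_
          rw [hVv, map_inv₀, Ψ.apply_symm_apply]
          exact (hv1 _).mpr h) o
      rw [ho] at h2
      change Ψ.symm (Ψ f) ∈ T at h2
      rwa [Ψ.symm_apply_apply] at h2)
  obtain ⟨t, ht, ht0, hmax⟩ := exists_max (delF m r) V γ hγ
    (fun j => a₀ ((Fintype.equivFin (IF m r)).symm j)) (fun j => ha₀ _) (by rwa [jac_delF'])
  refine ⟨_, isCanonicalCoeff_of_max (eps m r) (delF m r) β hβ (pullbackRat φ) w V
    (fun f => hv1 _) hV2 t ht ht0 hmax, ?_⟩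
  have h1 := lc_general V hK hπ' (n := -(W.ord (pullbackRat φ (eps m r (jac (delF m r) t))) w))
    (fun a ha => by
      rw [← hV2 _ ht0, ← jac_delF']
      exact hmax _ fun j => ha _) hb hab
  rw [hV2 _ (gB_ne_zero a b), log_exp] at h1
  linarith

include hb hab in
theorem isEps_XX {ε : ℚ} (h1 : ε ≤ (a : ℚ) / b) (h2 : ε ≤ 1 - (a : ℚ) / b)
    (h3 : ε ≤ 1 / (m + 2 : ℕ)) :
    IsEpsLogCalabiYauOver ε (structMap (GB m r)) (bdry m r a b) where
  normal := normal_XX
  projective := isProjective_XX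
  contraction := contraction_XX
  coeff_nonneg x := by
    unfold bdry
    split_ifs <;> positivity
  finite_support := by
    refine (Set.toFinite {ptB m r 0, ptB m r 1}).subset fun x hx => ?_
    by_contra h
    rw [Set.mem_insert_iff, Set.mem_singleton_iff, not_or] at h
    exact hx ((if_neg h.1).trans (if_neg h.2))
  support_codim_one x hx := by
    by_contra h
    have h0 : ∀ i, x ≠ ptB m r i := fun i h' => h (h' ▸ coheight_ptB i)
    exact hx ((if_neg (h0 0)).trans (if_neg (h0 1)))
  trivial_and_lc := by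
    obtain ⟨β, hβ⟩ := exists_basis_equiv (eps m r)
      (fun j => (chart0 m r).t ((Fintype.equivFin (IF m r)).symm j)) (delF m r)
      (fun i j => by simp [delF, del_t]) (by
        rw [← closure_t]
        congr 1
        exact (Fintype.equivFin (IF m r)).symm.surjective.range_comp (chart0 m r).t)
    refine ⟨_, β, (m + 2) * b, eps m r (gB m r a b), by positivity,
      by simpa using gB_ne_zero a b, fun x hx => trivial_XX β hβ hb hab x hx,
      fun W _ _ φ _ hW _ hφ w hw => ?_⟩
    obtain ⟨κ, h4, h5⟩ := lc_XX β hβ hb hab W φ hW hφ w hw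
    refine ⟨κ, h4, ?_⟩
    have h6 := (Int.cast_le (R := ℚ)).mpr h5
    have hb' : (0 : ℚ) < b := by positivity
    have hM : (0 : ℚ) < ((m + 2) * b : ℕ) := by positivity
    rw [sub_le_iff_le_add, div_le_iff₀ hM]
    rw [le_div_iff₀ hb'] at h1
    rw [le_sub_comm, div_le_iff₀ hb'] at h2
    rw [le_div_iff₀ (by positivity)] at h3
    have h7 : ((max ((m + 2) * max a (b - a)) ((m + 1) * b) : ℕ) : ℚ) ≤
        (1 - ε) * ((m + 2) * b : ℕ) := by
      have hm' : (0 : ℚ) ≤ m + 2 := by positivity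
      push_cast [Nat.cast_sub hab] at h3 ⊢
      refine max_le ?_ (by nlinarith)
      have : max (a : ℚ) (b - a) ≤ (1 - ε) * b := max_le h2 (by linarith)
      nlinarith
    simp only [Int.cast_sub, Int.cast_mul, Int.cast_natCast] at h6
    linarith

end Pool.Agent.Work.MP_a77660_ag.Hedge
end

-- merged part: Pool.Agent.Work.MP_a77660_ag.Hedge.Curve
section
/-!
The boundary component with many global functions.
-/

namespace Pool.Agent.Work.MP_a77660_ag.Hedge

open MvPolynomial AlgebraicGeometry CategoryTheory Order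

set_option backward.isDefEq.respectTransparency false

variable {m r : ℕ} [hp : Fact (m + 2).Prime]

variable (m r) in
/-- Setting the first variable to zero. -/
noncomputable def evL : AA m r →ₐ[LL m r] AA m r :=
  aeval fun i => if i = .inl 0 then 0 else X i

theorem evL_X0 : evL m r (X (.inl 0)) = 0 := (aeval_X _ _).trans (if_pos rfl)

theorem evL_X {i : IA m} (h : i ≠ .inl 0) : evL m r (X i) = X i := (aeval_X _ _).trans (if_neg h)

theorem evL_C (l : LL m r) : evL m r (C l) = C l := (evL m r).commutes l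

theorem evL_mem {j : ℕ} {a : AA m r} (ha : a ∈ AG m r j) : evL m r a ∈ AG m r j := by
  induction ha using IsWeightedHomogeneous.induction_on with
  | zero => simp
  | add p q _ _ hp hq => rw [map_add]; exact add_mem hp hq
  | monomial d c hc =>
    have h := isWeightedHomogeneous_monomial (1 : IA m → ℕ) d c hc
    rw [monomial_prod] at h ⊢
    rw [map_mul, map_prod, evL_C]
    rcases Nat.eq_zero_or_pos (d (.inl 0)) with h0 | h0
    · rw [Finset.prod_congr rfl (g := fun i => X i ^ d i) fun i _ => by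
        by_cases hi : i = .inl 0
        · rw [hi, h0, pow_zero, map_one]
        · rw [map_pow, evL_X hi]]
      exact h
    · rw [Finset.prod_eq_zero (Finset.mem_univ (.inl 0))
        (by rw [map_pow, evL_X0, zero_pow h0.ne']), mul_zero]
      exact zero_mem _

theorem evL_eq_zero_iff (a : AA m r) : evL m r a = 0 ↔ (X (.inl 0) : AA m r) ∣ a := by
  constructor
  · intro h
    have : (X (.inl 0) : AA m r) ∣ a - evL m r a := by
      clear h
      induction a using MvPolynomial.induction_on with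
      | C l => rw [evL_C, sub_self]; exact dvd_zero _
      | add p q hp hq =>
        rw [map_add, add_sub_add_comm]
        exact dvd_add hp hq
      | mul_X p i hp =>
        rw [map_mul]
        by_cases hi : i = .inl 0
        · rw [hi, evL_X0, mul_zero, sub_zero]
          exact dvd_mul_left _ _
        · rw [evL_X hi, ← sub_mul]
          exact hp.mul_right _
    rwa [h, sub_zero] at this
  · rintro ⟨b, rfl⟩
    rw [map_mul, evL_X0, zero_mul]

theorem rel_L {j : IA m} (hj : j ≠ .inl 0) (l : LL m r) :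
    (jL m r l, jL m r l) ∈ Rel j (evL m r).toRingHom (evL_X hj) :=
  ⟨0, C l, AG_C l, by simp [jA_C], by simp [jA_C]⟩

theorem rel_X0 {j : IA m} (hj : j ≠ .inl 0) :
    (xx m r 0 / xv m r j, 0) ∈ Rel j (evL m r).toRingHom (evL_X hj) :=
  ⟨1, X (.inl 0), AG_X _, by simp [jA_X], by simp [evL_X0]⟩

theorem rel_X1 {j : IA m} (hj : j ≠ .inl 0) :
    (xx m r 1 / xv m r j, xx m r 1 / xv m r j) ∈ Rel j (evL m r).toRingHom (evL_X hj) :=
  ⟨1, X (.inl 1), AG_X _, by simp [jA_X], by simp [jA_X, evL_X]⟩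

theorem rel_coeff {j : IA m} (hj : j ≠ .inl 0) {U : PowerSeries (EE m r × EE m r)}
    (hU : U ∈ psSub (Rel j (evL m r).toRingHom (evL_X hj)))
    (h1 : PowerSeries.map (RingHom.snd _ _) U = 1) (i : Fin (r + 1)) :
    (PowerSeries.coeff i (PowerSeries.map (RingHom.fst _ _) U * alT m r), gE m r (.inr i)) ∈
      Rel j (evL m r).toRingHom (evL_X hj) := by
  let Δ : EE m r →+* EE m r × EE m r := (RingHom.id _).prod (RingHom.id _)
  have h2 : PowerSeries.map Δ (alT m r) ∈ psSub (Rel j (evL m r).toRingHom (evL_X hj)) :=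
    fun n => by
      rw [PowerSeries.coeff_map]
      exact alT_mem (T := (Rel j (evL m r).toRingHom (evL_X hj)).comap Δ) (fun i => rel_L hj _) n
  have h3 : ∀ φ : EE m r × EE m r →+* EE m r, φ.comp Δ = RingHom.id _ →
      φ (PowerSeries.coeff i (U * PowerSeries.map Δ (alT m r))) =
        PowerSeries.coeff i (PowerSeries.map φ U * alT m r) := fun φ h => by
    rw [← PowerSeries.coeff_map, map_mul, ← RingHom.comp_apply (PowerSeries.map φ)
      (PowerSeries.map Δ), ← PowerSeries.map_comp, h, PowerSeries.map_id]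
    rfl
  have h4 := mul_mem hU h2 i
  convert h4 using 1
  refine Prod.ext (h3 (RingHom.fst _ _) rfl).symm ?_
  exact ((h3 (RingHom.snd _ _) rfl).trans (by rw [h1, one_mul, coeff_alT])).symm

theorem charP_of (B : Type) [CommRing B] (p : ℕ) (h : ∀ a : ℕ, (a : B) = 0 ↔ p ∣ a) :
    CharP B p := ⟨h⟩

variable [hm : NeZero m]

theorem exists_lift {j : IA m} (hj : j ≠ .inl 0) (i : Fin (r + 1)) :
    ∃ f ∈ FF m r, (f, gE m r (.inr i)) ∈ Rel j (evL m r).toRingHom (evL_X hj) := by
  have := charP_of (EE m r × EE m r) (m + 2) fun a => by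
    rw [← CharP.cast_eq_zero_iff (EE m r) (m + 2) a, Prod.ext_iff]
    exact and_self_iff
  rcases j with j | j
  · obtain rfl : j = 1 := by
      fin_cases j
      · exact absurd rfl hj
      · rfl
    have h := rel_coeff hj (U1_mem (m := m) (r := r) (rel_L hj (gL m r (.inl 0)))
      (rel_L hj (gL m r (.inl 1))) (rel_X0 hj)) (by rw [map_U1]; exact U1_zero _ _) i
    rw [map_U1] at h
    exact ⟨_, (chart1 m r).tE_mem_FF (.inr (.inl i)), h⟩
  · have h := rel_coeff hj (U2_mem (m := m) (r := r) (rel_L hj (gL m r (.inl 0)))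
      (rel_L hj (gL m r (.inl 1))) (rel_X0 hj) (rel_X1 hj)) (by rw [map_U2]; exact U2_zero _ _ _) i
    rw [map_U2] at h
    refine ⟨_, mem_FF ?_ ?_, h⟩
    · exact mul_mem (U2_mem (gE_mem_KP _) (gE_mem_KP _) (xz_mem_KP 0 j) (xz_mem_KP 1 j))
        (alT_mem fun i => gE_mem_KP _) i
    · have := (ld_U2 (r := r) j).mul ld_alT
      rw [neg_add_cancel] at this
      exact this.coeff_eq_zero i.2

variable (m r)

/-- Setting the first variable to zero. -/
noncomputable def evK : AA m r →ₐ[KK m r] AA m r := (evL m r).restrictScalars (KK m r)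

instance : Fact (iSupIndep (imG (BB m r) (evK m r))) :=
  ⟨iSupIndep_of_le (mm_pos m r) _ (by
    rintro j _ ⟨a, ha, rfl⟩
    exact evL_mem ha.1)⟩

/-- The homogeneous coordinate ring of the divisor. -/
abbrev RC : Type := SR (imG (BB m r) (evK m r))

/-- The grading of the homogeneous coordinate ring of the divisor. -/
noncomputable abbrev GC : ℕ → Submodule (KK m r) (RC m r) := SG (imG (BB m r) (evK m r))

/-- The divisor. -/
noncomputable abbrev SS : Scheme.{0} := Proj (GC m r)

/-- The restriction map. -/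
noncomputable def resC : GB m r →+*ᵍ GC m r := imGHom (BB m r) (evK m r)

theorem resC_surjective : Function.Surjective (resC m r) := imHom_surjective _ _

/-- The embedding of the divisor. -/
noncomputable def iota : SS m r ⟶ XX m r :=
  Proj.map (resC m r) (irrelevant_le_of_surjective _ (resC_surjective m r))

/-- The embedding of the coordinate ring of the divisor in the big field. -/
noncomputable def jC : RC m r →+* EE m r := (jA m r).comp vS

variable {m r}

theorem vS_resC (a : RB m r) : vS (resC m r a) = evL m r (vS a) := rfl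

instance : IsClosedImmersion (iota m r) := isClosedImmersion_map _ (resC_surjective m r)

theorem iota_struct : iota m r ≫ structMap (GB m r) = structMap (GC m r) :=
  map_structMap _ _ fun κ => vS_inj ((evK m r).commutes κ)

theorem mem_iota (y : SS m r) (a : RB m r) :
    a ∈ (iota m r y).asHomogeneousIdeal ↔ resC m r a ∈ y.asHomogeneousIdeal := Iff.rfl

theorem hposC : ∃ i, 0 < i ∧ ∃ a ∈ GC m r i, a ≠ 0 :=
  ⟨1, one_pos, resC m r (xB m r (.inl 1)), (resC m r).map_mem (xB_mem _), fun h => by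
    have := congrArg vS h
    rw [vS_resC, map_zero, evL_eq_zero_iff] at this
    exact not_dvd_xB (by simp) this⟩

instance : IsIntegral (SS m r) := isIntegral_proj hposC

theorem iota_generic : iota m r (genericPoint (SS m r)) = ptB m r 0 := by
  have h : ∀ j, ∀ a ∈ GB m r j, a ∈ (iota m r (genericPoint (SS m r))).asHomogeneousIdeal ↔
      a ∈ (ptB m r 0).asHomogeneousIdeal := by
    intro j a ha
    rw [mem_iota, genericPoint_ideal (hposC (m := m) (r := r)), mem_ptB 0 ha, ← evL_eq_zero_iff, ← vS_resC,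
      map_eq_zero_iff _ vS_inj]
    rfl
  exact point_ext (le_antisymm (homIdeal_le fun j a ha => (h j a ha).mp)
    (homIdeal_le fun j a ha => (h j a ha).mpr))

theorem jC_inj : Function.Injective (jC m r) := jA_inj.comp vS_inj

theorem exists_lift' {j : IA m} (hj : j ≠ .inl 0) (i : Fin (r + 1)) :
    ∃ d, ∃ a ∈ RR m r (mm m r * d),
      gE m r (.inr i) = jA m r (evL m r a) / jA m r (evL m r ((X j ^ mm m r) ^ d)) := by
  obtain ⟨f, hf, d, a, ha, h1, h2⟩ := exists_lift hj i
  obtain ⟨k, hk⟩ := mm_succ (m := m) (r := r)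
  have hx := xv_ne_zero (r := r) j
  have h3 : (X j ^ d : AA m r) ^ mm m r ∈ RR m r (mm m r * d) := pow_mem_RR (AG_X_pow j d)
  have h1' : f = jA m r a / xv m r j ^ d := h1
  have h2' : gE m r (.inr i) = jA m r (evL m r a) / xv m r j ^ d := h2
  refine ⟨d, a * (X j ^ d) ^ k,
    mem_RR_of_mul hf h3 (pow_ne_zero _ (pow_ne_zero _ (X_ne_zero j))) ?_, ?_⟩
  · have e1 : jA m r (a * (X j ^ d) ^ k) = jA m r a * (xv m r j ^ d) ^ k := by
      rw [map_mul, map_pow, map_pow, jA_X]
    have e2 : jA m r ((X j ^ d) ^ mm m r) = (xv m r j ^ d) ^ (k + 1) := by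
      rw [map_pow, map_pow, jA_X, hk]
    rw [h1', e1, e2, pow_succ]
    field_simp
  · have e1 : jA m r (evL m r (a * (X j ^ d) ^ k)) = jA m r (evL m r a) * (xv m r j ^ d) ^ k := by
      rw [map_mul, map_pow, map_pow, evL_X hj, map_mul, map_pow, map_pow, jA_X]
    have e2 : jA m r (evL m r ((X j ^ mm m r) ^ d)) = (xv m r j ^ d) ^ (k + 1) := by
      rw [map_pow, map_pow, map_pow, evL_X hj, map_pow, jA_X, hk, pow_right_comm]
    rw [h2', e1, e2, pow_succ]
    field_simp

theorem al_mem_range (i : Fin (r + 1)) (y : SS m r) :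
    gE m r (.inr i) ∈ (rho (jC m r) jC_inj y).range := by
  obtain ⟨j, hj⟩ := exists_xB_not_mem (iota m r y)
  rw [mem_iota] at hj
  have hj0 : j ≠ .inl 0 := by
    rintro rfl
    apply hj
    have : resC m r (xB m r (.inl 0)) = 0 := vS_inj (by
      rw [vS_resC, map_zero, evL_eq_zero_iff, coe_xB]
      exact dvd_pow_self _ (mm_pos m r).ne')
    rw [this]
    exact zero_mem _
  obtain ⟨d, a, ha, h⟩ := exists_lift' hj0 i
  have h1 : xB m r j ^ d ∈ GB m r d := by
    simpa using SetLike.pow_mem_graded d (xB_mem (r := r) j)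
  have h2 : resC m r (xB m r j ^ d) ∉ y.asHomogeneousIdeal := fun h => by
    rw [map_pow] at h
    exact hj (y.isPrime.mem_of_pow_mem d h)
  refine (mem_range_rho _ _ _ _).mpr ⟨d, resC m r (mkB a ha), (resC m r).map_mem (mkB_mem _ _),
    resC m r (xB m r j ^ d), (resC m r).map_mem h1, h2, h.trans ?_⟩
  rw [← coe_xB, ← map_pow, ← vS_resC]
  rfl

theorem le_steinDegree : r + 1 ≤ steinDegree (iota m r ≫ structMap (GB m r)) := by
  have hfin := finite_appTop_of_universallyClosed (KK m r) (iota m r ≫ structMap (GB m r))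
  rw [iota_struct] at hfin ⊢
  let _ : Algebra (KK m r) Γ(SS m r, ⊤) := (structSec (GC m r)).toAlgebra
  have hfin' : Module.Finite (KK m r) Γ(SS m r, ⊤) :=
    RingHom.finite_respectsIso.2 _ (Scheme.ΓSpecIso _).symm.commRingCatIsoToRingEquiv hfin
  choose σ hσ using fun i => exists_section (jC m r) jC_inj _ (al_mem_range (m := m) (r := r) i)
  let η := genericPoint (SS m r)
  let ρ : Γ(SS m r, ⊤) →+* EE m r :=
    (rho (jC m r) jC_inj η).comp ((SS m r).presheaf.germ ⊤ η trivial).hom
  have hρ : ∀ i, ρ (σ i) = gE m r (.inr i) := fun i => hσ i η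
  have hρK : ∀ κ : KK m r, ρ (structSec (GC m r) κ) = jL m r κ := fun κ =>
    (rho_structSec (jC m r) jC_inj η κ).trans (jA_C _)
  have hli : LinearIndependent (KK m r) σ := by
    rw [Fintype.linearIndependent_iff]
    intro g hg
    have h1 := congrArg ρ hg
    rw [map_sum, map_zero] at h1
    have h2 : ∑ i, g i • gL m r (.inr i) = 0 := by
      apply (jL m r).injective
      rw [map_sum, map_zero, ← h1]
      refine Finset.sum_congr rfl fun i _ => ?_
      change jL m r ((g i : LL m r) * _) = ρ (structSec (GC m r) (g i) * σ i)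
      rw [map_mul, map_mul, hρ, hρK]
      rfl
    exact Fintype.linearIndependent_iff.mp (linInd_al (m := m) (r := r)) g h2
  have := hli.fintype_card_le_finrank
  rw [Fintype.card_fin] at this
  exact this

end Pool.Agent.Work.MP_a77660_ag.Hedge
end
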